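import Mathlib

/-!
# SP.Acy : the cyclic permutations extending a partial permutation
-/

namespace H46.SP

/-- `π` is a single cycle on the whole type -/
def Cy {X : Type} (π : Equiv.Perm X) : Prop := ∀ x y, π.SameCycle x y

/-- a set closed under a cyclic permutation of a finite type is everything -/
private theorem cy_closed {X : Type} [Fintype X] {π : Equiv.Perm X} (hπ : Cy π) {O : Set X}
    {x : X} (hx : x ∈ O) (hO : ∀ z ∈ O, π z ∈ O) (y : X) : y ∈ O := by
  have h1 : ∀ n : ℕ, (π ^ n) x ∈ O := by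
    intro n
    induction n with
    | zero => exact hx
    | succ n ih =>
      rw [pow_succ', Equiv.Perm.mul_apply]
      exact hO _ ih
  obtain ⟨n, hn⟩ := (hπ x y).exists_nat_pow_eq
  rw [← hn]
  exact h1 n

private theorem acy_aux {X : Type} [Fintype X] [DecidableEq X] (n : ℕ) :
    ∀ (A : Finset X) (g : X → X), A.card + (n + 1) = Fintype.card X →
      {π : Equiv.Perm X | Cy π ∧ ∀ x ∈ A, π x = g x}.ncard ≤ n.factorial := by
  induction n with
  | zero =>
    intro A g hA
    rw [Nat.factorial_zero, Set.ncard_le_one]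
    rintro π ⟨-, h1⟩ π' ⟨-, h2⟩
    obtain ⟨x₀, hx₀⟩ : ∃ x₀ : X, ∀ y, y ≠ x₀ → y ∈ A := by
      have h3 : (Finset.univ \ A).card = 1 := by
        rw [Finset.card_sdiff_of_subset (Finset.subset_univ A), Finset.card_univ]
        omega
      obtain ⟨x₀, hx₀⟩ := Finset.card_eq_one.1 h3
      refine ⟨x₀, fun y hy => ?_⟩
      by_contra hc
      have h4 : y ∈ Finset.univ \ A := Finset.mem_sdiff.2 ⟨Finset.mem_univ _, hc⟩
      rw [hx₀, Finset.mem_singleton] at h4
      exact hy h4
    have h3 : ∀ y, y ≠ x₀ → π y = π' y := fun y hy => by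
      rw [h1 y (hx₀ y hy), h2 y (hx₀ y hy)]
    ext y
    by_cases hy : y = x₀
    · subst hy
      obtain ⟨z, hz⟩ := π.surjective (π' y)
      by_cases hzy : z = y
      · rw [← hz, hzy]
      · rw [h3 z hzy] at hz
        exact absurd (π'.injective hz) hzy
    · exact h3 y hy
  | succ n ih =>
    intro A g hA
    obtain ⟨x, hx⟩ : ∃ x, x ∉ A := by
      by_contra hc
      push Not at hc
      rw [Finset.eq_univ_iff_forall.2 hc, Finset.card_univ] at hA
      omega
    rcases Set.eq_empty_or_nonempty {π : Equiv.Perm X | Cy π ∧ ∀ x ∈ A, π x = g x} with h0 | ⟨π₀, hc₀, hg₀⟩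
    · rw [h0, Set.ncard_empty]
      exact Nat.zero_le _
    have hex : ∃ m : ℕ, ((π₀⁻¹) ^ (m + 1)) x ∉ A := by
      refine ⟨orderOf (π₀⁻¹) - 1, ?_⟩
      have hpos : 0 < orderOf (π₀⁻¹) := orderOf_pos _
      rw [Nat.sub_add_cancel hpos, pow_orderOf_eq_one]
      exact hx
    classical
    obtain ⟨m, hm, hmin⟩ : ∃ m : ℕ, ((π₀⁻¹) ^ (m + 1)) x ∉ A ∧
        ∀ i < m, ((π₀⁻¹) ^ (i + 1)) x ∈ A :=
      ⟨Nat.find hex, Nat.find_spec hex, fun i hi => not_not.1 (Nat.find_min hex hi)⟩
    set y₀ : X := ((π₀⁻¹) ^ m) x with hy₀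
    -- no member of the set sends `x` to `y₀`
    have hno : ∀ π : Equiv.Perm X, Cy π → (∀ z ∈ A, π z = g z) → π x ≠ y₀ := by
      intro π hπ hg hxy
      let O : Set X := {z | ∃ i ≤ m, z = ((π₀⁻¹) ^ i) x}
      have hO : ∀ z ∈ O, π z ∈ O := by
        rintro z ⟨i, hi, rfl⟩
        rcases Nat.eq_zero_or_pos i with rfl | hpos
        · refine ⟨m, le_rfl, ?_⟩
          rw [pow_zero, Equiv.Perm.one_apply, hxy]
        · obtain ⟨j, rfl⟩ : ∃ j, i = j + 1 := ⟨i - 1, by omega⟩
          have h1 := hmin j (by omega)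
          refine ⟨j, by omega, ?_⟩
          rw [hg _ h1, ← hg₀ _ h1, pow_succ', Equiv.Perm.mul_apply]
          exact π₀.apply_symm_apply _
      have hall := fun y => cy_closed hπ (O := O) (x := x) ⟨0, Nat.zero_le _, rfl⟩ hO y
      have hA' : ∀ y, y ≠ x → y ∈ A := by
        intro y hy
        obtain ⟨i, hi, rfl⟩ := hall y
        rcases Nat.eq_zero_or_pos i with rfl | hpos
        · exact absurd rfl hy
        · obtain ⟨j, rfl⟩ : ∃ j, i = j + 1 := ⟨i - 1, by omega⟩
          exact hmin j (by omega)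
      have h1 : (Finset.univ.erase x) ⊆ A := fun y hy => hA' y (Finset.ne_of_mem_erase hy)
      have h2 := Finset.card_le_card h1
      rw [Finset.card_erase_of_mem (Finset.mem_univ x), Finset.card_univ] at h2
      omega
    let Y : Finset X := (Finset.univ \ A.image π₀).erase y₀
    have hY : Y.card = n + 1 := by
      have h1 : y₀ ∈ Finset.univ \ A.image π₀ := by
        rw [Finset.mem_sdiff, Finset.mem_image]
        refine ⟨Finset.mem_univ _, ?_⟩
        rintro ⟨z, hz, hzy⟩
        have h2 : z = ((π₀⁻¹) ^ (m + 1)) x := by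
          rw [pow_succ', Equiv.Perm.mul_apply, ← hy₀, ← hzy]
          exact (π₀.symm_apply_apply z).symm
        exact hm (h2 ▸ hz)
      rw [Finset.card_erase_of_mem h1, Finset.card_sdiff_of_subset (Finset.subset_univ _),
        Finset.card_univ, Finset.card_image_of_injective _ π₀.injective]
      omega
    have hsub : {π : Equiv.Perm X | Cy π ∧ ∀ x ∈ A, π x = g x} ⊆
        ⋃ y ∈ Y, {π : Equiv.Perm X | Cy π ∧ ∀ z ∈ insert x A, π z = Function.update g x y z} := by
      rintro π ⟨h1, h2⟩
      rw [Set.mem_iUnion₂]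
      refine ⟨π x, ?_, h1, ?_⟩
      · rw [Finset.mem_erase, Finset.mem_sdiff, Finset.mem_image]
        refine ⟨hno π h1 h2, Finset.mem_univ _, ?_⟩
        rintro ⟨z, hz, hzx⟩
        rw [hg₀ z hz, ← h2 z hz] at hzx
        exact hx (π.injective hzx ▸ hz)
      · intro z hz
        rcases Finset.mem_insert.1 hz with rfl | hz
        · rw [Function.update_self]
        · have hzx : z ≠ x := fun h => hx (h ▸ hz)
          rw [Function.update_of_ne hzx, h2 z hz]
    have hcard : (insert x A).card + (n + 1) = Fintype.card X := by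
      rw [Finset.card_insert_of_notMem hx]
      omega
    calc {π : Equiv.Perm X | Cy π ∧ ∀ x ∈ A, π x = g x}.ncard
        ≤ (⋃ y ∈ Y, {π : Equiv.Perm X | Cy π ∧
            ∀ z ∈ insert x A, π z = Function.update g x y z}).ncard :=
          Set.ncard_le_ncard hsub (Set.toFinite _)
      _ ≤ ∑ y ∈ Y, {π : Equiv.Perm X | Cy π ∧
            ∀ z ∈ insert x A, π z = Function.update g x y z}.ncard :=
          Finset.set_ncard_biUnion_le _ _
      _ ≤ ∑ _y ∈ Y, n.factorial := Finset.sum_le_sum fun y _ => ih _ _ hcard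
      _ = (n + 1).factorial := by
          rw [Finset.sum_const, hY, smul_eq_mul, Nat.factorial_succ]

theorem acy_count {X : Type} [Fintype X] [DecidableEq X] (A : Finset X) (g : X → X)
    (hA : A.card < Fintype.card X) :
    {π : Equiv.Perm X | Cy π ∧ ∀ x ∈ A, π x = g x}.ncard ≤
      (Fintype.card X - A.card - 1).factorial :=
  acy_aux (Fintype.card X - A.card - 1) A g (by omega)

end H46.SP
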