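import Pool.Agent.H46.SP.NT

/-!
# SP.BdA : the bound for large d
-/

namespace H46.SP

/-- the permutation `f i ↦ f (i + 1)` -/
private def sh {X : Type} {d : ℕ} (f : ZMod d ≃ X) : Equiv.Perm X :=
  f.symm.trans ((Equiv.addRight 1).trans f)

private theorem sh_apply {X : Type} {d : ℕ} (f : ZMod d ≃ X) (i : ZMod d) :
    sh f (f i) = f (i + 1) := by
  unfold sh
  simp

private theorem sh_pow {X : Type} {d : ℕ} (f : ZMod d ≃ X) (i : ZMod d) (n : ℕ) :
    ((sh f) ^ n) (f i) = f (i + n) := by
  induction n with
  | zero => simp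
  | succ n ih =>
    rw [pow_succ', Equiv.Perm.mul_apply, ih, sh_apply]
    push_cast
    rw [add_assoc]

private theorem sh_cy {X : Type} {d : ℕ} [NeZero d] (f : ZMod d ≃ X) : Cy (sh f) := by
  intro x y
  obtain ⟨i, rfl⟩ := f.surjective x
  obtain ⟨j, rfl⟩ := f.surjective y
  refine ⟨((j - i).val : ℤ), ?_⟩
  rw [zpow_natCast, sh_pow, ZMod.natCast_zmod_val]
  congr 1
  ring

private theorem eq_of_sh {X : Type} {d : ℕ} [NeZero d] {f g : ZMod d ≃ X} (h0 : f 0 = g 0)
    (h : sh f = sh g) : f = g := by
  have h1 : ∀ n : ℕ, f (n : ZMod d) = g (n : ZMod d) := by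
    intro n
    have h2 := sh_pow f 0 n
    have h3 := sh_pow g 0 n
    rw [zero_add] at h2 h3
    rw [← h2, ← h3, h, h0]
  ext i
  rw [← ZMod.natCast_zmod_val i]
  exact h1 _

theorem bd_a {X : Type} [Fintype X] [DecidableEq X] {d : ℕ} [NeZero d] (hd : 2 ≤ d)
    (hX : Fintype.card X = d) (T : ZMod d → Finset X) (K : Finset (ZMod d)) (hK : K.card < d) :
    ((NT T).ncard : ℝ) ≤ d * (∏ i, phi (T i).card) *
      ((∏ i ∈ K, phi ((T i).card - 1)) * phi d ^ (d - K.card) / ((d - K.card : ℕ) : ℝ)) := by
  classical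
  have hne : ∀ i : ZMod d, i + 1 ≠ i := by
    intro i h
    have h1 : (1 : ZMod d) = 0 := by
      have h2 : i + 1 - i = i - i := by rw [h]
      rwa [add_sub_cancel_left, sub_self] at h2
    have : Fact (1 < d) := ⟨by omega⟩
    exact one_ne_zero h1
  let Ga : Finset (ZMod d ≃ X) := Finset.univ.filter fun α => ∀ v, α v ∈ T v
  let Pa : (ZMod d ≃ X) → Finset (Equiv.Perm X) := fun α =>
    Finset.univ.filter fun π => Cy π ∧ ∀ v ∈ K, π (α v) ∈ T v ∧ π (α v) ≠ α v
  -- step A
  have hA : (NT T).ncard ≤ d * ∑ α ∈ Ga, (Pa α).card := by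
    let S : Finset (X × (Σ _ : (ZMod d ≃ X), Equiv.Perm X)) := Finset.univ ×ˢ Ga.sigma Pa
    have hS : S.card = d * ∑ α ∈ Ga, (Pa α).card := by
      rw [Finset.card_product, Finset.card_sigma, Finset.card_univ, hX]
    rw [← hS, ← Set.ncard_coe_finset]
    refine Set.ncard_le_ncard_of_injOn (fun p => (p.2 0, ⟨p.1.symm.trans p.2, sh p.2⟩)) ?_ ?_
      (Set.toFinite _)
    · rintro ⟨σ, f⟩ hp
      have hp' : ∀ i, f i ∈ T (σ i) ∧ f (i + 1) ∈ T (σ i) := hp
      rw [Finset.mem_coe, Finset.mem_product, Finset.mem_sigma, Finset.mem_filter,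
        Finset.mem_filter]
      refine ⟨Finset.mem_univ _, ⟨Finset.mem_univ _, fun v => ?_⟩, Finset.mem_univ _, sh_cy f,
        fun v _ => ?_⟩
      · have h1 := (hp' (σ.symm v)).1
        rw [Equiv.apply_symm_apply] at h1
        exact h1
      · have h1 := (hp' (σ.symm v)).2
        rw [Equiv.apply_symm_apply] at h1
        have h2 : sh f ((σ.symm.trans f) v) = f (σ.symm v + 1) := sh_apply f (σ.symm v)
        refine ⟨?_, ?_⟩
        · change sh f ((σ.symm.trans f) v) ∈ T v
          rw [h2]
          exact h1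
        · change sh f ((σ.symm.trans f) v) ≠ _
          rw [h2]
          intro h3
          exact hne _ (f.injective h3)
    · rintro ⟨σ, f⟩ _ ⟨σ', f'⟩ _ h
      simp only [Prod.mk.injEq, Sigma.mk.injEq, heq_eq_eq] at h
      obtain ⟨h0, h1, h2⟩ := h
      have hf := eq_of_sh h0 h2
      subst hf
      have h3 : σ.symm = σ'.symm := by
        ext v
        have h4 := DFunLike.congr_fun h1 v
        exact f.injective h4
      have h4 : σ = σ' := by
        have h5 := congrArg Equiv.symm h3
        rwa [Equiv.symm_symm, Equiv.symm_symm] at h5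
      rw [h4]
  -- step B
  have hB : ∀ α ∈ Ga, ((Pa α).card : ℝ) ≤
      (∏ i ∈ K, phi ((T i).card - 1)) * phi d ^ (d - K.card) / ((d - K.card : ℕ) : ℝ) := by
    intro α hα
    have hα' : ∀ v, α v ∈ T v := (Finset.mem_filter.1 hα).2
    let A : Finset X := K.image α
    have hAc : A.card = K.card := Finset.card_image_of_injective _ α.injective
    let r : Equiv.Perm X → (X → X) := fun π x => if x ∈ A then π x else x
    have h1 : (Pa α).card ≤ (d - K.card - 1).factorial * ((Pa α).image r).card := by
      refine Finset.card_le_mul_card_image _ _ fun g hg => ?_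
      have h2 := acy_count A g (by rw [hAc, hX]; exact hK)
      rw [hAc, hX] at h2
      refine le_trans ?_ h2
      rw [← Set.ncard_coe_finset]
      refine Set.ncard_le_ncard ?_ (Set.toFinite _)
      intro π hπ
      rw [Finset.mem_coe, Finset.mem_filter, Finset.mem_filter] at hπ
      refine ⟨hπ.1.2.1, fun x hx => ?_⟩
      have h3 := congrFun hπ.2 x
      have h4 : r π x = π x := if_pos hx
      rw [← h3, h4]
    let T' : ZMod d → Finset X := fun v => if v ∈ K then (T v).erase (α v) else Finset.univ
    let B : Finset (ZMod d ≃ X) := Finset.univ.filter fun β => ∀ v, β v ∈ T' v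
    have h2 : ((Pa α).image r).card * (d - K.card).factorial ≤ B.card := by
      have hc : ∀ g ∈ (Pa α).image r, ∃ π ∈ Pa α, r π = g := fun g hg => Finset.mem_image.1 hg
      choose! c hc1 hc2 using hc
      have hP : Fintype.card (Equiv.Perm {v : ZMod d // v ∉ K}) = (d - K.card).factorial := by
        rw [Fintype.card_perm]
        congr 1
        rw [Fintype.card_subtype_compl, Fintype.card_coe, ZMod.card]
      rw [← hP, ← Finset.card_univ, ← Finset.card_product]
      refine Finset.card_le_card_of_injOn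
        (fun p => (Equiv.Perm.ofSubtype p.2).trans (α.trans (c p.1))) ?_ ?_
      · rintro ⟨g, τ⟩ hp
        rw [Finset.mem_coe, Finset.mem_product] at hp
        have h3 := (Finset.mem_filter.1 (hc1 g hp.1)).2
        rw [Finset.mem_coe, Finset.mem_filter]
        refine ⟨Finset.mem_univ _, fun v => ?_⟩
        change c g (α (Equiv.Perm.ofSubtype τ v)) ∈ T' v
        by_cases hv : v ∈ K
        · have h4 : Equiv.Perm.ofSubtype τ v = v :=
            Equiv.Perm.ofSubtype_apply_of_not_mem τ (not_not.2 hv)
          have h5 : T' v = (T v).erase (α v) := if_pos hv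
          rw [h4, h5, Finset.mem_erase]
          exact ⟨(h3.2 v hv).2, (h3.2 v hv).1⟩
        · have h5 : T' v = Finset.univ := if_neg hv
          rw [h5]
          exact Finset.mem_univ _
      · rintro ⟨g, τ⟩ hp ⟨g', τ'⟩ hp' h
        rw [Finset.mem_coe, Finset.mem_product] at hp hp'
        have h3 : ∀ v, c g (α (Equiv.Perm.ofSubtype τ v)) = c g' (α (Equiv.Perm.ofSubtype τ' v)) :=
          fun v => DFunLike.congr_fun h v
        have h4 : ∀ x ∈ A, c g x = c g' x := by
          intro x hx
          obtain ⟨v, hv, rfl⟩ := Finset.mem_image.1 hx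
          have h5 := h3 v
          rwa [Equiv.Perm.ofSubtype_apply_of_not_mem τ (not_not.2 hv),
            Equiv.Perm.ofSubtype_apply_of_not_mem τ' (not_not.2 hv)] at h5
        have h5 : g = g' := by
          rw [← hc2 g hp.1, ← hc2 g' hp'.1]
          funext x
          change (if x ∈ A then c g x else x) = (if x ∈ A then c g' x else x)
          split_ifs with hx
          · exact h4 x hx
          · rfl
        subst h5
        have h6 : Equiv.Perm.ofSubtype τ = Equiv.Perm.ofSubtype τ' := by
          ext v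
          exact α.injective ((c g).injective (h3 v))
        rw [Equiv.Perm.ofSubtype_injective h6]
    have h3 : (B.card : ℝ) ≤ (∏ i ∈ K, phi ((T i).card - 1)) * phi d ^ (d - K.card) := by
      refine (bregman T').trans (le_of_eq ?_)
      have h4 : ∀ v, phi (T' v).card = if v ∈ K then phi ((T v).card - 1) else phi d := by
        intro v
        by_cases hv : v ∈ K
        · rw [if_pos hv]
          have h5 : T' v = (T v).erase (α v) := if_pos hv
          rw [h5, Finset.card_erase_of_mem (hα' v)]
        · rw [if_neg hv]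
          have h5 : T' v = Finset.univ := if_neg hv
          rw [h5, Finset.card_univ, hX]
      rw [Finset.prod_congr rfl (fun v _ => h4 v), Finset.prod_ite, Finset.prod_const]
      congr 1
      · refine Finset.prod_congr ?_ fun _ _ => rfl
        ext v
        simp
      · congr 1
        have h6 : (Finset.univ.filter fun v : ZMod d => v ∉ K) = Finset.univ \ K := by
          ext v
          simp
        rw [h6, Finset.card_sdiff_of_subset (Finset.subset_univ K), Finset.card_univ, ZMod.card]
    have hpos : 0 < d - K.card := by omega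
    rw [le_div_iff₀ (by exact_mod_cast hpos)]
    refine le_trans ?_ h3
    have h4 : (Pa α).card * (d - K.card) ≤ B.card := by
      calc (Pa α).card * (d - K.card)
          ≤ ((d - K.card - 1).factorial * ((Pa α).image r).card) * (d - K.card) :=
            Nat.mul_le_mul_right _ h1
        _ = ((Pa α).image r).card * (d - K.card).factorial := by
            rw [← Nat.mul_factorial_pred (by omega : d - K.card ≠ 0)]
            ring
        _ ≤ B.card := h2
    exact_mod_cast h4
  have hG := bregman T
  have hBpos : 0 ≤ (∏ i ∈ K, phi ((T i).card - 1)) * phi d ^ (d - K.card) /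
      ((d - K.card : ℕ) : ℝ) :=
    div_nonneg (mul_nonneg (Finset.prod_nonneg fun i _ => (phi_pos _).le)
      (pow_nonneg (phi_pos d).le _)) (Nat.cast_nonneg _)
  calc ((NT T).ncard : ℝ) ≤ ((d * ∑ α ∈ Ga, (Pa α).card : ℕ) : ℝ) := by exact_mod_cast hA
    _ = d * ∑ α ∈ Ga, ((Pa α).card : ℝ) := by push_cast; rfl
    _ ≤ d * ∑ _α ∈ Ga, ((∏ i ∈ K, phi ((T i).card - 1)) * phi d ^ (d - K.card) /
        ((d - K.card : ℕ) : ℝ)) :=
        mul_le_mul_of_nonneg_left (Finset.sum_le_sum hB) (Nat.cast_nonneg _)
    _ = d * (Ga.card : ℝ) * ((∏ i ∈ K, phi ((T i).card - 1)) * phi d ^ (d - K.card) /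
        ((d - K.card : ℕ) : ℝ)) := by
        rw [Finset.sum_const, nsmul_eq_mul, mul_assoc]
    _ ≤ _ := by
        refine mul_le_mul_of_nonneg_right (mul_le_mul_of_nonneg_left ?_ (Nat.cast_nonneg _)) hBpos
        exact hG

end H46.SP
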