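import Pool.Agent.H46.SP.NT

/-!
# SP.BdB : the bounds for small d (about 200 lines)

Fix `f : ZMod d ≃ X`. Let `E v = {i | f i ∈ T v ∧ f (i + 1) ∈ T v}`. The `σ` with `(σ, f) ∈ NT T` are those with `i ∈ E (σ i)`, i.e. `σ.symm v ∈ E v` for all `v`: at most `∏ v, phi (E v).card` (`bregman`). If `(T v).card = d` then `(E v).card ≤ d`. If `(T v).card < d`: `E v` is contained in `{i | f i ∈ T v}` (`(T v).card` elements) and it is a proper subset if `T v` is not empty
(otherwise `f i ∈ T v` implies `f (i + 1) ∈ T v`, so `T v` is everything), so `(E v).card ≤ (T v).card - 1`; `phi_mono`. The number of `f` is `d!` (`Fintype.card_equiv`, `ZMod.card`). `bd_b2`: let `(T v).card = 2`, `T v = {x, y}`; only the `f` with `f.symm x - f.symm y = 1` or `= - 1` contribute. Their number is at most `2 d (d - 2)! = d! * 2 / (d - 1)`: `f` is determined by `f.symm x` (`d` choices), the sign (2 choices)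
and the bijection of the remaining `d - 2` positions and points. (E.g. by symmetry: for fixed `i` the number of `f` with `f i = x`, `f (i + 1) = y` is `(d - 2)!`.) `bd_zero`: `f i ≠ f (i + 1)` are both in `T (σ i)`.
-/

namespace H46.SP

variable {X : Type} [Fintype X] [DecidableEq X] {d : ℕ} [NeZero d]

private theorem bb_one (hd : 2 ≤ d) (i : ZMod d) : i ≠ i + 1 := by
  intro h
  have : Fact (1 < d) := ⟨by omega⟩
  exact one_ne_zero (left_eq_add.1 h)

/-- the positions where both ends are in `T v` -/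
private def bb_E (T : ZMod d → Finset X) (f : ZMod d ≃ X) (v : ZMod d) : Finset (ZMod d) :=
  Finset.univ.filter fun i => f i ∈ T v ∧ f (i + 1) ∈ T v

private theorem bb_F (T : ZMod d → Finset X) (f : ZMod d ≃ X) (v : ZMod d) :
    (Finset.univ.filter fun i => f i ∈ T v).card = (T v).card := by
  rw [← Finset.card_map f.toEmbedding]
  congr 1
  ext x
  rw [Finset.mem_map]
  constructor
  · rintro ⟨i, hi, rfl⟩
    exact (Finset.mem_filter.1 hi).2
  · intro hx
    exact ⟨f.symm x, Finset.mem_filter.2 ⟨Finset.mem_univ _, by rw [Equiv.apply_symm_apply]; exact hx⟩,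
      Equiv.apply_symm_apply _ _⟩

private theorem bb_E_card (T : ZMod d → Finset X) (f : ZMod d ≃ X) (v : ZMod d)
    (h : (T v).card ≠ d) : (bb_E T f v).card ≤ (T v).card - 1 := by
  have hsub : bb_E T f v ⊆ Finset.univ.filter fun i => f i ∈ T v := by
    intro i hi
    unfold bb_E at hi
    rw [Finset.mem_filter] at hi ⊢
    exact ⟨hi.1, hi.2.1⟩
  rcases Nat.eq_zero_or_pos (T v).card with h0 | h0
  · have := Finset.card_le_card hsub
    rw [bb_F] at this
    omega
  · have hne : bb_E T f v ≠ Finset.univ.filter fun i => f i ∈ T v := by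
      intro he
      apply h
      rw [← bb_F T f v] at h0 ⊢
      obtain ⟨i, hi⟩ := Finset.card_pos.1 h0
      have hstep : ∀ n : ℕ, f (i + (n : ZMod d)) ∈ T v := by
        intro n
        induction n with
        | zero =>
          rw [Nat.cast_zero, add_zero]
          exact (Finset.mem_filter.1 hi).2
        | succ n ih =>
          have h1 : i + (n : ZMod d) ∈ bb_E T f v := by
            rw [he, Finset.mem_filter]
            exact ⟨Finset.mem_univ _, ih⟩
          rw [Nat.cast_add, Nat.cast_one, ← add_assoc]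
          exact (Finset.mem_filter.1 h1).2.2
      have hall : (Finset.univ.filter fun i => f i ∈ T v) = Finset.univ := by
        ext j
        rw [Finset.mem_filter]
        refine ⟨fun h => h.1, fun h => ⟨h, ?_⟩⟩
        have h2 := hstep (j - i).val
        rwa [ZMod.natCast_zmod_val, add_sub_cancel] at h2
      rw [hall, Finset.card_univ, ZMod.card]
    have h1 := Finset.card_lt_card (Finset.ssubset_iff_subset_ne.2 ⟨hsub, hne⟩)
    rw [bb_F] at h1
    omega

private theorem bb_phi (T : ZMod d → Finset X) (f : ZMod d ≃ X) (v : ZMod d) :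
    phi (bb_E T f v).card ≤ if (T v).card = d then phi d else phi ((T v).card - 1) := by
  split_ifs with h
  · refine phi_mono ((Finset.card_le_univ _).trans ?_)
    rw [ZMod.card]
  · exact phi_mono (bb_E_card T f v h)

private theorem bb_main (T : ZMod d → Finset X)
    (S : Finset (ZMod d ≃ X)) (hS : ∀ p ∈ NT T, p.2 ∈ S) :
    ((NT T).ncard : ℝ) ≤ (S.card : ℝ) *
      ∏ i, (if (T i).card = d then phi d else phi ((T i).card - 1)) := by
  classical
  obtain ⟨N, hN⟩ : ∃ N : Finset (Equiv.Perm (ZMod d) × (ZMod d ≃ X)), ∀ p, p ∈ N ↔ p ∈ NT T :=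
    ⟨Finset.univ.filter fun p => p ∈ NT T, fun p => by simp⟩
  have hfin : NT T = (N : Set (Equiv.Perm (ZMod d) × (ZMod d ≃ X))) := by
    ext p
    exact (hN p).symm
  rw [hfin, Set.ncard_coe_finset, Finset.card_eq_sum_card_fiberwise (f := Prod.snd) (t := S)
    (fun p hp => hS p ((hN p).1 hp)), Nat.cast_sum, ← nsmul_eq_mul]
  refine Finset.sum_le_card_nsmul _ _ _ fun f _ => ?_
  refine le_trans ?_ (Finset.prod_le_prod (fun i _ => (phi_pos _).le) (fun i _ => bb_phi T f i))
  refine le_trans ?_ (bregman (bb_E T f))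
  refine Nat.cast_le.2 (Finset.card_le_card_of_injOn (fun p => p.1.symm) ?_ ?_)
  · intro p hp
    rw [Finset.mem_coe, Finset.mem_filter] at hp
    rw [Finset.mem_coe, Finset.mem_filter]
    refine ⟨Finset.mem_univ _, fun v => ?_⟩
    unfold bb_E
    rw [Finset.mem_filter]
    have h1 := (hN p).1 hp.1 (p.1.symm v)
    rw [hp.2, Equiv.apply_symm_apply] at h1
    exact ⟨Finset.mem_univ _, h1⟩
  · intro p hp q hq hpq
    rw [Finset.mem_coe, Finset.mem_filter] at hp hq
    refine Prod.ext (Equiv.symm_bijective.1 hpq) (hp.2.trans hq.2.symm)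

theorem bd_b (hd : 2 ≤ d) (hX : Fintype.card X = d) (T : ZMod d → Finset X) :
    ((NT T).ncard : ℝ) ≤ (d.factorial : ℝ) *
      ∏ i, (if (T i).card = d then phi d else phi ((T i).card - 1)) := by
  have h := bb_main T Finset.univ fun p _ => Finset.mem_univ _
  have h1 : Fintype.card (ZMod d) = Fintype.card X := by rw [ZMod.card, hX]
  rwa [Finset.card_univ, Fintype.card_equiv (Fintype.equivOfCardEq h1), ZMod.card] at h

private theorem bb_two (hX : Fintype.card X = d) {i j : ZMod d} {x y : X} (hij : i ≠ j)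
    (hxy : x ≠ y) : (Finset.univ.filter fun f : ZMod d ≃ X => f i = x ∧ f j = y).card ≤
      (d - 2).factorial := by
  classical
  have hc1 : Fintype.card {k : ZMod d // k ∉ ({i, j} : Finset (ZMod d))} = d - 2 := by
    rw [Fintype.card_subtype_compl, ZMod.card, Fintype.card_coe, Finset.card_pair hij]
  have hc2 : Fintype.card {z : X // z ∉ ({x, y} : Finset X)} = d - 2 := by
    rw [Fintype.card_subtype_compl, hX, Fintype.card_coe, Finset.card_pair hxy]
  have e : {k : ZMod d // k ∉ ({i, j} : Finset (ZMod d))} ≃ {z : X // z ∉ ({x, y} : Finset X)} :=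
    Fintype.equivOfCardEq (hc1.trans hc2.symm)
  rw [← Fintype.card_subtype, ← hc1, ← Fintype.card_equiv e]
  have key : ∀ f : {f : ZMod d ≃ X // f i = x ∧ f j = y}, ∀ k : ZMod d,
      k ∉ ({i, j} : Finset (ZMod d)) ↔ f.1 k ∉ ({x, y} : Finset X) := by
    rintro ⟨f, rfl, rfl⟩ k
    rw [Finset.mem_insert, Finset.mem_singleton, Finset.mem_insert, Finset.mem_singleton,
      f.injective.eq_iff, f.injective.eq_iff]
  refine Fintype.card_le_of_injective (fun f => f.1.subtypeEquiv (key f)) fun f f' hff => ?_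
  refine Subtype.ext (Equiv.ext fun k => ?_)
  by_cases hk : k ∈ ({i, j} : Finset (ZMod d))
  · rw [Finset.mem_insert, Finset.mem_singleton] at hk
    rcases hk with rfl | rfl
    · rw [f.2.1, f'.2.1]
    · rw [f.2.2, f'.2.2]
  · have h1 := Equiv.congr_fun hff ⟨k, hk⟩
    exact congrArg Subtype.val h1

theorem bd_b2 (hd : 3 ≤ d) (hX : Fintype.card X = d) (T : ZMod d → Finset X)
    (h : ∃ v, (T v).card = 2) :
    ((NT T).ncard : ℝ) ≤ (d.factorial : ℝ) * (2 / ((d : ℝ) - 1)) *
      ∏ i, (if (T i).card = d then phi d else phi ((T i).card - 1)) := by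
  classical
  obtain ⟨v, hv⟩ := h
  obtain ⟨x, y, hxy, hT⟩ := Finset.card_eq_two.1 hv
  have hnn : 0 ≤ ∏ i, (if (T i).card = d then phi d else phi ((T i).card - 1)) := by
    refine Finset.prod_nonneg fun i _ => ?_
    split_ifs
    · exact (phi_pos _).le
    · exact (phi_pos _).le
  have h1 := bb_main T (Finset.univ.biUnion fun i : ZMod d =>
    (Finset.univ.filter fun f : ZMod d ≃ X => f i = x ∧ f (i + 1) = y) ∪
      (Finset.univ.filter fun f : ZMod d ≃ X => f i = y ∧ f (i + 1) = x)) (by
    intro p hp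
    rw [Finset.mem_biUnion]
    refine ⟨p.1.symm v, Finset.mem_univ _, ?_⟩
    obtain ⟨a1, a2⟩ := hp (p.1.symm v)
    rw [Equiv.apply_symm_apply, hT, Finset.mem_insert, Finset.mem_singleton] at a1 a2
    rw [Finset.mem_union, Finset.mem_filter, Finset.mem_filter]
    have hne : p.2 (p.1.symm v) ≠ p.2 (p.1.symm v + 1) := fun he =>
      bb_one (by omega) _ (p.2.injective he)
    rcases a1 with a1 | a1 <;> rcases a2 with a2 | a2
    · exact absurd (a1.trans a2.symm) hne
    · exact Or.inl ⟨Finset.mem_univ _, a1, a2⟩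
    · exact Or.inr ⟨Finset.mem_univ _, a1, a2⟩
    · exact absurd (a1.trans a2.symm) hne)
  refine h1.trans (mul_le_mul_of_nonneg_right ?_ hnn)
  have h2 : (Finset.univ.biUnion fun i : ZMod d =>
    (Finset.univ.filter fun f : ZMod d ≃ X => f i = x ∧ f (i + 1) = y) ∪
      (Finset.univ.filter fun f : ZMod d ≃ X => f i = y ∧ f (i + 1) = x)).card ≤
      d * ((d - 2).factorial + (d - 2).factorial) := by
    refine Finset.card_biUnion_le.trans ?_
    refine (Finset.sum_le_card_nsmul _ _ ((d - 2).factorial + (d - 2).factorial) fun i _ => ?_).trans ?_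
    · exact (Finset.card_union_le _ _).trans (add_le_add (bb_two hX (bb_one (by omega) i) hxy)
        (bb_two hX (bb_one (by omega) i) hxy.symm))
    · rw [Finset.card_univ, ZMod.card, smul_eq_mul]
  refine (Nat.cast_le.2 h2).trans (le_of_eq ?_)
  obtain ⟨n, rfl⟩ : ∃ n, d = n + 2 := ⟨d - 2, by omega⟩
  rw [Nat.add_sub_cancel, Nat.factorial_succ, Nat.factorial_succ]
  have h3 : ((n + 2 : ℕ) : ℝ) - 1 = (n : ℝ) + 1 := by
    push_cast
    ring
  have h4 : (n : ℝ) + 1 ≠ 0 := by positivity
  rw [h3]
  push_cast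
  field_simp
  ring

theorem bd_zero (hd : 2 ≤ d) (T : ZMod d → Finset X) (h : ∃ v, (T v).card ≤ 1) :
    NT T = ∅ := by
  obtain ⟨v, hv⟩ := h
  rw [Set.eq_empty_iff_forall_notMem]
  intro p hp
  obtain ⟨a1, a2⟩ := hp (p.1.symm v)
  rw [Equiv.apply_symm_apply] at a1 a2
  exact bb_one hd _ (p.2.injective (Finset.card_le_one.1 hv _ a1 _ a2))

end H46.SP
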