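import Pool.Agent.H46.SP.Phi

/-!
# SP.Bre : Bregman's inequality (Minc's conjecture), proof of Schrijver (about 300 lines)

Let `P` be the number of `α : Y ≃ X` with `α y ∈ T y` for all `y`; `n = |Y| = |X|`; induction on `n`. If `P = 0` the claim is clear, so all `T y` are not empty; put `r y = (T y).card`. For `i : Y`, `k ∈ T i` let `P i k` be the number of good `α` with `α i = k`, i.e. the number for `Y \ {i}`, `X \ {k}`, `T y \ {k}`: `∑ k ∈ T i, P i k = P`.
(1) Convexity of `t log t` (`Real.convexOn_mul_log`, Jensen; terms with `P i k = 0` are `0 * log 0 = 0`): `P * log P ≤ P * log (r i) + ∑ k ∈ T i, P i k * log (P i k)`. Sum over `i : Y`: `n P log P ≤ P ∑ i, log (r i) + ∑ i, ∑ k ∈ T i, P i k log (P i k)`, and the last double sum is `∑ over good α of ∑ i, log (P i (α i))` (the number of good `α` with `α i = k` is `P i k`).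
(2) Induction hypothesis for a good `α`: `P i (α i) ≤ ∏ over y ≠ i of phi ((T y \ {α i}).card)`, so `log (P i (α i)) ≤ ∑ over y ≠ i of log phi (r y - [α i ∈ T y])`. Sum over `i` and exchange: for fixed `y` the number of `i ≠ y` with `α i ∈ T y` is `r y - 1` (`α` is a bijection and `α y ∈ T y`), the number of `i` with `α i ∉ T y` is `n - r y`. So `∑ i, log (P i (α i)) ≤ ∑ y, ((r y - 1) log phi (r y - 1) + (n - r y) log phi (r y))`.
(3) `log phi r = log (r!) / r`: `log (r y) + (r y - 1) log phi (r y - 1) = log (r y!)`, and `log (r!) + (n - r) log (r!) / r = n log (r!) / r = n log phi r`. Together `n P log P ≤ P n ∑ y, log phi (r y)`; divide by `n P` (`n ≥ 1`, `P ≥ 1`) and take the exponential.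
For the induction it may be convenient to state it for all finite types with `Fintype.card Y = n` and to use the subtypes `{y // y ≠ i}`, `{x // x ≠ k}` (the bijection between the good `α` with `α i = k` and the good `α'` of the subtypes; `Equiv.subtypeEquiv`, `Equiv.ofBijective`), or to work with `Fin (n + 1)` and `Fin.succAbove`.
-/

namespace H46.SP

private theorem mul_log_phi (n : ℕ) :
    (n : ℝ) * Real.log (phi n) = Real.log (n.factorial : ℝ) := by
  have hpos : (0 : ℝ) < (n.factorial : ℝ) := by exact_mod_cast Nat.factorial_pos n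
  rw [phi, Real.log_rpow hpos]
  rcases Nat.eq_zero_or_pos n with rfl | h
  · simp
  · have h0 : (n : ℝ) ≠ 0 := by positivity
    field_simp

private theorem phi_pos' (n : ℕ) : 0 < phi n :=
  Real.rpow_pos_of_pos (by exact_mod_cast Nat.factorial_pos n) _

private theorem log_step (n r : ℕ) (hr : 1 ≤ r) :
    Real.log (r : ℝ) + (((r : ℝ) - 1) * Real.log (phi (r - 1)) +
      ((n : ℝ) - r) * Real.log (phi r)) = n * Real.log (phi r) := by
  obtain ⟨q, rfl⟩ : ∃ q, r = q + 1 := ⟨r - 1, by omega⟩
  have h1 := mul_log_phi q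
  have h2 := mul_log_phi (q + 1)
  have h3 : Real.log ((q + 1).factorial : ℝ) =
      Real.log ((q + 1 : ℕ) : ℝ) + Real.log (q.factorial : ℝ) := by
    rw [Nat.factorial_succ, Nat.cast_mul, Real.log_mul]
    · positivity
    · exact_mod_cast (Nat.factorial_pos q).ne'
  rw [Nat.add_sub_cancel]
  have h4 : (((q + 1 : ℕ) : ℝ) - 1) = (q : ℝ) := by push_cast; ring
  rw [h4, h1]
  have h5 : ((n : ℝ) - ((q + 1 : ℕ) : ℝ)) * Real.log (phi (q + 1)) =
      n * Real.log (phi (q + 1)) - ((q + 1 : ℕ) : ℝ) * Real.log (phi (q + 1)) := by ring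
  rw [h5, h2, h3]
  ring

private theorem fiber_le {Y X : Type} [Fintype Y] [DecidableEq Y] [Fintype X] [DecidableEq X]
    (T : Y → Finset X) (i : Y) (k : X) :
    ((Finset.univ.filter fun α : Y ≃ X => ∀ y, α y ∈ T y).filter fun α => α i = k).card ≤
      (Finset.univ.filter fun α : {y // y ≠ i} ≃ {x // x ≠ k} =>
        ∀ y, α y ∈ (T y.1).subtype (fun x => x ≠ k)).card := by
  rw [← Fintype.card_coe, ← Fintype.card_coe]
  have key : ∀ α : Y ≃ X, α ∈ ((Finset.univ.filter fun α : Y ≃ X => ∀ y, α y ∈ T y).filter
      fun α => α i = k) → (∀ y, α y ∈ T y) ∧ α i = k := fun α h => by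
    rw [Finset.mem_filter, Finset.mem_filter] at h
    exact ⟨h.1.2, h.2⟩
  have hp : ∀ α : Y ≃ X, α i = k → ∀ a, a ≠ i ↔ α a ≠ k := fun α h a => by
    rw [← h]
    exact (α.injective.ne_iff).symm
  refine Fintype.card_le_of_injective (fun α => ⟨α.1.subtypeEquiv (hp α.1 (key α.1 α.2).2), ?_⟩) ?_
  · rw [Finset.mem_filter]
    refine ⟨Finset.mem_univ _, fun y => ?_⟩
    rw [Finset.mem_subtype]
    exact (key α.1 α.2).1 y.1
  · intro α β h
    have h1 : α.1.subtypeEquiv (hp α.1 (key α.1 α.2).2) =
        β.1.subtypeEquiv (hp β.1 (key β.1 β.2).2) := congrArg Subtype.val h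
    refine Subtype.ext (Equiv.ext (fun y => ?_))
    by_cases hy : y = i
    · rw [hy, (key α.1 α.2).2, (key β.1 β.2).2]
    · have h2 := congrArg (fun e : {y // y ≠ i} ≃ {x // x ≠ k} => (e ⟨y, hy⟩).1) h1
      exact h2

/-- Gibbs' inequality -/
private theorem gibbs {X : Type} (S : Finset X) (f : X → ℕ) (P : ℕ) (hP : 1 ≤ P)
    (hS : ∑ k ∈ S, f k = P) :
    (P : ℝ) * Real.log P ≤ P * Real.log (S.card : ℝ) +
      ∑ k ∈ S, (f k : ℝ) * Real.log (f k) := by
  have hr : 0 < S.card := by
    rcases Finset.eq_empty_or_nonempty S with rfl | h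
    · rw [Finset.sum_empty] at hS
      omega
    · exact h.card_pos
  have hr' : (0 : ℝ) < (S.card : ℝ) := by exact_mod_cast hr
  have hP' : (0 : ℝ) < (P : ℝ) := by exact_mod_cast hP
  have key : ∀ k ∈ S, (f k : ℝ) * (Real.log P - Real.log (S.card : ℝ)) ≤
      (f k : ℝ) * Real.log (f k) + ((P : ℝ) / S.card - f k) := by
    intro k _
    rcases Nat.eq_zero_or_pos (f k) with h0 | h0
    · rw [h0]
      have : (0 : ℝ) ≤ (P : ℝ) / S.card := by positivity
      simpa using this
    · have hf : (0 : ℝ) < (f k : ℝ) := by exact_mod_cast h0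
      have hx : (0 : ℝ) < (P : ℝ) / S.card / f k := by positivity
      have h1 := Real.log_le_sub_one_of_pos hx
      rw [Real.log_div (by positivity) (by positivity),
        Real.log_div (by positivity) (by positivity)] at h1
      have h2 := mul_le_mul_of_nonneg_left h1 hf.le
      have h3 : (f k : ℝ) * ((P : ℝ) / S.card / f k - 1) = (P : ℝ) / S.card - f k := by
        field_simp
      rw [h3] at h2
      linarith
  have hsum := Finset.sum_le_sum key
  rw [← Finset.sum_mul, Finset.sum_add_distrib, Finset.sum_sub_distrib, Finset.sum_const,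
    nsmul_eq_mul] at hsum
  have h4 : (∑ k ∈ S, (f k : ℝ)) = P := by exact_mod_cast hS
  rw [h4, mul_div_cancel₀ _ hr'.ne', sub_self, add_zero] at hsum
  linarith

private theorem card_erase' {X : Type} [DecidableEq X] (S : Finset X) (k : X) :
    (S.subtype (fun x => x ≠ k)).card = if k ∈ S then S.card - 1 else S.card := by
  have h : (S.subtype (fun x => x ≠ k)).card = (S.erase k).card := by
    rw [Finset.card_subtype]
    congr 1
    ext x
    rw [Finset.mem_filter, Finset.mem_erase, and_comm]
  rw [h, Finset.card_erase_eq_ite]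

private theorem sum_others {Y X : Type} [Fintype Y] [DecidableEq Y] [Fintype X] [DecidableEq X]
    (α : Y ≃ X) (S : Finset X) (y : Y) (hy : α y ∈ S) :
    ∑ i ∈ Finset.univ.erase y, Real.log (phi (S.subtype (fun x => x ≠ α i)).card) =
      ((S.card : ℝ) - 1) * Real.log (phi (S.card - 1)) +
        ((Fintype.card Y : ℝ) - S.card) * Real.log (phi S.card) := by
  have h1 : ∑ i, Real.log (phi (S.subtype (fun x => x ≠ α i)).card) =
      ∑ x : X, (if x ∈ S then Real.log (phi (S.card - 1)) else Real.log (phi S.card)) := by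
    rw [← Equiv.sum_comp α]
    refine Finset.sum_congr rfl (fun i _ => ?_)
    rw [card_erase']
    split_ifs <;> rfl
  have h2 : ∑ x : X, (if x ∈ S then Real.log (phi (S.card - 1)) else Real.log (phi S.card)) =
      (S.card : ℝ) * Real.log (phi (S.card - 1)) +
        ((Fintype.card Y : ℝ) - S.card) * Real.log (phi S.card) := by
    rw [Finset.sum_ite, Finset.sum_const, Finset.sum_const, nsmul_eq_mul, nsmul_eq_mul]
    have h3 : (Finset.univ.filter (fun x => x ∈ S)) = S := by
      ext x
      simp
    have h4 : (Finset.univ.filter (fun x => x ∉ S)).card = Fintype.card X - S.card := by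
      rw [← Finset.card_compl]
      congr 1
      ext x
      simp
    have h5 : S.card ≤ Fintype.card X := Finset.card_le_univ S
    rw [h3, h4, Nat.cast_sub h5, Fintype.card_congr α]
  have h6 := Finset.add_sum_erase Finset.univ
    (fun i => Real.log (phi (S.subtype (fun x => x ≠ α i)).card)) (Finset.mem_univ y)
  have h7 : Real.log (phi (S.subtype (fun x => x ≠ α y)).card) = Real.log (phi (S.card - 1)) := by
    rw [card_erase', if_pos hy]
  rw [h7, h1, h2] at h6
  linarith

private theorem bregman_aux (n : ℕ) : ∀ (Y X : Type) [Fintype Y] [DecidableEq Y] [Fintype X]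
    [DecidableEq X], Fintype.card Y = n → ∀ T : Y → Finset X,
    ((Finset.univ.filter fun α : Y ≃ X => ∀ y, α y ∈ T y).card : ℝ) ≤ ∏ y, phi (T y).card := by
  induction n with
  | zero =>
    intro Y X _ _ _ _ hY T
    have hE : IsEmpty Y := Fintype.card_eq_zero_iff.1 hY
    have hp : ∏ y, phi (T y).card = 1 := Finset.prod_of_isEmpty _
    rw [hp]
    have h : (Finset.univ.filter fun α : Y ≃ X => ∀ y, α y ∈ T y).card ≤ 1 := by
      refine Finset.card_le_one.2 (fun α _ β _ => Equiv.ext (fun y => isEmptyElim y))
    exact_mod_cast h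
  | succ n ih =>
    intro Y X _ _ _ _ hY T
    set G := Finset.univ.filter fun α : Y ≃ X => ∀ y, α y ∈ T y with hG
    have hG' : ∀ α ∈ G, ∀ y, α y ∈ T y := fun α h => by
      rw [hG, Finset.mem_filter] at h
      exact h.2
    rcases Nat.eq_zero_or_pos G.card with h0 | h0
    · rw [h0, Nat.cast_zero]
      exact Finset.prod_nonneg (fun y _ => (phi_pos' _).le)
    have hP' : (0 : ℝ) < (G.card : ℝ) := by exact_mod_cast h0
    obtain ⟨α₀, hα₀⟩ := Finset.card_pos.1 h0
    have hr : ∀ y, 1 ≤ (T y).card := fun y => Finset.card_pos.2 ⟨α₀ y, hG' α₀ hα₀ y⟩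
    -- step 1
    have s1 : ∀ i, (G.card : ℝ) * Real.log G.card ≤ G.card * Real.log ((T i).card : ℝ) +
        ∑ α ∈ G, Real.log ((G.filter fun β => β i = α i).card : ℝ) := by
      intro i
      have h1 : ∑ k ∈ T i, (G.filter fun β => β i = k).card = G.card :=
        (Finset.card_eq_sum_card_fiberwise (f := fun β : Y ≃ X => β i) (t := T i)
          (fun α hα => hG' α hα i)).symm
      have h2 := gibbs (T i) (fun k => (G.filter fun β => β i = k).card) G.card h0 h1
      have h3 : ∑ k ∈ T i, ((G.filter fun β => β i = k).card : ℝ) *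
          Real.log ((G.filter fun β => β i = k).card : ℝ) =
          ∑ α ∈ G, Real.log ((G.filter fun β => β i = α i).card : ℝ) := by
        rw [← Finset.sum_fiberwise_of_maps_to (s := G) (t := T i) (g := fun β : Y ≃ X => β i)
          (fun α hα => hG' α hα i)]
        refine Finset.sum_congr rfl (fun k _ => ?_)
        rw [← nsmul_eq_mul, ← Finset.sum_const]
        refine Finset.sum_congr rfl (fun α hα => ?_)
        rw [(Finset.mem_filter.1 hα).2]
      rw [h3] at h2
      exact h2
    -- step 2
    have s2 : ∀ α ∈ G, ∀ i, Real.log ((G.filter fun β => β i = α i).card : ℝ) ≤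
        ∑ y ∈ Finset.univ.erase i,
          Real.log (phi ((T y).subtype (fun x => x ≠ α i)).card) := by
      intro α hα i
      have h1 := fiber_le T i (α i)
      have h2 : Fintype.card {y // y ≠ i} = n := by
        rw [Fintype.card_subtype_compl, Fintype.card_subtype_eq, hY]
        rfl
      have h3 := ih {y // y ≠ i} {x // x ≠ α i} h2
        (fun y => (T y.1).subtype (fun x => x ≠ α i))
      have h4 : (1 : ℝ) ≤ ((G.filter fun β => β i = α i).card : ℝ) := by
        have h8 : 1 ≤ (G.filter fun β => β i = α i).card :=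
          Finset.card_pos.2 ⟨α, Finset.mem_filter.2 ⟨hα, rfl⟩⟩
        exact_mod_cast h8
      have h5 : ((G.filter fun β => β i = α i).card : ℝ) ≤
          ∏ y : {y // y ≠ i}, phi ((T y.1).subtype (fun x => x ≠ α i)).card :=
        le_trans (by exact_mod_cast h1) h3
      have h6 := Real.log_le_log (by linarith) h5
      rw [Real.log_prod (fun y _ => (phi_pos' _).ne')] at h6
      have h7 : ∑ y : {y // y ≠ i}, Real.log (phi ((T y.1).subtype (fun x => x ≠ α i)).card) =
          ∑ y ∈ Finset.univ.erase i,
            Real.log (phi ((T y).subtype (fun x => x ≠ α i)).card) := by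
        refine (Finset.sum_subtype (Finset.univ.erase i) (fun y => ?_)
          (fun y => Real.log (phi ((T y).subtype (fun x => x ≠ α i)).card))).symm
        rw [Finset.mem_erase]
        exact ⟨fun h => h.1, fun h => ⟨h, Finset.mem_univ y⟩⟩
      rw [h7] at h6
      exact h6
    -- step 3
    have s3 : ∀ α ∈ G, ∑ i, Real.log ((G.filter fun β => β i = α i).card : ℝ) ≤
        ∑ y, ((((T y).card : ℝ) - 1) * Real.log (phi ((T y).card - 1)) +
          ((Fintype.card Y : ℝ) - (T y).card) * Real.log (phi (T y).card)) := by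
      intro α hα
      refine le_trans (Finset.sum_le_sum (fun i _ => s2 α hα i)) (le_of_eq ?_)
      have h1 : ∀ i : Y, ∑ y ∈ Finset.univ.erase i,
          Real.log (phi ((T y).subtype (fun x => x ≠ α i)).card) =
          ∑ y, if y ≠ i then Real.log (phi ((T y).subtype (fun x => x ≠ α i)).card) else 0 := by
        intro i
        rw [← Finset.sum_filter]
        refine Finset.sum_congr ?_ (fun _ _ => rfl)
        ext y
        simp
      have h2 : ∀ y : Y, ∑ i ∈ Finset.univ.erase y,
          Real.log (phi ((T y).subtype (fun x => x ≠ α i)).card) =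
          ∑ i, if y ≠ i then Real.log (phi ((T y).subtype (fun x => x ≠ α i)).card) else 0 := by
        intro y
        rw [← Finset.sum_filter]
        refine Finset.sum_congr ?_ (fun _ _ => rfl)
        ext i
        simp [eq_comm]
      rw [Finset.sum_congr rfl (fun i _ => h1 i), Finset.sum_comm]
      refine Finset.sum_congr rfl (fun y _ => ?_)
      rw [← h2 y]
      exact sum_others α (T y) y (hG' α hα y)
    -- conclusion
    have s4 : (Fintype.card Y : ℝ) * ((G.card : ℝ) * Real.log G.card) ≤
        G.card * ((Fintype.card Y : ℝ) * ∑ y, Real.log (phi (T y).card)) := by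
      have h1 : ∑ _i : Y, (G.card : ℝ) * Real.log G.card ≤
          ∑ i : Y, (G.card * Real.log ((T i).card : ℝ) +
            ∑ α ∈ G, Real.log ((G.filter fun β => β i = α i).card : ℝ)) :=
        Finset.sum_le_sum (fun i _ => s1 i)
      rw [Finset.sum_const, Finset.card_univ, nsmul_eq_mul, Finset.sum_add_distrib,
        Finset.sum_comm, ← Finset.mul_sum] at h1
      have h2 : ∑ α ∈ G, ∑ i, Real.log ((G.filter fun β => β i = α i).card : ℝ) ≤
          ∑ _α ∈ G, ∑ y, ((((T y).card : ℝ) - 1) * Real.log (phi ((T y).card - 1)) +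
            ((Fintype.card Y : ℝ) - (T y).card) * Real.log (phi (T y).card)) :=
        Finset.sum_le_sum s3
      rw [Finset.sum_const, nsmul_eq_mul] at h2
      refine le_trans h1 (le_trans (add_le_add le_rfl h2) (le_of_eq ?_))
      rw [← mul_add, ← Finset.sum_add_distrib]
      congr 1
      rw [Finset.mul_sum]
      refine Finset.sum_congr rfl (fun y _ => ?_)
      exact log_step _ _ (hr y)
    have hn : (0 : ℝ) < (Fintype.card Y : ℝ) := by
      rw [hY]
      positivity
    have s5 : Real.log G.card ≤ ∑ y, Real.log (phi (T y).card) := by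
      have h1 : ((Fintype.card Y : ℝ) * G.card) * Real.log G.card ≤
          ((Fintype.card Y : ℝ) * G.card) * ∑ y, Real.log (phi (T y).card) := by
        calc ((Fintype.card Y : ℝ) * G.card) * Real.log G.card =
            (Fintype.card Y : ℝ) * ((G.card : ℝ) * Real.log G.card) := by ring
          _ ≤ _ := s4
          _ = _ := by ring
      exact le_of_mul_le_mul_left h1 (mul_pos hn hP')
    rw [← Real.log_prod (fun y _ => (phi_pos' _).ne')] at s5
    exact (Real.log_le_log_iff hP' (Finset.prod_pos (fun y _ => phi_pos' _))).1 s5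

theorem bregman {Y X : Type} [Fintype Y] [DecidableEq Y] [Fintype X] [DecidableEq X]
    (T : Y → Finset X) :
    ((Finset.univ.filter fun α : Y ≃ X => ∀ y, α y ∈ T y).card : ℝ) ≤ ∏ y, phi (T y).card := by
  exact bregman_aux _ Y X rfl T

end H46.SP
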