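import Pool.Agent.H46.SP.Spd
import Pool.Agent.H46.CZ.Sym

/-!
# SP.Spw : the value of the spider (about 180 lines, adapted from CZ.Spv)

As in CZ.Spv with `Fin 3` replaced by `Fin d`: weight `w 1 = 1 / (d (h - 1) + 1)`, the number of the vertices of colour `1` is `1 + d (h - 1)`; `aw ≥ w 1` for any two different hubs; the number of the injective functions `ZMod d → hubs` is `d!`; `wval = wz / (2 d)` (`val_eq`), `d! / (2 d) = (d - 1)! / 2`.
-/

namespace H46.SP

open Pool.Agent.H3.LC H46.CY H46.CZ

private def spu (d k : ℕ) (i : Fin d) : List (Option (Fin d × Fin (k + 1))) :=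
  (List.finRange k).map fun t => some (i, t.castSucc)

private theorem spu_len (d k : ℕ) (i : Fin d) : (spu d k i).length = k := by
  simp [spu]

private theorem spu_mem {d k : ℕ} {i : Fin d} {v : Option (Fin d × Fin (k + 1))}
    (hv : v ∈ spu d k i) : ∃ t : Fin k, v = some (i, t.castSucc) := by
  obtain ⟨t, _, rfl⟩ := List.mem_map.1 hv
  exact ⟨t, rfl⟩

private theorem spu_pi (d k : ℕ) (i : Fin d) :
    PI (spg d (k + 1)) none (some (i, Fin.last k)) (spu d k i) := by
  refine ⟨?_, ?_, ?_, ?_⟩
  · have e : spu d k i ++ [some (i, Fin.last k)] =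
        (List.finRange (k + 1)).map fun t => (some (i, t) : Option (Fin d × Fin (k + 1))) := by
      rw [List.finRange_succ_last, List.map_append, List.map_map]
      rfl
    rw [e, List.isChain_iff_getElem]
    intro j hj
    rcases j with _ | j
    · simp only [List.getElem_cons_zero, List.getElem_cons_succ, List.getElem_map,
        List.getElem_finRange]
      rfl
    · simp only [List.getElem_cons_succ, List.getElem_map, List.getElem_finRange]
      refine ⟨rfl, Or.inl ?_⟩
      rfl
  · refine (List.nodup_finRange k).map ?_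
    intro s t hst
    simp only [Option.some.injEq, Prod.mk.injEq, true_and] at hst
    exact Fin.castSucc_injective k hst
  · intro hm
    obtain ⟨t, ht⟩ := spu_mem hm
    exact absurd ht (by simp)
  · intro hm
    obtain ⟨t, ht⟩ := spu_mem hm
    simp only [Option.some.injEq, Prod.mk.injEq, true_and] at ht
    exact (Fin.castSucc_lt_last t).ne ht.symm

private theorem spu_col {d k : ℕ} {i : Fin d} {v : Option (Fin d × Fin (k + 1))}
    (hv : v ∈ spu d k i) : spc d (k + 1) v = 1 := by
  obtain ⟨t, rfl⟩ := spu_mem hv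
  have h1 := t.isLt
  simp only [spc, Fin.val_castSucc]
  rw [if_neg (by omega)]

private theorem sp_lp (d k : ℕ) {i j : Fin d} (hij : i ≠ j) :
    (LP (2 * (k + 1)) (spg d (k + 1)) (spc d (k + 1)) (some (i, Fin.last k))
      (some (j, Fin.last k)) 1).Nonempty := by
  refine ⟨(spu d k i).reverse ++ none :: spu d k j, ?_, ?_, ?_⟩
  · refine pi_app (pi_rev (spu_pi d k i)) (spu_pi d k j) (by simp) (by simp) ?_ ?_ ?_
    · intro x hx hx2
      rw [List.mem_reverse] at hx
      obtain ⟨t, rfl⟩ := spu_mem hx
      obtain ⟨s, hs⟩ := spu_mem hx2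
      simp only [Option.some.injEq, Prod.mk.injEq] at hs
      exact hij hs.1
    · intro hx
      obtain ⟨t, ht⟩ := spu_mem hx
      simp only [Option.some.injEq, Prod.mk.injEq] at ht
      exact hij ht.1
    · intro hx
      rw [List.mem_reverse] at hx
      obtain ⟨t, ht⟩ := spu_mem hx
      simp only [Option.some.injEq, Prod.mk.injEq] at ht
      exact hij ht.1.symm
  · simp only [List.length_append, List.length_reverse, List.length_cons, spu_len]
    omega
  · intro v hv
    rw [List.mem_append, List.mem_reverse, List.mem_cons] at hv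
    rcases hv with hv | rfl | hv
    · exact spu_col hv
    · rfl
    · exact spu_col hv

private theorem sp_hub {d k : ℕ} {v : Option (Fin d × Fin (k + 1))} (hv : spc d (k + 1) v = 0) :
    ∃ i, v = some (i, Fin.last k) := by
  rcases v with _ | ⟨i, t⟩
  · exact absurd hv (by simp [spc])
  · refine ⟨i, ?_⟩
    simp only [spc] at hv
    split_ifs at hv with h1
    have : t = Fin.last k := Fin.ext (by rw [Fin.val_last]; omega)
    rw [this]

private theorem sp_card (d k : ℕ) [Fintype {v // spc d (k + 1) v = 0}] :
    Fintype.card {v // spc d (k + 1) v = 0} = d := by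
  have h : Function.Bijective
      (fun i : Fin d => (⟨some (i, Fin.last k), by simp [spc]⟩ : {v // spc d (k + 1) v = 0})) := by
    refine ⟨fun i j hij => ?_, fun v => ?_⟩
    · have h1 := congrArg Subtype.val hij
      simp only [Option.some.injEq, Prod.mk.injEq, and_true] at h1
      exact h1
    · obtain ⟨i, hi⟩ := sp_hub v.2
      exact ⟨i, Subtype.ext hi.symm⟩
  rw [← Fintype.card_of_bijective h, Fintype.card_fin]

private theorem rot_ne {d : ℕ} (hd : 2 ≤ d) (i : Fin d) : finRotate d i ≠ i := by
  obtain ⟨k, rfl⟩ : ∃ k, d = k + 2 := ⟨d - 2, by omega⟩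
  rw [finRotate_apply]
  intro h
  have h1 : (1 : Fin (k + 2)) = 0 := by
    rwa [add_eq_left] at h
  exact absurd h1 (by simp)

theorem spd_val {d h : ℕ} (hd : 2 ≤ d) (hh : 1 ≤ h) :
    ∃ w : ℕ → ℝ, Feas (spc d h) w ∧
      ((d - 1).factorial : ℝ) / 2 / ((d : ℝ) * ((h : ℝ) - 1) + 1) ^ d ≤
        wval (2 * h) d (spg d h) (spc d h) w := by
  classical
  obtain ⟨k, rfl⟩ : ∃ k, h = k + 1 := ⟨h - 1, by omega⟩
  have hk : ((k + 1 : ℕ) : ℝ) - 1 = k := by
    push_cast
    ring
  rw [hk]
  set x : ℝ := 1 / ((d : ℝ) * k + 1) with hx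
  have hden : 0 < (d : ℝ) * k + 1 := by positivity
  have hx0 : 0 < x := by positivity
  set w : ℕ → ℝ := fun i => if i = 1 then x else 0 with hw
  have hw0 : ∀ i, 0 ≤ w i := by
    intro i
    simp only [hw]
    split_ifs
    · exact hx0.le
    · exact le_rfl
  refine ⟨w, ⟨by simp [hw], hw0, ?_⟩, ?_⟩
  · rw [Fintype.sum_option, Fintype.sum_prod_type]
    have h1 : ∀ i : Fin d, ∑ t : Fin (k + 1), w (spc d (k + 1) (some (i, t))) = k * x := by
      intro i
      rw [Fin.sum_univ_castSucc]
      have h2 : ∀ t : Fin k, w (spc d (k + 1) (some (i, t.castSucc))) = x := by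
        intro t
        have h3 := t.isLt
        have h4 : spc d (k + 1) (some (i, t.castSucc)) = 1 := by
          simp only [spc, Fin.val_castSucc]
          rw [if_neg (by omega)]
        rw [h4]
        simp [hw]
      have h5 : w (spc d (k + 1) (some (i, Fin.last k))) = 0 := by
        have h4 : spc d (k + 1) (some (i, Fin.last k)) = 0 := by simp [spc]
        rw [h4]
        simp [hw]
      rw [Finset.sum_congr rfl fun t _ => h2 t, h5]
      simp
    rw [Finset.sum_congr rfl fun i _ => h1 i]
    have h6 : w (spc d (k + 1) none) = x := by simp [spc, hw]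
    rw [h6, Finset.sum_const, Finset.card_univ, Fintype.card_fin, nsmul_eq_mul]
    have h7 : x * ((d : ℝ) * k + 1) = 1 := by
      rw [hx]
      exact div_mul_cancel₀ 1 hden.ne'
    linarith
  · have haw : ∀ i j : Fin d, i ≠ j →
        x ≤ aw (2 * (k + 1)) (spg d (k + 1)) (spc d (k + 1)) w (some (i, Fin.last k))
          (some (j, Fin.last k)) := by
      intro i j hij
      unfold aw
      have hmem : (1 : ℕ) ∈ Finset.univ.image (spc d (k + 1)) :=
        Finset.mem_image.2 ⟨none, Finset.mem_univ _, rfl⟩
      refine le_trans ?_ (Finset.single_le_sum (fun i _ => mul_nonneg (hw0 i) (Nat.cast_nonneg _))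
        hmem)
      have h1 : w 1 = x := by simp [hw]
      rw [h1]
      have h2 : 1 ≤ (LP (2 * (k + 1)) (spg d (k + 1)) (spc d (k + 1)) (some (i, Fin.last k))
          (some (j, Fin.last k)) 1).ncard := by
        rw [Nat.one_le_iff_ne_zero, ← Nat.pos_iff_ne_zero, Set.ncard_pos (lp_finite _ _ _ _ _ _)]
        exact sp_lp d k hij
      have h3 : (1 : ℝ) ≤ ((LP (2 * (k + 1)) (spg d (k + 1)) (spc d (k + 1))
          (some (i, Fin.last k)) (some (j, Fin.last k)) 1).ncard : ℝ) := by exact_mod_cast h2
      nlinarith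
    unfold wval
    have hd0 : (0 : ℝ) < d := by
      have : 0 < d := by omega
      exact_mod_cast this
    rw [le_div_iff₀ (by positivity)]
    have hterm : ∀ f : Fin d ↪ {v // spc d (k + 1) v = 0},
        x ^ d ≤ ∏ i : Fin d, aw (2 * (k + 1)) (spg d (k + 1)) (spc d (k + 1)) w (f i)
          (f (finRotate d i)) := by
      intro f
      have h1 : ∀ i : Fin d, x ≤ aw (2 * (k + 1)) (spg d (k + 1)) (spc d (k + 1)) w (f i)
          (f (finRotate d i)) := by
        intro i
        obtain ⟨a, ha⟩ := sp_hub (f i).2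
        obtain ⟨b, hb⟩ := sp_hub (f (finRotate d i)).2
        rw [ha, hb]
        apply haw
        rintro rfl
        have h2 : f i = f (finRotate d i) := Subtype.ext (ha.trans hb.symm)
        exact rot_ne hd i (f.injective h2).symm
      calc x ^ d = ∏ _i : Fin d, x := by simp
        _ ≤ _ := Finset.prod_le_prod (fun _ _ => hx0.le) fun i _ => h1 i
    have hsum := Finset.card_nsmul_le_sum (Finset.univ) _ _ fun f _ => hterm f
    rw [Finset.card_univ, Fintype.card_embedding_eq, sp_card, Fintype.card_fin,
      Nat.descFactorial_self, nsmul_eq_mul] at hsum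
    refine le_trans (le_of_eq ?_) hsum
    have hfac : ((d.factorial : ℕ) : ℝ) = (d : ℝ) * ((d - 1).factorial : ℝ) := by
      rw [← Nat.mul_factorial_pred (by omega : d ≠ 0)]
      push_cast
      ring
    rw [hfac, hx, div_pow, one_pow]
    ring

end H46.SP
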