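import Pool.Agent.H46.SP.Dsj

/-!
# SP.Upd : upper bounds for disjoint used paths (as CZ.Upd, with UDsj)
-/

namespace H46.SP

open Pool.Agent.H3.LC H46.CY H46.CZ Finset

variable {V : Type} [Fintype V] {L : Finset ℕ} {G : SimpleGraph V} {c : V → ℕ} {l d : ℕ}

open Classical in
/-- the weighted number of paths of a used pair -/
private noncomputable def ua (l d : ℕ) (G : SimpleGraph V) (c : V → ℕ) (w : ℕ → ℝ) (x y : V) : ℝ :=
  if Used l G c d x y then aw l G c w x y else 0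

private theorem ua_nonneg {w : ℕ → ℝ} (hw : ∀ i, 0 ≤ w i) (x y : V) : 0 ≤ ua l d G c w x y := by
  unfold ua
  split_ifs
  · exact aw_nonneg hw _ _
  · exact le_rfl

private theorem ua_symm (w : ℕ → ℝ) (x y : V) : ua l d G c w x y = ua l d G c w y x := by
  unfold ua
  by_cases h : Used l G c d x y
  · rw [if_pos h, if_pos (used_symm h), aw_symm]
  · rw [if_neg h, if_neg fun h' => h (used_symm h')]

private theorem prod_le_ua [NeZero d] {w : ℕ → ℝ} (h0 : w 0 = 0) (hw : ∀ i, 0 ≤ w i)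
    {F : ZMod d → V} (hF : F ∈ HC c d) :
    ∏ i, aw l G c w (F i) (F (i + 1)) ≤ ∏ i, ua l d G c w (F i) (F (i + 1)) := by
  have hn : 0 ≤ ∏ i, aw l G c w (F i) (F (i + 1)) :=
    Finset.prod_nonneg fun i _ => aw_nonneg hw _ _
  rcases hn.eq_or_lt with h | h
  · rw [← h]
    exact Finset.prod_nonneg fun i _ => ua_nonneg hw _ _
  · refine le_of_eq (Finset.prod_congr rfl fun i _ => ?_)
    have hc : Chn l G c F := pc_chn h0 hw ⟨hF, h⟩
    unfold ua
    rw [if_pos ⟨F, hc, i, rfl, rfl⟩]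

open Classical in
private theorem wz_le_ua [NeZero d] {w : ℕ → ℝ} (h0 : w 0 = 0) (hw : ∀ i, 0 ≤ w i) :
    wz l d G c w ≤ ∑ F : {F : ZMod d → V // Function.Injective F},
      ∏ i, ua l d G c w (F.1 i) (F.1 (i + 1)) := by
  have h1 : wz l d G c w ≤ ∑ F : {F : ZMod d → V // F ∈ HC c d},
      ∏ i, ua l d G c w (F.1 i) (F.1 (i + 1)) := by
    unfold wz
    exact Finset.sum_le_sum fun F _ => prod_le_ua h0 hw F.2
  refine h1.trans ?_
  let e : {F : ZMod d → V // F ∈ HC c d} ↪ {F : ZMod d → V // Function.Injective F} :=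
    ⟨fun F => ⟨F.1, F.2.1⟩, fun F F' h => Subtype.ext (congrArg (fun x => x.1) h)⟩
  have h2 : ∑ F : {F : ZMod d → V // F ∈ HC c d},
      ∏ i, ua l d G c w (F.1 i) (F.1 (i + 1)) = ∑ F ∈ (univ.map e),
        ∏ i, ua l d G c w (F.1 i) (F.1 (i + 1)) := by
    rw [Finset.sum_map]
    rfl
  rw [h2]
  exact Finset.sum_le_sum_of_subset_of_nonneg (Finset.subset_univ _) fun F _ _ =>
    Finset.prod_nonneg fun i _ => ua_nonneg hw _ _

theorem wval_le_neck (hV : Valid L G c) (hl : 2 ≤ l) (hd : 3 ≤ d)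
    (hev : ∀ x ∈ L, Even x → 2 * l ≤ x) (hN : UDsj l G c d) {w : ℕ → ℝ} (hw : Feas c w) :
    wval l d G c w ≤ 1 / ((d : ℝ) * ((l : ℝ) - 1)) ^ d := by
  classical
  have : NeZero d := ⟨by omega⟩
  have hl1 : (0 : ℝ) < (l : ℝ) - 1 := by
    have : (2 : ℝ) ≤ (l : ℝ) := by exact_mod_cast hl
    linarith
  have hd0 : (0 : ℝ) < (d : ℝ) := by
    have : 0 < d := by omega
    exact_mod_cast this
  have hS := used_sum_le hV hl (by omega) hev hN hw
  obtain ⟨w0, wn, ws⟩ := hw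
  have hm := meas_le hd (fun x y : V => ((l : ℝ) - 1) * ua l d G c w x y)
    (fun x y => mul_nonneg hl1.le (ua_nonneg wn x y)) (fun x y => by
      show ((l : ℝ) - 1) * _ = ((l : ℝ) - 1) * _
      rw [ua_symm]) (by
      refine le_trans ?_ hS
      rw [Finset.mul_sum]
      refine Finset.sum_le_sum fun x _ => ?_
      rw [Finset.mul_sum]
      refine Finset.sum_le_sum fun y _ => ?_
      split_ifs with h h' h'
      · exact mul_nonneg hl1.le (aw_nonneg wn _ _)
      · exact mul_nonneg hl1.le le_rfl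
      · unfold ua
        rw [if_pos h']
      · unfold ua
        rw [if_neg h'])
  have h1 := wz_le_ua (l := l) (d := d) (G := G) (c := c) w0 wn
  have h2 : ∑ F : {F : ZMod d → V // Function.Injective F},
      ∏ i, ((l : ℝ) - 1) * ua l d G c w (F.1 i) (F.1 (i + 1)) =
      ((l : ℝ) - 1) ^ d * ∑ F : {F : ZMod d → V // Function.Injective F},
        ∏ i, ua l d G c w (F.1 i) (F.1 (i + 1)) := by
    rw [Finset.mul_sum]
    refine Finset.sum_congr rfl fun F _ => ?_
    rw [Finset.prod_mul_distrib, Finset.prod_const, Finset.card_univ, ZMod.card]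
  rw [h2] at hm
  have h3 : ((l : ℝ) - 1) ^ d * wz l d G c w ≤ 2 * d / (d : ℝ) ^ d :=
    le_trans (mul_le_mul_of_nonneg_left h1 (pow_nonneg hl1.le d)) hm
  have hp : (0 : ℝ) < ((l : ℝ) - 1) ^ d := pow_pos hl1 d
  have hq : (0 : ℝ) < (d : ℝ) ^ d := pow_pos hd0 d
  rw [val_eq, mul_pow, div_le_div_iff₀ (by positivity) (by positivity), one_mul]
  rw [le_div_iff₀ hq] at h3
  calc wz l d G c w * ((d : ℝ) ^ d * ((l : ℝ) - 1) ^ d)
      = ((l : ℝ) - 1) ^ d * wz l d G c w * (d : ℝ) ^ d := by ring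
    _ ≤ 2 * d := h3

theorem wval_le_two (hV : Valid L G c) (hl : 2 ≤ l) (hev : ∀ x ∈ L, Even x → 2 * l ≤ x)
    (hN : UDsj l G c 2) {w : ℕ → ℝ} (hw : Feas c w) :
    wval l 2 G c w ≤ 1 / (2 * ((l : ℝ) - 1) ^ 2) := by
  classical
  have hl1 : (0 : ℝ) < (l : ℝ) - 1 := by
    have : (2 : ℝ) ≤ (l : ℝ) := by exact_mod_cast hl
    linarith
  have hS := used_sum_le hV hl le_rfl hev hN hw
  obtain ⟨w0, wn, ws⟩ := hw
  have hS' : ((l : ℝ) - 1) * ∑ x, ∑ y, ua l 2 G c w x y ≤ 2 := hS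
  set S : ℝ := ∑ x, ∑ y, ua l 2 G c w x y with hSdef
  have hS0 : 0 ≤ S := Finset.sum_nonneg fun x _ => Finset.sum_nonneg fun y _ => ua_nonneg wn _ _
  have hdiag : ∀ x, ua l 2 G c w x x = 0 := by
    intro x
    unfold ua
    exact if_neg fun h => (used_hub le_rfl h).2.2 rfl
  -- every value is at most half of the sum
  have hhalf : ∀ x y, ua l 2 G c w x y ≤ S / 2 := by
    intro x y
    rcases eq_or_ne x y with rfl | hxy
    · rw [hdiag]
      linarith
    · have h1 : ∑ y', ua l 2 G c w x y' + ∑ y', ua l 2 G c w y y' ≤ S := by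
        rw [hSdef, ← Finset.sum_pair hxy (f := fun x' => ∑ y', ua l 2 G c w x' y')]
        exact Finset.sum_le_sum_of_subset_of_nonneg (Finset.subset_univ _) fun x' _ _ =>
          Finset.sum_nonneg fun y' _ => ua_nonneg wn _ _
      have h2 : ua l 2 G c w x y ≤ ∑ y', ua l 2 G c w x y' :=
        Finset.single_le_sum (f := fun y' => ua l 2 G c w x y') (fun y' _ => ua_nonneg wn _ _)
          (Finset.mem_univ y)
      have h3 : ua l 2 G c w y x ≤ ∑ y', ua l 2 G c w y y' :=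
        Finset.single_le_sum (f := fun y' => ua l 2 G c w y y') (fun y' _ => ua_nonneg wn _ _)
          (Finset.mem_univ x)
      rw [ua_symm] at h3
      linarith
  have hsq : ∑ x, ∑ y, ua l 2 G c w x y ^ 2 ≤ S / 2 * S := by
    calc ∑ x, ∑ y, ua l 2 G c w x y ^ 2 ≤ ∑ x, ∑ y, S / 2 * ua l 2 G c w x y :=
          Finset.sum_le_sum fun x _ => Finset.sum_le_sum fun y _ => by
            rw [sq]
            exact mul_le_mul_of_nonneg_right (hhalf x y) (ua_nonneg wn _ _)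
      _ = S / 2 * S := by
          rw [hSdef, Finset.mul_sum]
          exact Finset.sum_congr rfl fun x _ => (Finset.mul_sum _ _ _).symm
  have hwz : wz l 2 G c w ≤ ∑ x, ∑ y, ua l 2 G c w x y ^ 2 := by
    refine (wz_le_ua w0 wn).trans ?_
    have hterm : ∀ F : {F : ZMod 2 → V // Function.Injective F},
        ∏ i, ua l 2 G c w (F.1 i) (F.1 (i + 1)) = ua l 2 G c w (F.1 0) (F.1 1) ^ 2 := by
      intro F
      have h1 : ∏ i : ZMod 2, ua l 2 G c w (F.1 i) (F.1 (i + 1)) =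
          ua l 2 G c w (F.1 0) (F.1 (0 + 1)) * ua l 2 G c w (F.1 1) (F.1 (1 + 1)) :=
        Fin.prod_univ_two fun i : Fin 2 =>
          ua l 2 G c w (F.1 (show ZMod 2 from i)) (F.1 ((show ZMod 2 from i) + 1))
      have e1 : (0 : ZMod 2) + 1 = 1 := by decide
      have e2 : (1 : ZMod 2) + 1 = 0 := by decide
      rw [h1, e1, e2, ua_symm w (F.1 1) (F.1 0), sq]
    rw [Finset.sum_congr rfl fun F _ => hterm F]
    let e : {F : ZMod 2 → V // Function.Injective F} ↪ V × V :=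
      ⟨fun F => (F.1 0, F.1 1), fun F F' h => by
        refine Subtype.ext (funext fun i => ?_)
        have h' := Prod.mk.inj h
        fin_cases i
        · exact h'.1
        · exact h'.2⟩
    have h2 : ∑ F : {F : ZMod 2 → V // Function.Injective F}, ua l 2 G c w (F.1 0) (F.1 1) ^ 2 =
        ∑ p ∈ (univ.map e), ua l 2 G c w p.1 p.2 ^ 2 := by
      rw [Finset.sum_map]
      rfl
    rw [h2, ← Fintype.sum_prod_type' (f := fun x y => ua l 2 G c w x y ^ 2)]
    exact Finset.sum_le_sum_of_subset_of_nonneg (Finset.subset_univ _) fun p _ _ => sq_nonneg _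
  have hfin : wz l 2 G c w ≤ S ^ 2 / 2 := by
    calc wz l 2 G c w ≤ S / 2 * S := hwz.trans hsq
      _ = S ^ 2 / 2 := by ring
  have hS2 : S ≤ 2 / ((l : ℝ) - 1) := by
    rw [le_div_iff₀ hl1]
    linarith
  have hS3 : S ^ 2 ≤ (2 / ((l : ℝ) - 1)) ^ 2 := pow_le_pow_left₀ hS0 hS2 2
  rw [val_eq]
  have hp : (0 : ℝ) < ((l : ℝ) - 1) ^ 2 := pow_pos hl1 2
  calc wz l 2 G c w / (2 * ((2 : ℕ) : ℝ)) ≤ (S ^ 2 / 2) / (2 * ((2 : ℕ) : ℝ)) :=
        div_le_div_of_nonneg_right hfin (by norm_num)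
    _ ≤ ((2 / ((l : ℝ) - 1)) ^ 2 / 2) / (2 * ((2 : ℕ) : ℝ)) :=
        div_le_div_of_nonneg_right (div_le_div_of_nonneg_right hS3 (by norm_num)) (by norm_num)
    _ = 1 / (2 * ((l : ℝ) - 1) ^ 2) := by
        rw [div_pow]
        push_cast
        field_simp

end H46.SP
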