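import Pool.Agent.H46.SP.Sy2
import Pool.Agent.H46.SP.Spw
import Pool.Agent.H46.SP.Upd
import Pool.Agent.H46.CZ.Cls

/-!
# SP.Clf : closed forms
-/

namespace H46.SP

open Pool.Agent.H3.LC H46.CY H46.CZ

variable {L : Finset ℕ} {l d q : ℕ}

theorem Gam_spider (hq : 1 ≤ q) (hd : 2 ≤ d) (hev : ∀ x ∈ L, Even x → 2 * (2 * q) ≤ x)
    (hmax : ∀ x ∈ L, x ≤ d * (2 * q)) (hL : ∀ r, 2 ≤ r → r ≤ d → r * (2 * q) ∈ L) :
    Gam L d = ((d - 1).factorial : ℝ) / 2 / ((d : ℝ) * ((q : ℝ) - 1) + 1) ^ d := by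
  apply le_antisymm
  · refine Gam_le (l := 2 * q) (by omega) hd hev hmax fun N G c w hV hw => ?_
    obtain ⟨c', w', h4, h5, h6, h7⟩ := comp_col (l := 2 * q) (by omega) hV hw
    rw [← h7]
    exact wval_le_spider h4 hq hd hev hmax h5 h6
  · obtain ⟨w, hw, hv⟩ := spd_val (d := d) (h := q) hd hq
    exact hv.trans (wval_le_Gam (spd_valid hd hq hL) (by omega) hd hev hmax hw)

theorem Gam_cross (hl : 2 ≤ l) (hd : 3 ≤ d) (h2 : 2 * l ∈ L) (hdl : d * l ∈ L)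
    (hev : ∀ x ∈ L, Even x → 2 * l ≤ x) (hmax : ∀ x ∈ L, x ≤ d * l) (hN : NoCross L l d) :
    Gam L d = 1 / ((d : ℝ) * ((l : ℝ) - 1)) ^ d := by
  apply le_antisymm
  · refine Gam_le hl (by omega) hev hmax fun N G c w hV hw => ?_
    exact wval_le_neck hV hl hd hev (cross hV hl (by omega) hev hmax hN) hw
  · exact Gam_pos hl (by omega) h2 hdl le_rfl hev fun x hx => by
      have := hmax x hx
      have h3 : (d + 1) * l = d * l + l := by ring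
      omega

/-- for `d = 3` and odd `l` two paths cannot cross -/
theorem noCross_three (hl : 2 ≤ l) (hodd : Odd l) (hev : ∀ x ∈ L, Even x → 2 * l ≤ x)
    (hmax : ∀ x ∈ L, x ≤ 3 * l) : NoCross L l 3 := by
  rintro e a b he1 hel ha hb hab ⟨h1, h2, -, -, -, -⟩
  have g1 := hmax _ h1
  have g2 := hev _ h2 ⟨2 * e, by ring⟩
  obtain ⟨k, hk⟩ := hodd
  omega

/-- for `l = 2` and `d ≤ 5` either all even numbers up to `2 d` are in `L` or two paths cannot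
cross -/
theorem full_or_noCross (hd : 2 ≤ d) (hd5 : d ≤ 5) (h4 : 4 ∈ L) (hdl : 2 * d ∈ L) :
    (∀ r, 2 ≤ r → r ≤ d → r * 2 ∈ L) ∨ NoCross L 2 d := by
  by_cases h : ∀ r, 2 ≤ r → r ≤ d → r * 2 ∈ L
  · exact Or.inl h
  right
  rintro e a b he1 hel ha hb hab ⟨h1, -, h3, h4', h5, h6⟩
  have he : e = 1 := by omega
  subst he
  apply h
  intro r hr hrd
  have hc : (a = 1 ∧ b = 1 ∧ d = 3) ∨ (a = 1 ∧ b = 2 ∧ d = 4) ∨ (a = 2 ∧ b = 1 ∧ d = 4) ∨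
      (a = 1 ∧ b = 3 ∧ d = 5) ∨ (a = 2 ∧ b = 2 ∧ d = 5) ∨ (a = 3 ∧ b = 1 ∧ d = 5) := by omega
  rcases hc with ⟨rfl, rfl, rfl⟩ | ⟨rfl, rfl, rfl⟩ | ⟨rfl, rfl, rfl⟩ | ⟨rfl, rfl, rfl⟩ |
    ⟨rfl, rfl, rfl⟩ | ⟨rfl, rfl, rfl⟩ <;> norm_num at h1 h3 h4' h5 h6 <;>
    interval_cases r <;> norm_num <;> assumption

end H46.SP
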