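import Pool.Agent.H46.CZ.Thd
import Pool.Agent.H46.CZ.Unq
import Pool.Agent.H46.CZ.Sym

/-!
# SP.Crs : crossing paths (about 220 lines)

`seven` is `third` of CZ.Thd for a given branch: same proof after the branch (`hub_mem` for `z`: the last member of `R` (or `v` itself if `R = []`, so `R.length + 1 = ρ`) is joined to `v` outside the hubs and adjacent to `z`); `e = s₁.length + 1`, `ρ = R.length + 1`, the paths `s₁ ++ v :: R` from `F i` to `z` and `R.reverse ++ v :: s₂` from `z` to `F (i + 1)` (`pi_app`, `pi_rev`, `pi_split`).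
`cross`: let `v ∈ s`, `v ∈ s'`. If `x', y' ∈ {x, y}`: `two_eq` as in `used_eq` of CZ.Dsj. Otherwise one of `x', y'`, say `z = x'` (else reverse `s'`), is not in `{x, y}`. `s' = t₁ ++ p :: t₂` with `p ∈ s` and no member of `t₁` in `s` (the first member of `s'` which is in `s`), `s = s₁ ++ p :: s₂`, `e = s₁.length + 1`, `ρ = t₁.length + 1`, `R = t₁.reverse`. `seven` with the closed chain of `Used x y`.
`2 (e + ρ) ∈ L` and `2 (l - e + ρ) ∈ L` are `≥ 2 l`. If `y' ≠ x`: `x, s₁, p, t₂, y'` is a chain through non-hubs: `twin_walk`: `e + (l - ρ) ≥ l`, so `ρ ≤ e`, with `l - e + ρ ≥ l` we get `ρ = e`. If `y' = x` then `y' ≠ y`: `y', t₂.reverse, p, s₂, y`: `(l - ρ) + (l - e) ≥ l`, so `ρ = l - e`. In the first case `NoCross` for `e, a, b`; in the second case for `l - e, b, a`: contradiction.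
-/

namespace H46.SP

open Pool.Agent.H3.LC H46.CY H46.CZ

variable {V : Type} {L : Finset ℕ} {G : SimpleGraph V} {c : V → ℕ} {l d : ℕ}

/-- There are no `1 ≤ e < l`, `a, b ≥ 1` with `a + b + 1 = d` such that the six cycle lengths made
by two paths of length `l` which cross are all in `L`. -/
def NoCross (L : Finset ℕ) (l d : ℕ) : Prop :=
  ∀ e a b : ℕ, 1 ≤ e → e < l → 1 ≤ a → 1 ≤ b → a + b + 1 = d →
    ¬ (2 * (l + e) ∈ L ∧ 4 * e ∈ L ∧ (a + 1) * l ∈ L ∧ (b + 2) * l ∈ L ∧ b * l + 2 * e ∈ L ∧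
      (a + 1) * l + 2 * e ∈ L)

/-- used paths of length `l` with a common vertex are equal up to the direction -/
def UDsj {V : Type} (l : ℕ) (G : SimpleGraph V) (c : V → ℕ) (d : ℕ) : Prop :=
  ∀ (j : ℕ) (x y x' y' v : V) (s s' : List V), j ≠ 0 → Used l G c d x y → Used l G c d x' y' →
    s ∈ LP l G c x y j → s' ∈ LP l G c x' y' j → v ∈ s → v ∈ s' →
    (x' = x ∧ y' = y ∧ s' = s) ∨ (x' = y ∧ y' = x ∧ s' = s.reverse)

private theorem tail_con {z : V} : ∀ (R : List V) (a : V), (a :: (R ++ [z])).IsChain G.Adj →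
    c a ≠ 0 → (∀ w ∈ R, c w ≠ 0) → ∃ u, Con G c a u ∧ G.Adj u z := by
  intro R
  induction R with
  | nil =>
    intro a h _ _
    rw [List.nil_append, List.isChain_cons_cons] at h
    exact ⟨a, Relation.ReflTransGen.refl, h.1⟩
  | cons w R ih =>
    intro a h ha hR
    rw [List.cons_append, List.isChain_cons_cons] at h
    have hw : c w ≠ 0 := hR w (by simp)
    obtain ⟨u, h1, h2⟩ := ih w h.2 hw (fun t ht => hR t (by simp [ht]))
    exact ⟨u, Relation.ReflTransGen.head ⟨h.1, ha, hw⟩ h1, h2⟩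

private theorem first_split (s : List V) : ∀ s' : List V, (∃ v ∈ s', v ∈ s) →
    ∃ (t₁ : List V) (p : V) (t₂ : List V), s' = t₁ ++ p :: t₂ ∧ p ∈ s ∧ ∀ w ∈ t₁, w ∉ s := by
  intro s'
  induction s' with
  | nil =>
    rintro ⟨v, hv, _⟩
    exact absurd hv List.not_mem_nil
  | cons a t ih =>
    rintro ⟨v, hv, hvs⟩
    by_cases ha : a ∈ s
    · exact ⟨[], a, t, rfl, ha, fun w hw => absurd hw List.not_mem_nil⟩
    · have hvt : v ∈ t := by
        rcases List.mem_cons.1 hv with rfl | h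
        · exact absurd hvs ha
        · exact h
      obtain ⟨t₁, p, t₂, rfl, h1, h2⟩ := ih ⟨v, hvt, hvs⟩
      refine ⟨a :: t₁, p, t₂, rfl, h1, fun w hw => ?_⟩
      rcases List.mem_cons.1 hw with rfl | hw
      · exact ha
      · exact h2 w hw

theorem seven (hV : Valid L G c) (hl : 2 ≤ l) (hd : 2 ≤ d) (hev : ∀ x ∈ L, Even x → 2 * l ≤ x)
    (hmax : ∀ x ∈ L, x ≤ d * l) {F : ZMod d → V} (hF : Chn l G c F) {i : ZMod d} {j : ℕ}
    (hj : j ≠ 0) {v z : V} {s₁ s₂ R : List V} (hs : s₁ ++ v :: s₂ ∈ LP l G c (F i) (F (i + 1)) j)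
    (hR : PI G v z R) (hRc : ∀ w ∈ R, c w ≠ 0 ∧ w ∉ s₁ ++ v :: s₂) (hz : c z = 0) (hzx : z ≠ F i)
    (hzy : z ≠ F (i + 1)) {e ρ : ℕ} (he : e = s₁.length + 1) (hρ : ρ = R.length + 1) :
    ∃ a b : ℕ, 1 ≤ a ∧ 1 ≤ b ∧ a + b + 1 = d ∧ 2 * (l + ρ) ∈ L ∧ 2 * (e + ρ) ∈ L ∧
      2 * (l - e + ρ) ∈ L ∧ a * l + (l - e + ρ) ∈ L ∧ b * l + (e + ρ) ∈ L ∧
      (a + 1) * l + (e + ρ) ∈ L ∧ (b + 1) * l + (l - e + ρ) ∈ L := by
  subst he hρ
  have hd0 : NeZero d := ⟨by omega⟩
  have hv₀ : v ∈ s₁ ++ v :: s₂ := by simp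
  have hs' := hs
  obtain ⟨hs1, hs2, hs3⟩ := hs
  have hc : ∀ w ∈ s₁ ++ v :: s₂, c w ≠ 0 := fun w hw => by
    rw [hs3 w hw]
    exact hj
  have hcv : c v ≠ 0 := hc v hv₀
  obtain ⟨u, hu, huz⟩ := tail_con R v hR.1 hcv (fun w hw => (hRc w hw).1)
  obtain ⟨k, hk⟩ := hub_mem hV hl hd hmax hF hj hs' hv₀ hu huz hz
  have hx := hF.1.2 i
  have hy := hF.1.2 (i + 1)
  have hne : s₁ ++ v :: s₂ ≠ [] := by simp
  obtain ⟨a, ha⟩ : ∃ a : ℕ, a = (k - i - 1).val := ⟨_, rfl⟩
  have had : a < d := by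
    rw [ha]
    exact ZMod.val_lt _
  have hka : k = i + 1 + (a : ℕ) := by
    rw [ha, ZMod.natCast_zmod_val]
    ring
  have ha0 : a ≠ 0 := by
    intro h
    apply hzy
    rw [← hk, hka, h]
    simp
  have had1 : a ≠ d - 1 := by
    intro h
    apply hzx
    rw [← hk, hka, h, Nat.cast_sub (by omega), ZMod.natCast_self]
    simp
  have hxy : F i ≠ F (i + 1) := by
    intro h
    have h1 := hF.1.1 h
    have h2 : (1 : ZMod d) = 0 := by
      have h3 : i + 1 = i + 0 := by rw [← h1, add_zero]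
      exact add_left_cancel h3
    have h4 : ((1 : ℕ) : ZMod d) = 0 := by simpa using h2
    rw [ZMod.natCast_eq_zero_iff] at h4
    have := Nat.le_of_dvd one_pos h4
    omega
  obtain ⟨h1, h2⟩ := pi_split hs1
  have hxv : F i ≠ v := fun h => hcv (h ▸ hx)
  have hyv : v ≠ F (i + 1) := fun h => hcv (h ▸ hy)
  have hzv : v ≠ z := fun h => hcv (h ▸ hz)
  have p1 : PI G (F i) z (s₁ ++ v :: R) := by
    refine pi_app h1 hR hxv hzv ?_ ?_ ?_
    · intro w hw hw'
      exact (hRc w hw').2 (by simp [hw])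
    · intro h
      exact (hRc _ h).1 hx
    · intro h
      exact hc z (by simp [h]) hz
  have p2 : PI G z (F (i + 1)) (R.reverse ++ v :: s₂) := by
    refine pi_app (pi_rev hR) h2 hzv.symm hyv ?_ ?_ ?_
    · intro w hw hw'
      rw [List.mem_reverse] at hw
      exact (hRc w hw).2 (by simp [hw'])
    · intro h
      exact hc z (by simp [h]) hz
    · intro h
      rw [List.mem_reverse] at h
      exact (hRc _ h).1 hy
  have l1 : (s₁ ++ v :: R).length + 1 = s₁.length + 1 + (R.length + 1) := by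
    simp
    omega
  have l2 : (R.reverse ++ v :: s₂).length + 1 = l - (s₁.length + 1) + (R.length + 1) := by
    rw [← hs2]
    simp
    omega
  have n1 : s₁ ++ v :: R ≠ [] := by simp
  have n2 : R.reverse ++ v :: s₂ ≠ [] := by simp
  have c1 : ∀ w ∈ s₁ ++ v :: R, c w ≠ 0 := by
    intro w hw
    rw [List.mem_append, List.mem_cons] at hw
    rcases hw with hw | rfl | hw
    · exact hc w (by simp [hw])
    · exact hcv
    · exact (hRc w hw).1
  have c2 : ∀ w ∈ R.reverse ++ v :: s₂, c w ≠ 0 := by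
    intro w hw
    rw [List.mem_append, List.mem_cons, List.mem_reverse] at hw
    rcases hw with hw | rfl | hw
    · exact (hRc w hw).1
    · exact hcv
    · exact hc w (by simp [hw])
  have hel : s₁.length + 1 < l := by
    rw [← hs2]
    simp
  generalize s₁.length + 1 = e at *
  generalize R.length + 1 = ρ at *
  generalize s₁ ++ v :: R = s' at *
  generalize R.reverse ++ v :: s₂ = s'' at *
  generalize s₁ ++ v :: s₂ = s at *
  have c2' : ∀ v ∈ s''.reverse, c v ≠ 0 := fun v hv => c2 v (List.mem_reverse.1 hv)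
  have c1' : ∀ v ∈ s'.reverse, c v ≠ 0 := fun v hv => c1 v (List.mem_reverse.1 hv)
  have n2' : s''.reverse ≠ [] := fun h => n2 (List.reverse_eq_nil_iff.1 h)
  have n1' : s'.reverse ≠ [] := fun h => n1 (List.reverse_eq_nil_iff.1 h)
  have t1 := twin_mem hV (Ne.symm hzx) hx hz p1 n1 c1
  have t2 := twin_mem hV hzy hz hy p2 n2 c2
  rw [l1] at t1
  rw [l2] at t2
  have t3 := tri_mem hV hxy (Ne.symm hzy) hzx hx hy hz hs1 (pi_rev p2)
    (pi_rev p1) hne n2' n1' hc c2' c1'
  rw [List.length_reverse, List.length_reverse, l1, l2, hs2] at t3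
  have t4 := chord hV hl hF (i + 1) (t := a) (by omega) had (s := s''.reverse)
    (by rw [← hka, hk]; exact pi_rev p2) n2' c2'
  rw [List.length_reverse, l2] at t4
  have hka' : i + ((a + 1 : ℕ) : ZMod d) = k := by
    rw [hka, Nat.cast_add, Nat.cast_one]
    ring
  have t5 := chord hV hl hF i (t := a + 1) (by omega) (by omega) (s := s')
    (by rw [hka', hk]; exact p1) n1 c1
  rw [l1] at t5
  have e3 : d - (a + 1) = d - 1 - a := by omega
  rw [e3] at t5
  have e5 : d - a = d - 1 - a + 1 := by omega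
  rw [e5] at t4
  have e4 : l + (l - e + ρ) + (e + ρ) = 2 * (l + ρ) := by omega
  rw [e4] at t3
  exact ⟨a, d - 1 - a, by omega, by omega, by omega, t3, t1, t2, t4.1, t5.2, t5.1, t4.2⟩

private theorem cross_aux (hV : Valid L G c) (hl : 2 ≤ l) (hd : 2 ≤ d)
    (hev : ∀ x ∈ L, Even x → 2 * l ≤ x) (hmax : ∀ x ∈ L, x ≤ d * l) (h : NoCross L l d)
    {j : ℕ} {x y x' y' v : V} {s s' : List V} (hj : j ≠ 0) (hU : Used l G c d x y)
    (hU' : Used l G c d x' y') (hs : s ∈ LP l G c x y j) (hs' : s' ∈ LP l G c x' y' j)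
    (hv : v ∈ s) (hv' : v ∈ s') (h1 : x' ≠ x) (h2 : x' ≠ y) : False := by
  obtain ⟨hx, hy, hxy⟩ := used_hub hd hU
  obtain ⟨hx', hy', hxy'⟩ := used_hub hd hU'
  obtain ⟨F, hF, i, rfl, rfl⟩ := hU
  obtain ⟨t₁, p, t₂, rfl, hp, ht⟩ := first_split s s' ⟨v, hv', hv⟩
  obtain ⟨s₁, s₂, rfl⟩ := List.append_of_mem hp
  have hsc : ∀ w ∈ s₁ ++ p :: s₂, c w ≠ 0 := fun w hw => by
    rw [hs.2.2 w hw]
    exact hj
  have hsc' : ∀ w ∈ t₁ ++ p :: t₂, c w ≠ 0 := fun w hw => by
    rw [hs'.2.2 w hw]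
    exact hj
  obtain ⟨q1, q2⟩ := pi_split hs'.1
  obtain ⟨r1, r2⟩ := pi_split hs.1
  have hRc : ∀ w ∈ t₁.reverse, c w ≠ 0 ∧ w ∉ s₁ ++ p :: s₂ := by
    intro w hw
    rw [List.mem_reverse] at hw
    exact ⟨hsc' w (by simp [hw]), ht w hw⟩
  obtain ⟨a, b, ha, hb, hab, m1, m2, m3, m4, m5, m6, m7⟩ :=
    seven (e := s₁.length + 1) (ρ := t₁.length + 1) hV hl hd hev hmax hF hj hs (pi_rev q1) hRc
      hx' h1 h2 rfl (by rw [List.length_reverse])
  have e1 := hev _ m2 (even_two_mul _)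
  have e2 := hev _ m3 (even_two_mul _)
  have len1 := hs.2.1
  have len2 := hs'.2.1
  simp only [List.length_append, List.length_cons] at len1 len2
  by_cases hyx : y' = F i
  · have w1 : (F i :: ((t₂.reverse ++ p :: s₂) ++ [F (i + 1)])).IsChain G.Adj := by
      have e : F i :: ((t₂.reverse ++ p :: s₂) ++ [F (i + 1)]) =
          (F i :: t₂.reverse) ++ p :: (s₂ ++ [F (i + 1)]) := by simp
      rw [e, List.isChain_split]
      have q3 := (pi_rev q2).1
      rw [hyx] at q3
      exact ⟨q3, r2.1⟩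
    have w2 := twin_walk hV hev hxy hx hy w1 (by simp) (by
      intro w hw
      simp only [List.mem_append, List.mem_reverse, List.mem_cons] at hw
      rcases hw with hw | rfl | hw
      · exact hsc' w (by simp [hw])
      · exact hsc w (by simp)
      · exact hsc w (by simp [hw]))
    simp only [List.length_append, List.length_reverse, List.length_cons] at w2
    refine h (l - (s₁.length + 1)) b a (by omega) (by omega) hb ha (by omega)
      ⟨?_, ?_, ?_, ?_, ?_, ?_⟩
    · have e : 2 * (l + (l - (s₁.length + 1))) = 2 * (l + (t₁.length + 1)) := by omega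
      rw [e]
      exact m1
    · have e : 4 * (l - (s₁.length + 1)) = 2 * (l - (s₁.length + 1) + (t₁.length + 1)) := by
        omega
      rw [e]
      exact m3
    · have e : (b + 1) * l = b * l + (s₁.length + 1 + (t₁.length + 1)) := by
        rw [Nat.add_mul, Nat.one_mul]
        omega
      rw [e]
      exact m5
    · have e : (a + 2) * l = (a + 1) * l + (s₁.length + 1 + (t₁.length + 1)) := by
        rw [Nat.add_mul, Nat.add_mul, Nat.one_mul]
        omega
      rw [e]
      exact m6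
    · have e : a * l + 2 * (l - (s₁.length + 1)) =
          a * l + (l - (s₁.length + 1) + (t₁.length + 1)) := by
        omega
      rw [e]
      exact m4
    · have e : (b + 1) * l + 2 * (l - (s₁.length + 1)) =
          (b + 1) * l + (l - (s₁.length + 1) + (t₁.length + 1)) := by
        omega
      rw [e]
      exact m7
  · have w1 : (F i :: ((s₁ ++ p :: t₂) ++ [y'])).IsChain G.Adj := by
      have e : F i :: ((s₁ ++ p :: t₂) ++ [y']) = (F i :: s₁) ++ p :: (t₂ ++ [y']) := by simp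
      rw [e, List.isChain_split]
      exact ⟨r1.1, q2.1⟩
    have w2 := twin_walk hV hev (Ne.symm hyx) hx hy' w1 (by simp) (by
      intro w hw
      simp only [List.mem_append, List.mem_cons] at hw
      rcases hw with hw | rfl | hw
      · exact hsc w (by simp [hw])
      · exact hsc w (by simp)
      · exact hsc' w (by simp [hw]))
    simp only [List.length_append, List.length_cons] at w2
    have e0 : t₁.length + 1 = s₁.length + 1 := by omega
    rw [e0] at m1 m2 m3 m4 m5 m6 m7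
    have e3 : l - (s₁.length + 1) + (s₁.length + 1) = l := by omega
    rw [e3] at m4 m7
    refine h (s₁.length + 1) a b (by omega) (by omega) ha hb hab ⟨m1, ?_, ?_, ?_, ?_, ?_⟩
    · have e : 4 * (s₁.length + 1) = 2 * (s₁.length + 1 + (s₁.length + 1)) := by omega
      rw [e]
      exact m2
    · rw [Nat.add_mul, Nat.one_mul]
      exact m4
    · have e : (b + 2) * l = (b + 1) * l + l := by
        rw [Nat.add_mul, Nat.add_mul, Nat.one_mul]
        omega
      rw [e]
      exact m7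
    · rw [Nat.two_mul]
      exact m5
    · rw [Nat.two_mul]
      exact m6

theorem cross (hV : Valid L G c) (hl : 2 ≤ l) (hd : 2 ≤ d) (hev : ∀ x ∈ L, Even x → 2 * l ≤ x)
    (hmax : ∀ x ∈ L, x ≤ d * l) (h : NoCross L l d) : UDsj l G c d := by
  intro j x y x' y' v s s' hj hU hU' hs hs' hv hv'
  obtain ⟨hx, hy, hxy⟩ := used_hub hd hU
  obtain ⟨hx', hy', hxy'⟩ := used_hub hd hU'
  have k1 : x' = x ∨ x' = y := by
    by_contra hn
    rw [not_or] at hn
    exact cross_aux hV hl hd hev hmax h hj hU hU' hs hs' hv hv' hn.1 hn.2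
  have k2 : y' = x ∨ y' = y := by
    by_contra hn
    rw [not_or] at hn
    exact cross_aux hV hl hd hev hmax h hj hU (used_symm hU') hs (lp_rev hs') hv
      (List.mem_reverse.2 hv') hn.1 hn.2
  rcases k1 with e | e <;> rcases k2 with e' | e'
  · exact absurd (e.trans e'.symm) hxy'
  · left
    subst e e'
    exact ⟨rfl, rfl, two_eq hV hl hev hxy hx hy hj hj hs' hs hv' hv⟩
  · right
    subst e e'
    refine ⟨rfl, rfl, ?_⟩
    have h := two_eq hV hl hev hxy hx hy hj hj (lp_rev hs') hs (by simpa using hv') hv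
    rw [← h, List.reverse_reverse]
  · exact absurd (e.trans e'.symm) hxy'

end H46.SP
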