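import Pool.Agent.H46.SP.Crs
import Pool.Agent.H46.CZ.Sym

/-!
# SP.Dsj : counting disjoint used paths (as CZ.Dsj, with UDsj)
-/

namespace H46.SP

open Pool.Agent.H3.LC H46.CY H46.CZ Finset

variable {V : Type} [Fintype V] {L : Finset ℕ} {G : SimpleGraph V} {c : V → ℕ} {l d : ℕ}

open Classical in
theorem dsj_count (hV : Valid L G c) (hl : 2 ≤ l) (hd : 2 ≤ d)
    (hev : ∀ x ∈ L, Even x → 2 * l ≤ x) (hN : UDsj l G c d) {j : ℕ} (hj : j ≠ 0) :
    (l - 1) * ∑ x, ∑ y, (if Used l G c d x y then (LP l G c x y j).ncard else 0) ≤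
      2 * {v | c v = j}.ncard := by
  set P : V × V → Finset (List V) := fun p =>
    if Used l G c d p.1 p.2 then (lp_finite l G c p.1 p.2 j).toFinset else ∅ with hP
  have hmem : ∀ (p : V × V) (s : List V), s ∈ P p ↔ Used l G c d p.1 p.2 ∧
      s ∈ LP l G c p.1 p.2 j := by
    intro p s
    simp only [hP]
    split_ifs with h
    · simp [h]
    · simp [h]
  set T : Finset (Σ _ : V × V, List V) := (univ : Finset (V × V)).sigma P with hT
  have hTcard : ∑ x, ∑ y, (if Used l G c d x y then (LP l G c x y j).ncard else 0) = T.card := by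
    rw [hT, card_sigma, Fintype.sum_prod_type]
    refine Finset.sum_congr rfl fun x _ => Finset.sum_congr rfl fun y _ => ?_
    simp only [hP]
    split_ifs with h
    · rw [Set.ncard_eq_toFinset_card _ (lp_finite l G c x y j)]
    · simp
  have hcol : {v | c v = j}.ncard = (univ.filter (fun v => c v = j)).card := by
    rw [Set.ncard_eq_toFinset_card']
    congr 1
    ext v
    simp
  rw [hTcard, hcol, mul_comm, mul_comm 2]
  refine Finset.card_mul_le_card_mul (fun (t : Σ _ : V × V, List V) (v : V) => v ∈ t.2) ?_ ?_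
  · rintro ⟨p, s⟩ ht
    rw [hT, mem_sigma, hmem] at ht
    obtain ⟨-, -, h1, h2, h3⟩ := ht
    have e : (univ.filter (fun v => c v = j)).bipartiteAbove
        (fun (t : Σ _ : V × V, List V) (v : V) => v ∈ t.2) ⟨p, s⟩ = s.toFinset := by
      ext v
      simp only [Finset.mem_bipartiteAbove, mem_filter, mem_univ, true_and, List.mem_toFinset]
      exact ⟨fun h => h.2, fun h => ⟨h3 v h, h⟩⟩
    rw [e, List.toFinset_card_of_nodup h1.2.1]
    omega
  · intro v _
    rcases (T.bipartiteBelow (fun (t : Σ _ : V × V, List V) (v : V) => v ∈ t.2) v).eq_empty_or_nonempty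
      with h0 | ⟨⟨p, s⟩, h0⟩
    · rw [h0]
      simp
    · rw [Finset.mem_bipartiteBelow, hT, mem_sigma, hmem] at h0
      obtain ⟨⟨-, hU, hs⟩, hvs⟩ := h0
      refine (Finset.card_le_card (t := {⟨p, s⟩, ⟨(p.2, p.1), s.reverse⟩}) ?_).trans
        Finset.card_le_two
      rintro ⟨p', s'⟩ h0'
      rw [Finset.mem_bipartiteBelow, hT, mem_sigma, hmem] at h0'
      obtain ⟨⟨-, hU', hs'⟩, hvs'⟩ := h0'
      rcases hN j _ _ _ _ _ _ _ hj hU hU' hs hs' hvs hvs' with ⟨h1, h2, h3⟩ | ⟨h1, h2, h3⟩
      · rw [mem_insert]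
        left
        simp only [Sigma.mk.injEq, heq_eq_eq]
        exact ⟨Prod.ext h1 h2, h3⟩
      · rw [mem_insert]
        right
        rw [mem_singleton]
        simp only [Sigma.mk.injEq, heq_eq_eq]
        exact ⟨Prod.ext h1 h2, h3⟩

open Classical in
theorem used_sum_le (hV : Valid L G c) (hl : 2 ≤ l) (hd : 2 ≤ d)
    (hev : ∀ x ∈ L, Even x → 2 * l ≤ x) (hN : UDsj l G c d) {w : ℕ → ℝ} (hw : Feas c w) :
    ((l : ℝ) - 1) * ∑ x, ∑ y, (if Used l G c d x y then aw l G c w x y else 0) ≤ 2 := by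
  obtain ⟨w0, wn, ws⟩ := hw
  have e1 : ∑ x, ∑ y, (if Used l G c d x y then aw l G c w x y else 0) =
      ∑ i ∈ univ.image c, w i *
        ((∑ x, ∑ y, (if Used l G c d x y then (LP l G c x y i).ncard else 0) : ℕ) : ℝ) := by
    have : ∀ x y : V, (if Used l G c d x y then aw l G c w x y else 0) =
        ∑ i ∈ univ.image c, w i *
          (((if Used l G c d x y then (LP l G c x y i).ncard else 0 : ℕ)) : ℝ) := by
      intro x y
      split_ifs with h
      · rfl
      · simp
    simp only [this]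
    push_cast
    simp only [Finset.mul_sum]
    rw [Finset.sum_congr rfl (fun x _ => Finset.sum_comm), Finset.sum_comm]
  have e2 : ∑ v, w (c v) = ∑ i ∈ univ.image c, ({v | c v = i}.ncard : ℝ) * w i := by
    rw [Finset.sum_comp]
    refine Finset.sum_congr rfl fun i _ => ?_
    rw [nsmul_eq_mul, Set.ncard_eq_toFinset_card']
    congr 3
    ext v
    simp
  rw [e1, Finset.mul_sum]
  calc ∑ i ∈ univ.image c, ((l : ℝ) - 1) * (w i *
        ((∑ x, ∑ y, (if Used l G c d x y then (LP l G c x y i).ncard else 0) : ℕ) : ℝ))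
      ≤ ∑ i ∈ univ.image c, 2 * (({v | c v = i}.ncard : ℝ) * w i) := by
        refine Finset.sum_le_sum fun i _ => ?_
        rcases eq_or_ne i 0 with rfl | hi
        · rw [w0]
          simp
        · have h := dsj_count hV hl hd hev hN hi
          have h' : ((l : ℝ) - 1) *
              ((∑ x, ∑ y, (if Used l G c d x y then (LP l G c x y i).ncard else 0) : ℕ) : ℝ) ≤
              2 * ({v | c v = i}.ncard : ℝ) := by
            have hc : ((l - 1 : ℕ) : ℝ) = (l : ℝ) - 1 := by
              rw [Nat.cast_sub (by omega), Nat.cast_one]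
            rw [← hc]
            exact_mod_cast h
          have := mul_le_mul_of_nonneg_left h' (wn i)
          nlinarith [this]
    _ = 2 * ∑ v, w (c v) := by rw [e2, Finset.mul_sum]
    _ ≤ 2 := by linarith

end H46.SP
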