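import Pool.Agent.H46.SP.Phi

/-!
# SP.Nms : numerical inequalities for d ≤ 7 (about 100 lines)

`small`: `interval_cases`; raise `phi (r - 1) * d ≤ phi d * r` to the power `(r - 1) d` (`phi_pow`): `((r - 1)!) ^ d * d ^ ((r - 1) d) ≤ (d!) ^ (r - 1) * r ^ ((r - 1) d)`, natural numbers. The quotients `phi (r - 1) * d / (phi d * r)`: (3,2) 0.825, (4,2) 0.904, (4,3) 0.852, (5,2) 0.960, (5,3) 0.905, (5,4) 0.872, (6,3) 0.945, (6,4) 0.910, (6,5) 0.887, (7,3) 0.976, (7,4) 0.941, (7,5) 0.917, (7,6) 0.899. `small_two`: `(d / (2 phi d)) ^ d = d ^ d / (2 ^ d d!)`.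
-/

namespace H46.SP

private theorem nms_aux {d r : ℕ} (hd : 1 ≤ d) (hr : 1 ≤ r)
    (h : (r.factorial) ^ d * d ^ (r * d) ≤ (d.factorial) ^ r * (r + 1) ^ (r * d)) :
    phi r * d ≤ phi d * ((r + 1 : ℕ) : ℝ) := by
  have hpr := phi_pos r
  have hpd := phi_pos d
  have hN : r * d ≠ 0 := Nat.mul_ne_zero (by omega) (by omega)
  refine le_of_pow_le_pow_left₀ hN (by positivity) ?_
  rw [mul_pow, mul_pow, pow_mul (phi r), phi_pow hr, mul_comm r d, pow_mul (phi d), phi_pow hd,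
    mul_comm d r]
  exact_mod_cast h

theorem small {d r : ℕ} (hd7 : d ≤ 7) (hr : 2 ≤ r) (hrd : r < d) (h : ¬ (r = 2 ∧ 6 ≤ d)) :
    phi (r - 1) * d ≤ phi d * r := by
  obtain ⟨s, rfl⟩ : ∃ s, r = s + 1 := ⟨r - 1, by omega⟩
  rw [Nat.add_sub_cancel]
  refine nms_aux (by omega) (by omega) ?_
  have hs : 1 ≤ s := by omega
  have hs6 : s ≤ 5 := by omega
  have hd3 : 3 ≤ d := by omega
  interval_cases d <;> interval_cases s <;>
    first
      | (exfalso; omega)
      | (norm_num [Nat.factorial])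

theorem small_two {d : ℕ} (hd : d = 6 ∨ d = 7) :
    phi d ≤ (d : ℝ) / 2 ∧ 2 / ((d : ℝ) - 1) * ((d : ℝ) / (2 * phi d)) ^ d ≤ 1 := by
  rcases hd with rfl | rfl
  · have h6 : phi 6 ^ 6 = 720 := by
      rw [phi_pow (by norm_num)]
      norm_num [Nat.factorial]
    constructor
    · refine le_of_pow_le_pow_left₀ (n := 6) (by norm_num) (by norm_num) ?_
      rw [h6]
      norm_num
    · rw [div_pow, mul_pow, h6]
      norm_num
  · have h7 : phi 7 ^ 7 = 5040 := by
      rw [phi_pow (by norm_num)]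
      norm_num [Nat.factorial]
    constructor
    · refine le_of_pow_le_pow_left₀ (n := 7) (by norm_num) (by norm_num) ?_
      rw [h7]
      norm_num
    · rw [div_pow, mul_pow, h7]
      norm_num

end H46.SP
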