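import Pool.Agent.H46.SP.Sel
import Pool.Agent.H46.SP.Nms

/-!
# SP.Key : the inequality for all d ≥ 2 (about 100 lines)

`d ≥ 8`: `key_large`. `2 ≤ d ≤ 7`: let `r i = (T i).card ≤ d`; if some `r i ≤ 1`: `bd_zero`. Put `ψ r = if r = d then phi d else phi (r - 1)`; since `(d!) = phi d ^ d`, the bound of `bd_b` is `(d!) ^ 2 ∏ (r i / d)` times `∏ (ψ (r i) * d / (phi d * r i))`. If no `r i = 2` or `d ≤ 5` (or `d = 2`, where all `r i = d`) all factors are `≤ 1` (`small`; `= 1` for `r i = d`). If `d ∈ {6, 7}` and some `r i = 2`: `bd_b2`, every factor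
is at most `d / (2 phi d)`, which is `≥ 1` (`small_two`; `phi (r - 1) / r ≤ 1 / 2` by `phi_half`), so the product with `2 / (d - 1)` is at most `2 / (d - 1) * (d / (2 phi d)) ^ d ≤ 1`.
-/

namespace H46.SP

private theorem ky_prod {d : ℕ} [NeZero d] (c : ℝ) (f : ZMod d → ℝ) :
    c ^ d * ∏ i, f i = ∏ i, (c * f i) := by
  rw [Finset.prod_mul_distrib, Finset.prod_const, Finset.card_univ, ZMod.card]

theorem key_ineq {X : Type} [Fintype X] [DecidableEq X] {d : ℕ} [NeZero d] (hd : 2 ≤ d)
    (hX : Fintype.card X = d) (T : ZMod d → Finset X) :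
    ((NT T).ncard : ℝ) ≤ (d.factorial : ℝ) ^ 2 * ∏ i, (((T i).card : ℝ) / d) := by
  rcases Nat.lt_or_ge 7 d with h8 | h7
  · exact key_large h8 hX T
  have hdpos : (0 : ℝ) < d := by
    have : 0 < d := by omega
    exact_mod_cast this
  by_cases hz : ∃ v, (T v).card ≤ 1
  · rw [bd_zero hd T hz, Set.ncard_empty]
    have : 0 ≤ ∏ i, (((T i).card : ℝ) / d) :=
      Finset.prod_nonneg fun i _ => div_nonneg (Nat.cast_nonneg _) hdpos.le
    push_cast
    positivity
  push Not at hz
  have hle : ∀ i, (T i).card ≤ d := fun i => hX ▸ Finset.card_le_univ (T i)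
  have hpp : 0 < phi d := phi_pos d
  have hfac : phi d ^ d = (d.factorial : ℝ) := phi_pow (by omega)
  have hfpos : (0 : ℝ) < d.factorial := by exact_mod_cast d.factorial_pos
  have hψ : ∀ i, 0 ≤ (if (T i).card = d then phi d else phi ((T i).card - 1)) := by
    intro i
    split_ifs
    · exact hpp.le
    · exact (phi_pos _).le
  by_cases hb : (d = 6 ∨ d = 7) ∧ ∃ v, (T v).card = 2
  · obtain ⟨h67, hv⟩ := hb
    obtain ⟨hs1, hs2⟩ := small_two h67
    have h1 := bd_b2 (by omega) hX T hv
    have h2 : ∏ i, (if (T i).card = d then phi d else phi ((T i).card - 1)) ≤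
        ∏ i, ((d : ℝ) / 2 * (((T i).card : ℝ) / d)) := by
      refine Finset.prod_le_prod (fun i _ => hψ i) (fun i _ => ?_)
      have e : (d : ℝ) / 2 * (((T i).card : ℝ) / d) = ((T i).card : ℝ) / 2 := by
        field_simp
      rw [e]
      split_ifs with h
      · rw [h]
        exact hs1
      · have h3 := phi_half ((T i).card - 1) (by have := hz i; omega)
        have h4 : (((T i).card - 1 : ℕ) : ℝ) = ((T i).card : ℝ) - 1 := by
          have := hz i
          rw [Nat.cast_sub (by omega)]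
          simp
        rw [h4] at h3
        linarith
    rw [← ky_prod] at h2
    have hP : 0 ≤ ∏ i, (((T i).card : ℝ) / d) :=
      Finset.prod_nonneg fun i _ => div_nonneg (Nat.cast_nonneg _) hdpos.le
    have hd1 : (0 : ℝ) < (d : ℝ) - 1 := by
      have : (2 : ℝ) ≤ d := by exact_mod_cast hd
      linarith
    have h5 : 2 / ((d : ℝ) - 1) * ((d : ℝ) / 2) ^ d ≤ (d.factorial : ℝ) := by
      have e : ((d : ℝ) / (2 * phi d)) ^ d * phi d ^ d = ((d : ℝ) / 2) ^ d := by
        rw [← mul_pow]
        congr 1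
        field_simp
      rw [← hfac, ← e, ← mul_assoc]
      calc 2 / ((d : ℝ) - 1) * ((d : ℝ) / (2 * phi d)) ^ d * phi d ^ d
          ≤ 1 * phi d ^ d := mul_le_mul_of_nonneg_right hs2 (by positivity)
        _ = phi d ^ d := one_mul _
    calc ((NT T).ncard : ℝ)
        ≤ (d.factorial : ℝ) * (2 / ((d : ℝ) - 1)) *
          ∏ i, (if (T i).card = d then phi d else phi ((T i).card - 1)) := h1
      _ ≤ (d.factorial : ℝ) * (2 / ((d : ℝ) - 1)) *
          (((d : ℝ) / 2) ^ d * ∏ i, (((T i).card : ℝ) / d)) :=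
          mul_le_mul_of_nonneg_left h2 (by positivity)
      _ = (d.factorial : ℝ) * ((2 / ((d : ℝ) - 1) * ((d : ℝ) / 2) ^ d) *
          ∏ i, (((T i).card : ℝ) / d)) := by ring
      _ ≤ (d.factorial : ℝ) * ((d.factorial : ℝ) * ∏ i, (((T i).card : ℝ) / d)) :=
          mul_le_mul_of_nonneg_left (mul_le_mul_of_nonneg_right h5 hP) hfpos.le
      _ = (d.factorial : ℝ) ^ 2 * ∏ i, (((T i).card : ℝ) / d) := by ring
  · have h1 := bd_b hd hX T
    have h2 : ∏ i, (if (T i).card = d then phi d else phi ((T i).card - 1)) ≤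
        ∏ i, (phi d * (((T i).card : ℝ) / d)) := by
      refine Finset.prod_le_prod (fun i _ => hψ i) (fun i _ => ?_)
      split_ifs with h
      · rw [h, div_self hdpos.ne', mul_one]
      · have h3 : (T i).card < d := lt_of_le_of_ne (hle i) h
        have h4 := small h7 (hz i) h3 (by
          rintro ⟨h5, h6⟩
          exact hb ⟨by omega, i, h5⟩)
        rw [← mul_div_assoc, le_div_iff₀ hdpos]
        exact h4
    rw [← ky_prod, hfac] at h2
    calc ((NT T).ncard : ℝ)
        ≤ (d.factorial : ℝ) *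
          ∏ i, (if (T i).card = d then phi d else phi ((T i).card - 1)) := h1
      _ ≤ (d.factorial : ℝ) * ((d.factorial : ℝ) * ∏ i, (((T i).card : ℝ) / d)) :=
          mul_le_mul_of_nonneg_left h2 hfpos.le
      _ = (d.factorial : ℝ) ^ 2 * ∏ i, (((T i).card : ℝ) / d) := by ring

end H46.SP
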