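import Pool.Agent.H46.SP.Phi

/-!
# SP.Mon : a monotone function (about 150 lines)

Enough: `H r ≤ H (r + 1)` for `r ≥ 2`, `H r = phi r ^ 2 * phi (r - 1) / r ^ 2`. Let `ℓ n = log (phi n) = log (n!) / n`, `δ n = log n - ℓ n` (`n ≥ 1`). Then `(n + 1) ℓ (n + 1) = n ℓ n + log (n + 1)`, so `ℓ (n + 1) - ℓ n = (log (n + 1) - ℓ n) / (n + 1) = (δ n + log (1 + 1 / n)) / (n + 1)`. `log H (r + 1) - log H r = 2 ℓ (r + 1) - ℓ r - ℓ (r - 1) - 2 log (1 + 1 / r)
= 2 (δ r + log (1 + 1 / r)) / (r + 1) + (δ (r - 1) + log (1 + 1 / (r - 1))) / r - 2 log (1 + 1 / r)`. `δ` is increasing (`phi_div`). For `r ≥ 7`: `δ (r - 1) ≥ δ 6 ≥ 2 / 3` (`6! = 720`, `(6!)^(1/6) ≤ 6 e^(-2/3)`; i.e. `log 720 ≤ 6 log 6 - 4`, i.e. `e ^ 4 * 720 ≤ 6 ^ 6 = 46656`, `e ^ 4 ≤ 64.8`: `Real.exp_one_lt_d9`), and with `1 / (r + 1) ≤ log (1 + 1 / r) ≤ 1 / r` the difference is at least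
`(4 / 3) / (r + 1) + 2 / (r + 1) ^ 2 + (2 / 3) / r + 1 / r ^ 2 - 2 / r > 0`. For `2 ≤ r ≤ 6`: `phi (r + 1) ^ 2 * r ^ 2 ≥ phi r * phi (r - 1) * (r + 1) ^ 2`; raise to the power `(r - 1) r (r + 1)` and use `phi_pow`: an inequality between natural numbers, `norm_num` (e.g. `r = 2`: `(3!) ^ (2/3) * 4 ≥ (2!) ^ (1/2) * 9`: `6 ^ 4 * 4 ^ 6 ≥ 2 ^ 3 * 9 ^ 6`...: for `r = 2`: exponent `6`: `6 ^ 4 * 2 ^ 12 = 5308416 ≥ 2 ^ 3 * 9 ^ 6 = 4251528`).
-/

namespace H46.SP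

theorem H_pow (s : ℕ) (hs : 1 ≤ s) :
    (phi (s + 1) ^ 2 * phi s / ((s + 1 : ℕ) : ℝ) ^ 2) ^ (s * (s + 1) * (s + 2)) =
      ((s + 1).factorial : ℝ) ^ (2 * s * (s + 2)) * (s.factorial : ℝ) ^ ((s + 1) * (s + 2)) /
        (((s + 1 : ℕ) : ℝ) ^ 2) ^ (s * (s + 1) * (s + 2)) := by
  rw [← phi_pow (n := s + 1) (by omega), ← phi_pow (n := s) hs, div_pow, mul_pow]
  generalize (((s + 1 : ℕ) : ℝ) ^ 2) ^ (s * (s + 1) * (s + 2)) = D
  rw [← pow_mul, ← pow_mul, ← pow_mul]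
  congr 2
  · congr 1; ring
  · congr 1; ring

theorem H_pow' (s : ℕ) (hs : 1 ≤ s) :
    (phi (s + 2) ^ 2 * phi (s + 1) / ((s + 2 : ℕ) : ℝ) ^ 2) ^ (s * (s + 1) * (s + 2)) =
      ((s + 2).factorial : ℝ) ^ (2 * s * (s + 1)) * ((s + 1).factorial : ℝ) ^ (s * (s + 2)) /
        (((s + 2 : ℕ) : ℝ) ^ 2) ^ (s * (s + 1) * (s + 2)) := by
  rw [← phi_pow (n := s + 2) (by omega), ← phi_pow (n := s + 1) (by omega), div_pow, mul_pow]
  generalize (((s + 2 : ℕ) : ℝ) ^ 2) ^ (s * (s + 1) * (s + 2)) = D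
  rw [← pow_mul, ← pow_mul, ← pow_mul]
  congr 2
  · congr 1; ring
  · congr 1; ring

theorem H_nonneg (s : ℕ) : 0 ≤ phi (s + 1) ^ 2 * phi s / ((s + 1 : ℕ) : ℝ) ^ 2 := by
  have h1 := phi_pos (s + 1)
  have h2 := phi_pos s
  positivity

theorem H_small (s : ℕ) (hs : 1 ≤ s) (hs5 : s ≤ 5) :
    phi (s + 1) ^ 2 * phi s / ((s + 1 : ℕ) : ℝ) ^ 2 ≤
      phi (s + 2) ^ 2 * phi (s + 1) / ((s + 2 : ℕ) : ℝ) ^ 2 := by
  have hN : s * (s + 1) * (s + 2) ≠ 0 := by positivity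
  rw [← pow_le_pow_iff_left₀ (H_nonneg s) (H_nonneg (s + 1)) hN, H_pow s hs, H_pow' s hs]
  interval_cases s <;> norm_num [Nat.factorial]

theorem log_phi_mul {n : ℕ} (hn : 1 ≤ n) :
    (n : ℝ) * Real.log (phi n) = Real.log (n.factorial : ℝ) := by
  rw [← phi_pow hn, Real.log_pow]

theorem log_phi_step {n : ℕ} (hn : 1 ≤ n) :
    ((n : ℝ) + 1) * Real.log (phi (n + 1)) =
      (n : ℝ) * Real.log (phi n) + Real.log ((n : ℝ) + 1) := by
  have h1 := log_phi_mul (n := n + 1) (by omega)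
  have h2 := log_phi_mul hn
  have hf : (0 : ℝ) < (n.factorial : ℝ) := by exact_mod_cast n.factorial_pos
  push_cast at h1
  rw [h1, h2, Nat.factorial_succ]
  push_cast
  rw [Real.log_mul (by positivity) hf.ne']
  ring

theorem delta_six {n : ℕ} (hn : 6 ≤ n) : 2 / 3 ≤ Real.log (n : ℝ) - Real.log (phi n) := by
  have h6 : 2 / 3 ≤ Real.log (6 : ℝ) - Real.log (phi 6) := by
    have h1 := log_phi_mul (n := 6) (by norm_num)
    have h2 : ((Nat.factorial 6 : ℕ) : ℝ) = 720 := by norm_num [Nat.factorial]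
    rw [h2] at h1
    push_cast at h1
    have h3 : (4 : ℝ) ≤ Real.log ((6 : ℝ) ^ 6 / 720) := by
      rw [Real.le_log_iff_exp_le (by norm_num)]
      have h4 : Real.exp 4 = Real.exp 1 ^ 4 := by
        rw [← Real.exp_nat_mul]; norm_num
      rw [h4]
      have h5 := Real.exp_one_lt_d9
      have h0 := Real.exp_pos 1
      calc Real.exp 1 ^ 4 ≤ (2.8 : ℝ) ^ 4 := by
            apply pow_le_pow_left₀ h0.le
            linarith
        _ ≤ 6 ^ 6 / 720 := by norm_num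
    rw [Real.log_div (by norm_num) (by norm_num), Real.log_pow] at h3
    push_cast at h3
    linarith
  have hd := phi_div (m := 6) (n := n) (by norm_num) hn
  have hn0 : (0 : ℝ) < (n : ℝ) := by
    have : 0 < n := by omega
    exact_mod_cast this
  have hp := phi_pos n
  have hp6 := phi_pos 6
  have hl := Real.log_le_log (by positivity) hd
  rw [Real.log_div hp.ne' hn0.ne', Real.log_div hp6.ne' (by norm_num)] at hl
  push_cast at hl
  linarith

theorem H_large (s : ℕ) (hs : 6 ≤ s) :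
    phi (s + 1) ^ 2 * phi s / ((s + 1 : ℕ) : ℝ) ^ 2 ≤
      phi (s + 2) ^ 2 * phi (s + 1) / ((s + 2 : ℕ) : ℝ) ^ 2 := by
  have p0 := phi_pos s
  have p1 := phi_pos (s + 1)
  have p2 := phi_pos (s + 2)
  have hs0 : (0 : ℝ) < (s : ℝ) := by
    have : 0 < s := by omega
    exact_mod_cast this
  rw [← Real.log_le_log_iff (by positivity) (by positivity)]
  rw [Real.log_div (by positivity) (by positivity), Real.log_div (by positivity) (by positivity),
    Real.log_mul (by positivity) (by positivity), Real.log_mul (by positivity) (by positivity),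
    Real.log_pow, Real.log_pow, Real.log_pow, Real.log_pow]
  have e1 := log_phi_step (n := s) (by omega)
  have e2 := log_phi_step (n := s + 1) (by omega)
  have d0 := delta_six hs
  have d1 := delta_six (n := s + 1) (by omega)
  push_cast at e2 d1 ⊢
  have hr : (s : ℝ) + 1 + 1 = s + 2 := by ring
  rw [hr, show s + 1 + 1 = s + 2 from rfl] at e2
  have l1 : 1 / ((s : ℝ) + 1) ≤ Real.log ((s : ℝ) + 1) - Real.log s := by
    rw [← Real.log_div (by positivity) (by positivity)]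
    have := Real.one_sub_inv_le_log_of_pos (x := ((s : ℝ) + 1) / s) (by positivity)
    refine le_trans (le_of_eq ?_) this
    field_simp
    ring
  have l2 : 1 / ((s : ℝ) + 2) ≤ Real.log ((s : ℝ) + 2) - Real.log ((s : ℝ) + 1) := by
    rw [← Real.log_div (by positivity) (by positivity)]
    have := Real.one_sub_inv_le_log_of_pos (x := ((s : ℝ) + 2) / (s + 1)) (by positivity)
    refine le_trans (le_of_eq ?_) this
    field_simp
    ring
  have l3 : Real.log ((s : ℝ) + 2) - Real.log ((s : ℝ) + 1) ≤ 1 / ((s : ℝ) + 1) := by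
    rw [← Real.log_div (by positivity) (by positivity)]
    have := Real.log_le_sub_one_of_pos (x := ((s : ℝ) + 2) / (s + 1)) (by positivity)
    refine le_trans this (le_of_eq ?_)
    field_simp
    ring
  set a := Real.log (phi s)
  set b := Real.log (phi (s + 1))
  set c := Real.log (phi (s + 2))
  set A := Real.log ((s : ℝ) + 1)
  set B := Real.log ((s : ℝ) + 2)
  set Z := Real.log (s : ℝ)
  have h1 : (1 / ((s : ℝ) + 2) + 2 / 3) / ((s : ℝ) + 2) ≤ c - b := by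
    rw [div_le_iff₀ (by positivity)]
    have : (c - b) * ((s : ℝ) + 2) = B - b := by linear_combination e2
    rw [this]
    linarith
  have h2 : (1 / ((s : ℝ) + 1) + 2 / 3) / ((s : ℝ) + 1) ≤ b - a := by
    rw [div_le_iff₀ (by positivity)]
    have : (b - a) * ((s : ℝ) + 1) = A - a := by linear_combination e1
    rw [this]
    linarith
  have h3 : 2 * (1 / ((s : ℝ) + 1)) ≤ 2 * ((1 / ((s : ℝ) + 2) + 2 / 3) / ((s : ℝ) + 2)) +
      (1 / ((s : ℝ) + 1) + 2 / 3) / ((s : ℝ) + 1) := by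
    have : 2 * ((1 / ((s : ℝ) + 2) + 2 / 3) / ((s : ℝ) + 2)) +
      (1 / ((s : ℝ) + 1) + 2 / 3) / ((s : ℝ) + 1) - 2 * (1 / ((s : ℝ) + 1)) =
      (5 / 3 * ((s : ℝ) + 1) ^ 2 + 2 / 3 * ((s : ℝ) + 1) + 1) /
        (((s : ℝ) + 1) ^ 2 * ((s : ℝ) + 2) ^ 2) := by
      field_simp
      ring
    have h4 : 0 ≤ (5 / 3 * ((s : ℝ) + 1) ^ 2 + 2 / 3 * ((s : ℝ) + 1) + 1) /
        (((s : ℝ) + 1) ^ 2 * ((s : ℝ) + 2) ^ 2) := by positivity
    linarith
  linarith

theorem H_mono {r s : ℕ} (hr : 2 ≤ r) (h : r ≤ s) :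
    phi r ^ 2 * phi (r - 1) / (r : ℝ) ^ 2 ≤ phi s ^ 2 * phi (s - 1) / (s : ℝ) ^ 2 := by
  induction s, h using Nat.le_induction with
  | base => exact le_rfl
  | succ n hn ih =>
    refine ih.trans ?_
    obtain ⟨k, rfl⟩ : ∃ k, n = k + 1 := ⟨n - 1, by omega⟩
    have e1 : k + 1 - 1 = k := by omega
    have e2 : k + 1 + 1 - 1 = k + 1 := by omega
    rw [e1, e2]
    by_cases hk : k ≤ 5
    · exact H_small k (by omega) hk
    · exact H_large k (by omega)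

end H46.SP
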