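import Pool.Agent.H46.SP.Bre
import Pool.Agent.H46.SP.Acy

/-!
# SP.NT : the set to be counted
-/

namespace H46.SP

/-- pairs (order of the sets `T i`, closed sequence of the points): consecutive points are in the
set between them -/
def NT {X : Type} {d : ℕ} (T : ZMod d → Finset X) : Set (Equiv.Perm (ZMod d) × (ZMod d ≃ X)) :=
  {p | ∀ i, p.2 i ∈ T (p.1 i) ∧ p.2 (i + 1) ∈ T (p.1 i)}

end H46.SP
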