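import Pool.Agent.H46.SP.Nml

/-!
# SP.Nmb : numerical inequalities, 8 ≤ d ≤ 15 (about 120 lines)

Raise to the power `(d - 1) (d - 2)` and use `phi_pow` for `d - 1`, `d - 2`, `d`: `hh d ^ (d (d - 1) (d - 2)) = ((d - 1)!) ^ (2 d (d - 2)) * ((d - 2)!) ^ (d (d - 1)) * d ^ (2 d (d - 1) (d - 2)) / ((d!) ^ (3 (d - 1) (d - 2)) * (d - 1) ^ (2 d (d - 1) (d - 2)))`. So `num_even` for a given `d` is the inequality between natural numbers
`4 ^ ((d - 1) (d - 2)) * ((d - 1)!) ^ (2 d (d - 2)) * ((d - 2)!) ^ (d (d - 1)) * d ^ (2 d (d - 1) (d - 2)) ≤ (d!) ^ (3 (d - 1) (d - 2)) * (d - 1) ^ (2 d (d - 1) (d - 2))` (`interval_cases d`, `norm_num` or `decide`; numbers of at most 25000 digits in base 2). `num_odd`: raise to the power `d (d - 1) (d - 2)`: `hh d ^ ((d + 1) d (d - 1) (d - 2))`, the exponents above times `d + 1`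
divided by ... i.e. `hh d ^ (d (d - 1) (d - 2))` is the quotient above, to the power `d + 1`. (Divide all exponents by common factors if the numbers are too large.) A lemma for general `d ≥ 3` giving `hh d ^ (d * ((d - 1) * (d - 2)))` as a quotient of natural numbers, then one `norm_num` for every `d`. Numerical values of `4 * hh d ^ d`: 0.968 (8), 0.925, 0.891, 0.863, ..., 0.788 (15); of the left-hand side of `num_odd`: 0.9951 (9), 0.9466, 0.908, ..., 0.811 (15).
-/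

namespace H46.SP

private def nE (d : ℕ) : ℕ :=
  (((d - 1).factorial) ^ (d * (d - 2))) ^ 2 * ((d - 2).factorial) ^ (d * (d - 1)) *
    (d ^ 2) ^ (d * ((d - 1) * (d - 2)))

private def dE (d : ℕ) : ℕ :=
  ((d.factorial) ^ ((d - 1) * (d - 2))) ^ 3 * ((d - 1) ^ 2) ^ (d * ((d - 1) * (d - 2)))

private theorem hh_pow {d : ℕ} (hd : 3 ≤ d) :
    hh d ^ (d * ((d - 1) * (d - 2))) = (nE d : ℝ) / (dE d : ℝ) := by
  have h1 : phi (d - 1) ^ (d * ((d - 1) * (d - 2))) = ((d - 1).factorial : ℝ) ^ (d * (d - 2)) := by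
    rw [show d * ((d - 1) * (d - 2)) = (d - 1) * (d * (d - 2)) by ring, pow_mul,
      phi_pow (by omega)]
  have h2 : phi (d - 2) ^ (d * ((d - 1) * (d - 2))) = ((d - 2).factorial : ℝ) ^ (d * (d - 1)) := by
    rw [show d * ((d - 1) * (d - 2)) = (d - 2) * (d * (d - 1)) by ring, pow_mul,
      phi_pow (by omega)]
  have h3 : phi d ^ (d * ((d - 1) * (d - 2))) = (d.factorial : ℝ) ^ ((d - 1) * (d - 2)) := by
    rw [pow_mul, phi_pow (by omega)]
  have h4 : ((d - 1 : ℕ) : ℝ) = (d : ℝ) - 1 := by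
    rw [Nat.cast_sub (by omega), Nat.cast_one]
  rw [hh, div_pow, mul_pow, mul_pow, mul_pow, pow_right_comm (phi (d - 1)) 2,
    pow_right_comm (phi d) 3, h1, h2, h3, nE, dE]
  simp only [Nat.cast_mul, Nat.cast_pow]
  rw [h4]

private theorem dE_pos {d : ℕ} (hd : 2 ≤ d) : 0 < dE d := by
  have h1 : 0 < d - 1 := by omega
  have h2 := d.factorial_pos
  rw [dE]
  positivity

private theorem hh_pos {d : ℕ} (hd : 2 ≤ d) : 0 < hh d := by
  have h1 : (0 : ℝ) < (d : ℝ) - 1 := by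
    have : (2 : ℝ) ≤ (d : ℝ) := by exact_mod_cast hd
    linarith
  have h2 := phi_pos (d - 1)
  have h3 := phi_pos (d - 2)
  have h4 := phi_pos d
  have h5 : (0 : ℝ) < (d : ℝ) := by linarith
  rw [hh]
  positivity

private theorem ineq_even : ∀ d ∈ Finset.Icc 8 15, 4 ^ ((d - 1) * (d - 2)) * nE d ≤ dE d := by
  decide +kernel

private theorem ineq_odd : ∀ d ∈ Finset.Icc 9 15,
    nE d ^ (d + 1) * ((2 * d) ^ 2) ^ (d * ((d - 1) * (d - 2))) ≤
      dE d ^ (d + 1) * ((d - 1) ^ 2) ^ (d * ((d - 1) * (d - 2))) := by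
  decide +kernel

theorem num_even {d : ℕ} (hd : 8 ≤ d) : hh d ^ d ≤ 1 / 4 := by
  rcases Nat.lt_or_ge d 16 with h | h
  · have h1 := ineq_even d (Finset.mem_Icc.2 ⟨hd, by omega⟩)
    have h0 : (d - 1) * (d - 2) ≠ 0 := Nat.mul_ne_zero (by omega) (by omega)
    refine (pow_le_pow_iff_left₀ (pow_pos (hh_pos (by omega)) d).le (by norm_num) h0).1 ?_
    have h2 : (0 : ℝ) < (dE d : ℝ) := by exact_mod_cast dE_pos (by omega)
    rw [← pow_mul, hh_pow (by omega), div_pow, one_pow, div_le_div_iff₀ h2 (by positivity),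
      one_mul, mul_comm]
    exact_mod_cast h1
  · exact num_even_large h

theorem num_odd {d : ℕ} (hd : 9 ≤ d) :
    hh d ^ (d + 1) * (2 * (d : ℝ) / ((d : ℝ) - 1)) ^ 2 ≤ 1 := by
  rcases Nat.lt_or_ge d 16 with h | h
  · have h1 := ineq_odd d (Finset.mem_Icc.2 ⟨hd, by omega⟩)
    have h0 : d * ((d - 1) * (d - 2)) ≠ 0 :=
      Nat.mul_ne_zero (by omega) (Nat.mul_ne_zero (by omega) (by omega))
    have h4 : ((d - 1 : ℕ) : ℝ) = (d : ℝ) - 1 := by
      rw [Nat.cast_sub (by omega), Nat.cast_one]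
    have h5 : (0 : ℝ) < ((d - 1 : ℕ) : ℝ) := by
      have : 0 < d - 1 := by omega
      exact_mod_cast this
    have hp := hh_pos (d := d) (by omega)
    have h2 : (0 : ℝ) < (dE d : ℝ) := by exact_mod_cast dE_pos (by omega)
    rw [← h4]
    refine (pow_le_pow_iff_left₀ (by positivity) (by norm_num) h0).1 ?_
    rw [one_pow, mul_pow, pow_right_comm, hh_pow (by omega), div_pow, div_pow, div_pow,
      div_mul_div_comm, div_le_one (by positivity)]
    exact_mod_cast h1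
  · exact num_odd_large h

end H46.SP
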