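import Pool.Agent.H46.SP.Phi

/-!
# SP.Nml : numerical inequalities, d ≥ 16 (about 150 lines)

`hh d = phi (d - 1) ^ 2 * phi (d - 2) * d ^ 2 / (phi d ^ 3 * (d - 1) ^ 2)`. With `ℓ n = log (phi n) = log (n!) / n` and `δ n = log n - ℓ n`: `ℓ n - ℓ (n - 1) = δ n / (n - 1)` (from `n ℓ n = (n - 1) ℓ (n - 1) + log n`). `log (hh d) = - 3 (ℓ d - ℓ (d - 1)) - (ℓ (d - 1) - ℓ (d - 2)) + 2 log (d / (d - 1)) = - 3 δ d / (d - 1) - δ (d - 1) / (d - 2) + 2 log (1 + 1 / (d - 1))`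
`≤ - 3 δ / (d - 1) - δ / (d - 2) + 2 / (d - 1)` for every `δ ≤ δ (d - 1)` (`δ` is increasing: `phi_div`). Take `δ = 0.8466 ≤ δ 15 ≤ δ (d - 1)` (`15! ≤ (15 * exp (-0.8466)) ^ 15`; e.g. `exp 0.8466 ≤ 2.3317`, as `exp 1 < 2.7182818286` and `exp (-0.1534) ≤ 1 - 0.1534 + 0.1534 ^ 2 / 2`; `15 / 2.3317 = 6.4331`, `6.4331 ^ 15 ≥ 15! = 1307674368000`).
`num_even`: `d log (hh d) ≤ 2 + 2 / (d - 1) - (4 + 3 / (d - 1) + 2 / (d - 2)) δ ≤ - log 4` because `4 δ = 3.3864 ≥ 2 + 1.38630`, `log 4 < 1.38630` (`Real.log_two_lt_d9`), and `(3 δ - 2) / (d - 1) ≥ 0`. `num_odd`: `(d + 1) log (hh d) + 2 log 2 + 2 log (d / (d - 1)) ≤ 2 + 6 / (d - 1) - (4 + 6 / (d - 1) + 3 / (d - 2)) δ + log 4 ≤ 0` because `3 δ / (d - 2) ≥ 6 (1 - δ) / (d - 1)`.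
-/

namespace H46.SP

/-- the quotient of two consecutive bounds -/
noncomputable def hh (d : ℕ) : ℝ :=
  phi (d - 1) ^ 2 * phi (d - 2) * (d : ℝ) ^ 2 / (phi d ^ 3 * ((d : ℝ) - 1) ^ 2)

private theorem nml_fac {d : ℕ} (hd : 1 ≤ d) : (d : ℝ) * Real.log (phi d) = Real.log (d.factorial : ℝ) := by
  rw [← phi_pow hd, Real.log_pow]

private theorem nml_step {d : ℕ} (hd : 2 ≤ d) :
    ((d : ℝ) - 1) * (Real.log (phi d) - Real.log (phi (d - 1))) =
      Real.log d - Real.log (phi d) := by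
  obtain ⟨n, rfl⟩ : ∃ n, d = n + 1 := ⟨d - 1, by omega⟩
  have h1 := nml_fac (d := n + 1) (by omega)
  have h2 := nml_fac (d := n) (by omega)
  rw [Nat.factorial_succ, Nat.cast_mul, Real.log_mul (by positivity) (by positivity), ← h2] at h1
  rw [Nat.add_sub_cancel]
  push_cast at h1 ⊢
  linarith

private theorem nml_fifteen : (0.8466 : ℝ) ≤ Real.log 15 - Real.log (phi 15) := by
  have h1 := nml_fac (d := 15) (by norm_num)
  have h2 : Real.log ((15 : ℕ).factorial : ℝ) ≤ 15 * (Real.log 15 - 0.8466) := by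
    have he : Real.exp 0.8466 ≤ 2.3334 := by
      have e1 : Real.exp 0.8466 = Real.exp 1 / Real.exp 0.1534 := by
        rw [← Real.exp_sub]; norm_num
      have e2 : (1.1651 : ℝ) ≤ Real.exp 0.1534 := by
        have := Real.quadratic_le_exp_of_nonneg (x := (0.1534 : ℝ)) (by norm_num)
        linarith
      have e3 := Real.exp_one_lt_d9
      rw [e1, div_le_iff₀ (Real.exp_pos _)]
      nlinarith
    have h3 : Real.log ((15 : ℕ).factorial : ℝ) ≤ Real.log ((15 / 2.3334 : ℝ) ^ 15) := by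
      apply Real.log_le_log
      · positivity
      · norm_num [Nat.factorial]
    have h4 : (0.8466 : ℝ) ≤ Real.log 2.3334 := by
      rw [Real.le_log_iff_exp_le (by norm_num)]
      exact he
    rw [Real.log_pow, Real.log_div (by norm_num) (by norm_num)] at h3
    push_cast at h3
    linarith
  have h5 : (15 : ℝ) * Real.log (phi 15) ≤ 15 * (Real.log 15 - 0.8466) := by
    have : ((15 : ℕ) : ℝ) = 15 := by norm_num
    rw [this] at h1
    rw [h1]; exact h2
  linarith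

private theorem nml_delta {d : ℕ} (hd : 15 ≤ d) : (0.8466 : ℝ) ≤ Real.log d - Real.log (phi d) := by
  have h := phi_div (m := 15) (n := d) (by norm_num) hd
  have hd0 : (0 : ℝ) < d := by exact_mod_cast (by omega : 0 < d)
  have h1 : Real.log (phi d / d) ≤ Real.log (phi 15 / (15 : ℕ)) :=
    Real.log_le_log (div_pos (phi_pos d) hd0) h
  rw [Real.log_div (phi_pos d).ne' hd0.ne', Real.log_div (phi_pos 15).ne' (by norm_num)] at h1
  have h2 := nml_fifteen
  push_cast at h1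
  linarith

private theorem nml_log {d : ℕ} (hd : 16 ≤ d) :
    Real.log (hh d) ≤ (2 - 3 * 0.8466) / ((d : ℝ) - 1) - 0.8466 / ((d : ℝ) - 2) := by
  have hdr : (16 : ℝ) ≤ d := by exact_mod_cast hd
  have p0 := phi_pos d
  have p1 := phi_pos (d - 1)
  have p2 := phi_pos (d - 2)
  have a1 := nml_step (d := d) (by omega)
  have a2 := nml_step (d := d - 1) (by omega)
  have e1 : d - 1 - 1 = d - 2 := by omega
  have e2 : ((d - 1 : ℕ) : ℝ) = (d : ℝ) - 1 := by rw [Nat.cast_sub (by omega)]; norm_num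
  rw [e1, e2] at a2
  have b1 := nml_delta (d := d) (by omega)
  have b2 := nml_delta (d := d - 1) (by omega)
  rw [e2] at b2
  have hn : (0 : ℝ) < (d : ℝ) - 1 := by linarith
  have hn' : (0 : ℝ) < (d : ℝ) - 2 := by linarith
  have c1 : 0.8466 / ((d : ℝ) - 1) ≤ Real.log (phi d) - Real.log (phi (d - 1)) := by
    rw [div_le_iff₀ hn, mul_comm, a1]; exact b1
  have c2 : 0.8466 / ((d : ℝ) - 2) ≤ Real.log (phi (d - 1)) - Real.log (phi (d - 2)) := by
    have a2' : ((d : ℝ) - 2) * (Real.log (phi (d - 1)) - Real.log (phi (d - 2))) =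
        Real.log ((d : ℝ) - 1) - Real.log (phi (d - 1)) := by
      rw [← a2]; ring
    rw [div_le_iff₀ hn', mul_comm, a2']; exact b2
  have c3 : Real.log d - Real.log ((d : ℝ) - 1) ≤ 1 / ((d : ℝ) - 1) := by
    rw [← Real.log_div (by linarith) hn.ne']
    have h := Real.log_le_sub_one_of_pos (x := (d : ℝ) / ((d : ℝ) - 1)) (by positivity)
    have h' : (d : ℝ) / ((d : ℝ) - 1) - 1 = 1 / ((d : ℝ) - 1) := by
      field_simp
      ring
    linarith
  have hh1 : Real.log (hh d) = 2 * Real.log (phi (d - 1)) + Real.log (phi (d - 2)) + 2 * Real.log d -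
      (3 * Real.log (phi d) + 2 * Real.log ((d : ℝ) - 1)) := by
    unfold hh
    have hd0 : (0 : ℝ) < d := by linarith
    rw [Real.log_div (by positivity) (by positivity), Real.log_mul (by positivity) (by positivity),
      Real.log_mul (by positivity) (by positivity), Real.log_mul (by positivity) (by positivity),
      Real.log_pow, Real.log_pow, Real.log_pow, Real.log_pow]
    push_cast
    ring
  have h3 : (2 - 3 * 0.8466) / ((d : ℝ) - 1) = 2 * (1 / ((d : ℝ) - 1)) - 3 * (0.8466 / ((d : ℝ) - 1)) := by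
    ring
  rw [hh1, h3]
  linarith

private theorem hh_pos {d : ℕ} (hd : 16 ≤ d) : 0 < hh d := by
  have hdr : (16 : ℝ) ≤ d := by exact_mod_cast hd
  have p0 := phi_pos d
  have p1 := phi_pos (d - 1)
  have p2 := phi_pos (d - 2)
  have hn : (0 : ℝ) < (d : ℝ) - 1 := by linarith
  have hd0 : (0 : ℝ) < d := by linarith
  unfold hh
  positivity

private theorem log_four : Real.log 4 ≤ 1.3863 := by
  have h : (4 : ℝ) = 2 ^ 2 := by norm_num
  have := Real.log_two_lt_d9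
  rw [h, Real.log_pow]
  push_cast
  linarith

theorem num_even_large {d : ℕ} (hd : 16 ≤ d) : hh d ^ d ≤ 1 / 4 := by
  have hdr : (16 : ℝ) ≤ d := by exact_mod_cast hd
  have hn : (0 : ℝ) < (d : ℝ) - 1 := by linarith
  have hn' : (0 : ℝ) < (d : ℝ) - 2 := by linarith
  have hp := hh_pos hd
  rw [← Real.log_le_log_iff (by positivity) (by norm_num), Real.log_pow]
  have h1 := nml_log hd
  have h2 : (d : ℝ) * Real.log (hh d) ≤
      d * ((2 - 3 * 0.8466) / ((d : ℝ) - 1) - 0.8466 / ((d : ℝ) - 2)) :=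
    mul_le_mul_of_nonneg_left h1 (by linarith)
  have h3 : (d : ℝ) * ((2 - 3 * 0.8466) / ((d : ℝ) - 1) - 0.8466 / ((d : ℝ) - 2)) =
      (2 - 4 * 0.8466) - (3 * 0.8466 - 2) / ((d : ℝ) - 1) - 2 * 0.8466 / ((d : ℝ) - 2) := by
    field_simp
    ring
  have h4 : 0 ≤ (3 * 0.8466 - 2) / ((d : ℝ) - 1) := by
    apply div_nonneg (by norm_num) hn.le
  have h5 : 0 ≤ 2 * 0.8466 / ((d : ℝ) - 2) := by
    apply div_nonneg (by norm_num) hn'.le
  have h6 : Real.log (1 / 4) = - Real.log 4 := by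
    rw [one_div, Real.log_inv]
  have h7 := log_four
  rw [h6]
  linarith

theorem num_odd_large {d : ℕ} (hd : 16 ≤ d) :
    hh d ^ (d + 1) * (2 * (d : ℝ) / ((d : ℝ) - 1)) ^ 2 ≤ 1 := by
  have hdr : (16 : ℝ) ≤ d := by exact_mod_cast hd
  have hn : (0 : ℝ) < (d : ℝ) - 1 := by linarith
  have hn' : (0 : ℝ) < (d : ℝ) - 2 := by linarith
  have hd0 : (0 : ℝ) < d := by linarith
  have hp := hh_pos hd
  rw [← Real.log_le_log_iff (by positivity) (by norm_num), Real.log_one,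
    Real.log_mul (by positivity) (by positivity), Real.log_pow, Real.log_pow,
    Real.log_div (by positivity) hn.ne', Real.log_mul (by norm_num) hd0.ne']
  have h1 := nml_log hd
  have h2 : ((d : ℝ) + 1) * Real.log (hh d) ≤
      (d + 1) * ((2 - 3 * 0.8466) / ((d : ℝ) - 1) - 0.8466 / ((d : ℝ) - 2)) :=
    mul_le_mul_of_nonneg_left h1 (by linarith)
  have h3 : ((d : ℝ) + 1) * ((2 - 3 * 0.8466) / ((d : ℝ) - 1) - 0.8466 / ((d : ℝ) - 2)) =
      (2 - 4 * 0.8466) + (4 - 6 * 0.8466) / ((d : ℝ) - 1) - 3 * 0.8466 / ((d : ℝ) - 2) := by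
    field_simp
    ring
  have c3 : Real.log d - Real.log ((d : ℝ) - 1) ≤ 1 / ((d : ℝ) - 1) := by
    rw [← Real.log_div (by linarith) hn.ne']
    have h := Real.log_le_sub_one_of_pos (x := (d : ℝ) / ((d : ℝ) - 1)) (by positivity)
    have h' : (d : ℝ) / ((d : ℝ) - 1) - 1 = 1 / ((d : ℝ) - 1) := by
      field_simp
      ring
    linarith
  have h4 : (4 - 6 * 0.8466) / ((d : ℝ) - 1) + 2 * (1 / ((d : ℝ) - 1)) - 3 * 0.8466 / ((d : ℝ) - 2) ≤ 0 := by
    have h5 : (4 - 6 * 0.8466) / ((d : ℝ) - 1) + 2 * (1 / ((d : ℝ) - 1)) =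
        (6 - 6 * 0.8466) / ((d : ℝ) - 1) := by ring
    have h6 : (6 - 6 * 0.8466) / ((d : ℝ) - 1) ≤ 3 * 0.8466 / ((d : ℝ) - 2) := by
      rw [div_le_div_iff₀ hn hn']
      nlinarith
    rw [h5]
    linarith
  have h7 := log_four
  have h8 : Real.log 4 = 2 * Real.log 2 := by
    rw [show (4 : ℝ) = 2 ^ 2 by norm_num, Real.log_pow]
    push_cast; ring
  push_cast
  linarith

end H46.SP
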