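import Mathlib

/-!
# SP.Phi : the function phi n = (n!) ^ (1 / n) (about 120 lines)

`phi_pow`: `Real.rpow_natCast`, `Real.rpow_mul`. `phi_mono`: enough `phi n ≤ phi (n + 1)` for `n ≥ 1`: both sides to the power `n (n + 1)`: `(n!) ^ (n + 1) ≤ ((n + 1)!) ^ n = (n!) ^ n (n + 1) ^ n`, i.e. `n! ≤ (n + 1) ^ n`. `phi_div`: enough `phi (n + 1) / (n + 1) ≤ phi n / n`: to the power `n (n + 1)`: `(n + 1) ^ n * n ^ (n (n + 1)) ≤ n! * (n + 1) ^ (n (n + 1))`,
i.e. `n ^ n / n! ≤ ((n + 1) / n) ^ (n * n)`. Put `e j = ((j + 1) / j) ^ j`, increasing in `j` (Bernoulli, `one_add_div_pow_le`-like or `Real.add_one_le...`; or AM-GM); `n ^ n / n! = ∏ j in [1, n - 1], e j ≤ (e n) ^ (n - 1) ≤ (e n) ^ n` (induction: `(n + 1) ^ (n + 1) / (n + 1)! = n ^ n / n! * e n`). `phi_half`: AM-GM, `(n!) ≤ ((n + 1) / 2) ^ n` (`Nat.factorial_lt_...`, or induction, or pairs `k (n + 1 - k) ≤ ((n + 1) / 2) ^ 2`).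
-/

namespace H46.SP

/-- the geometric mean of `1, ..., n` -/
noncomputable def phi (n : ℕ) : ℝ := (n.factorial : ℝ) ^ (1 / (n : ℝ))

theorem phi_pos (n : ℕ) : 0 < phi n := by
  unfold phi
  exact Real.rpow_pos_of_pos (by exact_mod_cast n.factorial_pos) _

theorem phi_pow {n : ℕ} (hn : 1 ≤ n) : phi n ^ n = (n.factorial : ℝ) := by
  have h : (n : ℝ) ≠ 0 := by
    have : 0 < n := hn
    positivity
  unfold phi
  rw [← Real.rpow_natCast, ← Real.rpow_mul (by positivity), one_div, inv_mul_cancel₀ h,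
    Real.rpow_one]

theorem phi_zero : phi 0 = 1 := by
  simp [phi]

theorem phi_one : phi 1 = 1 := by
  simp [phi]

theorem one_le_phi (n : ℕ) : 1 ≤ phi n := by
  unfold phi
  apply Real.one_le_rpow
  · exact_mod_cast n.factorial_pos
  · positivity

private theorem phi_le_succ (n : ℕ) : phi n ≤ phi (n + 1) := by
  rcases Nat.eq_zero_or_pos n with rfl | hn
  · rw [phi_zero]
    exact one_le_phi _
  · have hne : n * (n + 1) ≠ 0 := by positivity
    rw [← pow_le_pow_iff_left₀ (phi_pos n).le (phi_pos (n + 1)).le hne, pow_mul, phi_pow hn,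
      mul_comm n (n + 1), pow_mul, phi_pow (by omega)]
    have h1 : (n.factorial : ℝ) ≤ ((n : ℝ) + 1) ^ n := by
      have h2 : n.factorial ≤ n ^ n := Nat.factorial_le_pow n
      have h3 : n ^ n ≤ (n + 1) ^ n := Nat.pow_le_pow_left (by omega) n
      exact_mod_cast h2.trans h3
    have h4 : (((n + 1).factorial : ℕ) : ℝ) = ((n : ℝ) + 1) * (n.factorial : ℝ) := by
      rw [Nat.factorial_succ]
      push_cast
      ring
    rw [h4, mul_pow, pow_succ]
    have h5 : (0 : ℝ) ≤ (n.factorial : ℝ) ^ n := by positivity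
    nlinarith

theorem phi_mono {m n : ℕ} (h : m ≤ n) : phi m ≤ phi n :=
  monotone_nat_of_le_succ phi_le_succ h

/-- the increasing sequence `((j + 1) / j) ^ j` -/
private noncomputable def ee (j : ℕ) : ℝ := (((j : ℝ) + 1) / j) ^ j

private theorem ee_pos {j : ℕ} (hj : 1 ≤ j) : 0 < ee j := by
  have : (0 : ℝ) < j := by exact_mod_cast hj
  unfold ee
  positivity

private theorem ee_le_succ {j : ℕ} (hj : 1 ≤ j) : ee j ≤ ee (j + 1) := by
  have hj0 : (0 : ℝ) < j := by exact_mod_cast hj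
  have hB := one_add_mul_le_pow (a := -(1 / (((j : ℝ) + 1) ^ 2))) (by
    have : (1 : ℝ) / (((j : ℝ) + 1) ^ 2) ≤ 1 := by
      rw [div_le_one (by positivity)]
      nlinarith
    linarith) (j + 1)
  have e1 : (1 : ℝ) + ((j + 1 : ℕ) : ℝ) * (-(1 / (((j : ℝ) + 1) ^ 2))) = (j : ℝ) / (j + 1) := by
    push_cast
    field_simp
    ring
  have e2 : (1 : ℝ) + -(1 / (((j : ℝ) + 1) ^ 2)) =
      (((j : ℝ) + 2) / (j + 1)) * ((j : ℝ) / (j + 1)) := by
    field_simp
    ring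
  rw [e1, e2, mul_pow, pow_succ ((j : ℝ) / (j + 1)) j] at hB
  have hq : (0 : ℝ) < (j : ℝ) / (j + 1) := by positivity
  have h3 : (1 : ℝ) ≤ (((j : ℝ) + 2) / (j + 1)) ^ (j + 1) * ((j : ℝ) / (j + 1)) ^ j := by
    by_contra hcon
    push Not at hcon
    have := mul_lt_mul_of_pos_right hcon hq
    rw [one_mul] at this
    linarith [this, hB, mul_assoc ((((j : ℝ) + 2) / (j + 1)) ^ (j + 1))
      (((j : ℝ) / (j + 1)) ^ j) ((j : ℝ) / (j + 1))]
  have h4 : ((j : ℝ) / (j + 1)) ^ j * ee j = 1 := by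
    unfold ee
    rw [← mul_pow]
    have : (j : ℝ) / (j + 1) * (((j : ℝ) + 1) / j) = 1 := by
      field_simp
    rw [this, one_pow]
  have h5 : ee (j + 1) = (((j : ℝ) + 2) / (j + 1)) ^ (j + 1) := by
    unfold ee
    push_cast
    congr 1
    ring
  have h6 := mul_le_mul_of_nonneg_right h3 (ee_pos hj).le
  rw [one_mul, mul_assoc, h4, mul_one] at h6
  rw [h5]
  exact h6

private theorem key_div {n : ℕ} (hn : 1 ≤ n) :
    (n : ℝ) ^ n ≤ (n.factorial : ℝ) * ee n ^ n := by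
  induction n, hn using Nat.le_induction with
  | base => simp [ee]
  | succ n hn ih =>
    have hn0 : (0 : ℝ) < n := by exact_mod_cast hn
    have h1 : ((n : ℝ) + 1) ^ n = (n : ℝ) ^ n * ee n := by
      unfold ee
      rw [← mul_pow]
      congr 1
      field_simp
    have h2 : ((n : ℝ) + 1) ^ n ≤ (n.factorial : ℝ) * ee n ^ (n + 1) := by
      rw [h1, pow_succ, ← mul_assoc]
      exact mul_le_mul_of_nonneg_right ih (ee_pos hn).le
    have h3 : ee n ^ (n + 1) ≤ ee (n + 1) ^ (n + 1) :=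
      pow_le_pow_left₀ (ee_pos hn).le (ee_le_succ hn) _
    have h4 : ((n : ℝ) + 1) ^ n ≤ (n.factorial : ℝ) * ee (n + 1) ^ (n + 1) :=
      h2.trans (mul_le_mul_of_nonneg_left h3 (by positivity))
    rw [Nat.factorial_succ]
    push_cast
    rw [pow_succ]
    have h5 := mul_le_mul_of_nonneg_left h4 (show (0 : ℝ) ≤ (n : ℝ) + 1 by positivity)
    linarith [h5, mul_comm (((n : ℝ) + 1) ^ n) ((n : ℝ) + 1),
      mul_assoc ((n : ℝ) + 1) (n.factorial : ℝ) (ee (n + 1) ^ (n + 1))]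

private theorem div_succ {n : ℕ} (hn : 1 ≤ n) :
    phi (n + 1) / ((n + 1 : ℕ) : ℝ) ≤ phi n / (n : ℝ) := by
  have hn0 : (0 : ℝ) < n := by exact_mod_cast hn
  have hne : n * (n + 1) ≠ 0 := by positivity
  have hp := phi_pos n
  have hp1 := phi_pos (n + 1)
  rw [← pow_le_pow_iff_left₀ (by positivity) (by positivity) hne, div_pow, div_pow]
  have e1 : phi n ^ (n * (n + 1)) = (n.factorial : ℝ) ^ (n + 1) := by
    rw [pow_mul, phi_pow hn]
  have e2 : phi (n + 1) ^ (n * (n + 1)) = ((n : ℝ) + 1) ^ n * (n.factorial : ℝ) ^ n := by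
    rw [mul_comm n (n + 1), pow_mul, phi_pow (by omega), ← mul_pow, Nat.factorial_succ]
    push_cast
    ring
  rw [e1, e2, div_le_div_iff₀ (by positivity) (by positivity)]
  push_cast
  have h1 := key_div hn
  have h2 : (n : ℝ) ^ (n * (n + 1)) ≤ (n.factorial : ℝ) * ((n : ℝ) + 1) ^ (n * n) := by
    have e3 : ee n ^ n * (n : ℝ) ^ (n * n) = ((n : ℝ) + 1) ^ (n * n) := by
      unfold ee
      rw [← pow_mul, ← mul_pow]
      congr 1
      field_simp
    have e4 : (n : ℝ) ^ (n * (n + 1)) = (n : ℝ) ^ n * (n : ℝ) ^ (n * n) := by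
      rw [← pow_add]
      congr 1
      ring
    rw [e4, ← e3, ← mul_assoc]
    exact mul_le_mul_of_nonneg_right h1 (by positivity)
  have e5 : ((n : ℝ) + 1) ^ (n * (n + 1)) = ((n : ℝ) + 1) ^ n * ((n : ℝ) + 1) ^ (n * n) := by
    rw [← pow_add]
    congr 1
    ring
  rw [e5, pow_succ (n.factorial : ℝ) n]
  have h3 := mul_le_mul_of_nonneg_left h2
    (show (0 : ℝ) ≤ ((n : ℝ) + 1) ^ n * (n.factorial : ℝ) ^ n by positivity)
  calc ((n : ℝ) + 1) ^ n * (n.factorial : ℝ) ^ n * (n : ℝ) ^ (n * (n + 1))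
      ≤ ((n : ℝ) + 1) ^ n * (n.factorial : ℝ) ^ n *
        ((n.factorial : ℝ) * ((n : ℝ) + 1) ^ (n * n)) := h3
    _ = (n.factorial : ℝ) ^ n * (n.factorial : ℝ) *
        (((n : ℝ) + 1) ^ n * ((n : ℝ) + 1) ^ (n * n)) := by ring

theorem phi_div {m n : ℕ} (hm : 1 ≤ m) (h : m ≤ n) : phi n / n ≤ phi m / m := by
  induction n, h using Nat.le_induction with
  | base => exact le_rfl
  | succ n hmn ih => exact (div_succ (hm.trans hmn)).trans ih

private theorem fact_half (n : ℕ) : (n.factorial : ℝ) ≤ (((n : ℝ) + 1) / 2) ^ n := by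
  induction n with
  | zero => simp
  | succ n ih =>
    have hB := one_add_mul_le_pow (a := 1 / ((n : ℝ) + 1)) (by
      have : (0 : ℝ) ≤ 1 / ((n : ℝ) + 1) := by positivity
      linarith) (n + 1)
    have e1 : (1 : ℝ) + ((n + 1 : ℕ) : ℝ) * (1 / ((n : ℝ) + 1)) = 2 := by
      push_cast
      field_simp
      norm_num
    rw [e1] at hB
    have e2 : (((n : ℝ) + 1 + 1) / 2) ^ (n + 1) =
        (1 + 1 / ((n : ℝ) + 1)) ^ (n + 1) * (((n : ℝ) + 1) / 2) ^ (n + 1) := by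
      rw [← mul_pow]
      congr 1
      field_simp
    rw [Nat.factorial_succ]
    push_cast
    rw [e2]
    have h1 : ((n : ℝ) + 1) * (n.factorial : ℝ) ≤ 2 * (((n : ℝ) + 1) / 2) ^ (n + 1) := by
      have h2 := mul_le_mul_of_nonneg_left ih (show (0 : ℝ) ≤ (n : ℝ) + 1 by positivity)
      calc ((n : ℝ) + 1) * (n.factorial : ℝ) ≤ ((n : ℝ) + 1) * (((n : ℝ) + 1) / 2) ^ n := h2
        _ = 2 * (((n : ℝ) + 1) / 2) ^ (n + 1) := by
          rw [pow_succ]
          ring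
    exact h1.trans (mul_le_mul_of_nonneg_right hB (by positivity))

theorem phi_half (n : ℕ) (hn : 1 ≤ n) : phi n ≤ ((n : ℝ) + 1) / 2 := by
  rw [← pow_le_pow_iff_left₀ (phi_pos n).le (by positivity) (show n ≠ 0 by omega),
    phi_pow hn]
  exact fact_half n

end H46.SP
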