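import Pool.Agent.H46.SP.BdA
import Pool.Agent.H46.SP.Mon
import Pool.Agent.H46.SP.Nmb
import Pool.Agent.H46.SP.BdB

/-!
# SP.Sel : the inequality for d ≥ 8 (about 180 lines)

Let `r i = (T i).card ≤ d`. If some `r i ≤ 1`: `bd_zero`. So `2 ≤ r i ≤ d`. Put `a r = phi r * d / (phi d * r)`, `b r = phi (r - 1) / phi d`, `h r = a r ^ 2 * b r`. `1 ≤ a r` and `a` is antitone on `[1, d]` (`phi_div`), `a d = 1`; `h r = H r * d ^ 2 / phi d ^ 3` is monotone (`H_mono`), `h (d - 1) = hh d`, so `a r * b r ≤ h r ≤ hh d` for `2 ≤ r ≤ d - 1`. Because `(d!) ^ 2 = phi d ^ (2 d)` the bound `bd_a` for `K` is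
`(d!) ^ 2 * (∏ i, r i / d)` times `(∏ i, a (r i)) * (∏ i ∈ K, b (r i)) * d / (d - k)`, `k = K.card`. It is enough to find `K` such that this factor is `≤ 1`. Let `D = {i | r i < d}`, `m = D.card`; `∏ i, a (r i) = ∏ i ∈ D, a (r i)`. `m = 0`: `K = ∅`, the factor is `1`. `1 ≤ m`, `2 m ≤ d`: `K = D`: the factor is `≤ (hh d) ^ m * d / (d - m)`; `hh d ^ d ≤ 1 / 4` gives `hh d ^ m ≤ 4 ^ (- m / d)`
`≤ 1 - m / d` (`4 ^ (- θ) ≤ 1 - θ` for `0 ≤ θ ≤ 1 / 2`: convexity of `4 ^ (- θ)`, equality at `0` and `1 / 2`; or in integers: `hh d ^ (m d) ≤ 4 ^ (- m)` and `(1 - m / d) ^ d ≥ 4 ^ (- m)`, i.e. `(1 - θ) ^ (1 / θ) ≥ 1 / 4`; use `Real.rpow` and `convexOn`). `2 m > d`: `k = (d + 1) / 2 ≤ m`, `K ⊆ D` the `k` indices with the smallest `r` (a subset `K` of `D` with `K.card = k` and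
`r i ≤ r j` for `i ∈ K`, `j ∈ D \ K`). With `t = max over K of r`: `∏ i ∈ D \ K, a (r i) ≤ a t ^ (m - k) ≤ a t ^ k ≤ ∏ i ∈ K, a (r i)` (`m - k ≤ d - k ≤ k`, `a ≥ 1`). So the factor is `≤ (∏ i ∈ K, h (r i)) * d / (d - k) ≤ hh d ^ k * d / (d - k)`. `d` even: `k = d / 2`, `(hh d ^ k) ^ 2 ≤ 1 / 4`, `d / (d - k) = 2`. `d` odd: `k = (d + 1) / 2`, `d / (d - k) = 2 d / (d - 1)`, square: `num_odd`.
-/

namespace H46.SP

private noncomputable def selA (d r : ℕ) : ℝ := phi r * d / (phi d * r)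

private noncomputable def selB (d r : ℕ) : ℝ := phi (r - 1) / phi d

private theorem selA_anti {d r s : ℕ} (hr : 1 ≤ r) (h : r ≤ s) : selA d s ≤ selA d r := by
  have h1 := phi_div hr h
  have hd := phi_pos d
  have e : ∀ t : ℕ, selA d t = phi t / t * (d / phi d) := by
    intro t
    unfold selA
    rw [div_mul_div_comm, mul_comm (phi d) (t : ℝ)]
  rw [e, e]
  exact mul_le_mul_of_nonneg_right h1 (by positivity)

private theorem selA_self {d : ℕ} (hd : 1 ≤ d) : selA d d = 1 := by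
  have h1 := phi_pos d
  have h2 : (0 : ℝ) < d := by exact_mod_cast hd
  unfold selA
  exact div_self (by positivity)

private theorem selA_one {d r : ℕ} (hr : 1 ≤ r) (h : r ≤ d) : 1 ≤ selA d r := by
  rw [← selA_self (hr.trans h)]
  exact selA_anti hr h

private theorem selB_pos (d r : ℕ) : 0 < selB d r := div_pos (phi_pos _) (phi_pos _)

private theorem sel_h {d r : ℕ} (hr : 2 ≤ r) (h : r < d) :
    selA d r ^ 2 * selB d r ≤ hh d := by
  have h1 := H_mono hr (show r ≤ d - 1 by omega)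
  have hd := phi_pos d
  have hd0 : (0 : ℝ) < d := by
    have : 0 < d := by omega
    exact_mod_cast this
  have hr0 : (0 : ℝ) < r := by
    have : 0 < r := by omega
    exact_mod_cast this
  have e1 : selA d r ^ 2 * selB d r =
      phi r ^ 2 * phi (r - 1) / (r : ℝ) ^ 2 * ((d : ℝ) ^ 2 / phi d ^ 3) := by
    unfold selA selB
    field_simp
  have e2 : hh d = phi (d - 1) ^ 2 * phi (d - 1 - 1) / ((d - 1 : ℕ) : ℝ) ^ 2 *
      ((d : ℝ) ^ 2 / phi d ^ 3) := by
    unfold hh
    rw [Nat.cast_sub (by omega : 1 ≤ d), Nat.cast_one, show d - 1 - 1 = d - 2 from rfl,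
      div_mul_div_comm, mul_comm (phi d ^ 3)]
  rw [e1, e2]
  exact mul_le_mul_of_nonneg_right h1 (by positivity)

private theorem sel_hh_pos {d : ℕ} (hd : 2 ≤ d) : 0 < hh d := by
  have h1 := phi_pos d
  have h2 := phi_pos (d - 1)
  have h3 := phi_pos (d - 2)
  have h4 : (2 : ℝ) ≤ d := by exact_mod_cast hd
  have h5 : (0 : ℝ) < (d : ℝ) - 1 := by linarith
  unfold hh
  positivity

private theorem sel_pick {ι : Type} [DecidableEq ι] (D : Finset ι) (r : ι → ℕ) (k : ℕ)
    (hk : k ≤ D.card) :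
    ∃ K ⊆ D, K.card = k ∧ ∀ i ∈ K, ∀ j ∈ D \ K, r i ≤ r j := by
  induction k with
  | zero => exact ⟨∅, Finset.empty_subset _, rfl, fun i hi => absurd hi (Finset.notMem_empty i)⟩
  | succ k ih =>
    obtain ⟨K, hK, hc, hr⟩ := ih (by omega)
    have hne : (D \ K).Nonempty := by
      rw [← Finset.card_pos, Finset.card_sdiff_of_subset hK]
      omega
    obtain ⟨j, hj, hmin⟩ := Finset.exists_min_image (D \ K) r hne
    rw [Finset.mem_sdiff] at hj
    refine ⟨insert j K, Finset.insert_subset hj.1 hK, ?_, ?_⟩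
    · rw [Finset.card_insert_of_notMem hj.2, hc]
    · intro i hi l hl
      rw [Finset.mem_sdiff, Finset.mem_insert, not_or] at hl
      have hl' : l ∈ D \ K := Finset.mem_sdiff.2 ⟨hl.1, hl.2.2⟩
      rcases Finset.mem_insert.1 hi with rfl | hi
      · exact hmin l hl'
      · exact hr i hi l hl'

/-- `hh d ^ m ≤ 1 - m / d` for `2 m ≤ d` -/
private theorem sel_conv {d m : ℕ} (hd : 8 ≤ d) (hm : 2 * m ≤ d) :
    hh d ^ m ≤ 1 - (m : ℝ) / d := by
  have hp := sel_hh_pos (show 2 ≤ d by omega)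
  have hd0 : (0 : ℝ) < d := by
    have : 0 < d := by omega
    exact_mod_cast this
  have hm' : 2 * (m : ℝ) ≤ d := by exact_mod_cast hm
  have hm0 : (0 : ℝ) ≤ m := Nat.cast_nonneg m
  set θ : ℝ := (m : ℝ) / d with hθ
  have h0 : 0 ≤ θ := div_nonneg hm0 hd0.le
  have h1 : θ ≤ 1 / 2 := by
    rw [hθ, div_le_iff₀ hd0]
    linarith
  have hpos : 0 < 1 - θ := by linarith
  rw [← Real.log_le_log_iff (pow_pos hp m) hpos, Real.log_pow]
  have h2 : (1 - 2 * θ) * Real.log 1 + (2 * θ) * Real.log (1 / 2) ≤ Real.log (1 - θ) := by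
    have hm1 : (1 : ℝ) ∈ Set.Ioi (0 : ℝ) := Set.mem_Ioi.2 one_pos
    have hm2 : (1 / 2 : ℝ) ∈ Set.Ioi (0 : ℝ) := Set.mem_Ioi.2 (by norm_num)
    have ha : 0 ≤ 1 - 2 * θ := by linarith
    have hb : 0 ≤ 2 * θ := by linarith
    have hab : 1 - 2 * θ + 2 * θ = 1 := by ring
    have hc := strictConcaveOn_log_Ioi.concaveOn.2 hm1 hm2 ha hb hab
    rw [smul_eq_mul, smul_eq_mul, smul_eq_mul, smul_eq_mul] at hc
    refine hc.trans (le_of_eq ?_)
    congr 1
    ring
  have h3 : (d : ℝ) * Real.log (hh d) ≤ 2 * Real.log (1 / 2) := by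
    have h4 := Real.log_le_log (pow_pos hp d) (num_even hd)
    rw [Real.log_pow] at h4
    refine h4.trans (le_of_eq ?_)
    rw [show (1 / 4 : ℝ) = (1 / 2) ^ 2 by norm_num, Real.log_pow]
    norm_num
  rw [Real.log_one, mul_zero, zero_add] at h2
  refine le_trans ?_ h2
  have h5 : (m : ℝ) * Real.log (hh d) = θ * ((d : ℝ) * Real.log (hh d)) := by
    rw [hθ]
    field_simp
  rw [h5]
  calc θ * ((d : ℝ) * Real.log (hh d)) ≤ θ * (2 * Real.log (1 / 2)) :=
        mul_le_mul_of_nonneg_left h3 h0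
    _ = 2 * θ * Real.log (1 / 2) := by ring

private theorem sel_main {ι : Type} [Fintype ι] [DecidableEq ι] {d : ℕ} (hd : 8 ≤ d)
    (hι : Fintype.card ι = d) (r : ι → ℕ) (h2 : ∀ i, 2 ≤ r i) (hle : ∀ i, r i ≤ d) :
    ∃ K : Finset ι, K.card < d ∧
      (∏ i, selA d (r i)) * (∏ i ∈ K, selB d (r i)) * (d / ((d - K.card : ℕ) : ℝ)) ≤ 1 := by
  have hp := sel_hh_pos (show 2 ≤ d by omega)
  have hd0 : (0 : ℝ) < d := by
    have : 0 < d := by omega
    exact_mod_cast this
  obtain ⟨D, hD⟩ : ∃ D : Finset ι, D = Finset.univ.filter fun i => r i < d := ⟨_, rfl⟩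
  have hDm : ∀ i, i ∈ D ↔ r i < d := by
    intro i
    rw [hD, Finset.mem_filter]
    simp
  have hDc : D.card ≤ d := by
    rw [← hι]
    exact Finset.card_le_univ D
  have hprod : ∏ i, selA d (r i) = ∏ i ∈ D, selA d (r i) := by
    symm
    refine Finset.prod_subset (Finset.subset_univ D) fun i _ hi => ?_
    rw [hDm, not_lt] at hi
    rw [le_antisymm (hle i) hi]
    exact selA_self (by omega)
  have ha1 : ∀ i, 1 ≤ selA d (r i) := fun i => selA_one (by have := h2 i; omega) (hle i)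
  rw [hprod]
  rcases Nat.lt_or_ge d (2 * D.card) with hm | hm
  · obtain ⟨K, hKD, hKc, hKr⟩ := sel_pick D r ((d + 1) / 2) (by omega)
    refine ⟨K, by omega, ?_⟩
    have hKne : K.Nonempty := by
      rw [← Finset.card_pos]
      omega
    obtain ⟨i0, hi0, hmax⟩ := Finset.exists_max_image K r hKne
    have hA1 := ha1 i0
    have h5 : ∏ i ∈ D \ K, selA d (r i) ≤ ∏ i ∈ K, selA d (r i) := by
      calc ∏ i ∈ D \ K, selA d (r i) ≤ ∏ i ∈ D \ K, selA d (r i0) :=
            Finset.prod_le_prod (fun i _ => zero_le_one.trans (ha1 i)) fun i hi =>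
              selA_anti (by have := h2 i0; omega) (hKr i0 hi0 i hi)
        _ = selA d (r i0) ^ (D \ K).card := by rw [Finset.prod_const]
        _ ≤ selA d (r i0) ^ K.card := by
            refine pow_le_pow_right₀ hA1 ?_
            rw [Finset.card_sdiff_of_subset hKD]
            omega
        _ = ∏ i ∈ K, selA d (r i0) := by rw [Finset.prod_const]
        _ ≤ ∏ i ∈ K, selA d (r i) :=
            Finset.prod_le_prod (fun i _ => zero_le_one.trans hA1) fun i hi =>
              selA_anti (by have := h2 i; omega) (hmax i hi)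
    have hKpos : 0 ≤ ∏ i ∈ K, selA d (r i) :=
      Finset.prod_nonneg fun i _ => zero_le_one.trans (ha1 i)
    have hBpos : 0 ≤ ∏ i ∈ K, selB d (r i) := Finset.prod_nonneg fun i _ => (selB_pos _ _).le
    have h6 : (∏ i ∈ D, selA d (r i)) * (∏ i ∈ K, selB d (r i)) ≤ hh d ^ K.card := by
      rw [← Finset.prod_sdiff hKD]
      calc (∏ i ∈ D \ K, selA d (r i)) * (∏ i ∈ K, selA d (r i)) * (∏ i ∈ K, selB d (r i))
          ≤ (∏ i ∈ K, selA d (r i)) * (∏ i ∈ K, selA d (r i)) * (∏ i ∈ K, selB d (r i)) :=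
            mul_le_mul_of_nonneg_right (mul_le_mul_of_nonneg_right h5 hKpos) hBpos
        _ = ∏ i ∈ K, selA d (r i) ^ 2 * selB d (r i) := by
            rw [← Finset.prod_mul_distrib, ← Finset.prod_mul_distrib]
            exact Finset.prod_congr rfl fun i _ => by ring
        _ ≤ ∏ _i ∈ K, hh d :=
            Finset.prod_le_prod (fun i _ => mul_nonneg (sq_nonneg _) (selB_pos _ _).le)
              fun i hi => sel_h (h2 i) ((hDm i).1 (hKD hi))
        _ = hh d ^ K.card := by rw [Finset.prod_const]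
    have hc0 : (0 : ℝ) < ((d - K.card : ℕ) : ℝ) := by
      have : 0 < d - K.card := by omega
      exact_mod_cast this
    refine (mul_le_mul_of_nonneg_right h6 (div_nonneg hd0.le hc0.le)).trans ?_
    refine (sq_le_one_iff₀ (mul_nonneg (pow_nonneg hp.le _) (div_nonneg hd0.le hc0.le))).1 ?_
    rw [mul_pow, ← pow_mul]
    rcases Nat.even_or_odd' d with ⟨n, hn | hn⟩
    · have e1 : K.card * 2 = d := by omega
      have e2 : ((d - K.card : ℕ) : ℝ) = (d : ℝ) / 2 := by
        have : d - K.card = n := by omega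
        rw [this, hn]
        push_cast
        ring
      rw [e1, e2]
      have e3 : (d : ℝ) / ((d : ℝ) / 2) = 2 := by field_simp
      rw [e3]
      have := num_even hd
      linarith
    · have e1 : K.card * 2 = d + 1 := by omega
      have e2 : ((d - K.card : ℕ) : ℝ) = ((d : ℝ) - 1) / 2 := by
        have : d - K.card = n := by omega
        rw [this, hn]
        push_cast
        ring
      rw [e1, e2]
      have hd8 : (8 : ℝ) ≤ d := by exact_mod_cast hd
      have hd1 : (0 : ℝ) < (d : ℝ) - 1 := by linarith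
      have e3 : (d : ℝ) / (((d : ℝ) - 1) / 2) = 2 * (d : ℝ) / ((d : ℝ) - 1) := by field_simp
      rw [e3]
      exact num_odd (by omega)
  · refine ⟨D, by omega, ?_⟩
    have h6 : (∏ i ∈ D, selA d (r i)) * (∏ i ∈ D, selB d (r i)) ≤ hh d ^ D.card := by
      rw [← Finset.prod_mul_distrib, ← Finset.prod_const]
      refine Finset.prod_le_prod (fun i _ => mul_nonneg (zero_le_one.trans (ha1 i))
        (selB_pos _ _).le) fun i hi => ?_
      refine le_trans ?_ (sel_h (h2 i) ((hDm i).1 hi))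
      refine mul_le_mul_of_nonneg_right ?_ (selB_pos _ _).le
      have := ha1 i
      nlinarith
    have h7 := sel_conv hd hm
    have hc0 : (0 : ℝ) < ((d - D.card : ℕ) : ℝ) := by
      have : 0 < d - D.card := by omega
      exact_mod_cast this
    refine (mul_le_mul_of_nonneg_right (h6.trans h7) (div_nonneg hd0.le hc0.le)).trans
      (le_of_eq ?_)
    rw [Nat.cast_sub hDc] at hc0 ⊢
    field_simp

theorem key_large {X : Type} [Fintype X] [DecidableEq X] {d : ℕ} [NeZero d] (hd : 8 ≤ d)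
    (hX : Fintype.card X = d) (T : ZMod d → Finset X) :
    ((NT T).ncard : ℝ) ≤ (d.factorial : ℝ) ^ 2 * ∏ i, (((T i).card : ℝ) / d) := by
  by_cases h1 : ∃ v, (T v).card ≤ 1
  · rw [bd_zero (by omega) T h1, Set.ncard_empty, Nat.cast_zero]
    exact mul_nonneg (sq_nonneg _) (Finset.prod_nonneg fun i _ => by positivity)
  · have h2 : ∀ i, 2 ≤ (T i).card := by
      intro i
      by_contra h
      exact h1 ⟨i, by omega⟩
    have hle : ∀ i, (T i).card ≤ d := fun i => hX ▸ Finset.card_le_univ (T i)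
    obtain ⟨K, hK, hf⟩ := sel_main hd (ZMod.card d) (fun i => (T i).card) h2 hle
    refine (bd_a (by omega) hX T K hK).trans ?_
    have hd0 : (0 : ℝ) < d := by
      have : 0 < d := by omega
      exact_mod_cast this
    have hpd := phi_pos d
    have hc0 : (0 : ℝ) < ((d - K.card : ℕ) : ℝ) := by
      have : 0 < d - K.card := by omega
      exact_mod_cast this
    have e1 : ∏ i, phi (T i).card =
        phi d ^ d * (∏ i, selA d (T i).card) * ∏ i, (((T i).card : ℝ) / d) := by
      have : phi d ^ d = ∏ _i : ZMod d, phi d := by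
        rw [Finset.prod_const, Finset.card_univ, ZMod.card]
      rw [this, ← Finset.prod_mul_distrib, ← Finset.prod_mul_distrib]
      refine Finset.prod_congr rfl fun i _ => ?_
      have hr0 : (0 : ℝ) < ((T i).card : ℝ) := by
        have := h2 i
        have : 0 < (T i).card := by omega
        exact_mod_cast this
      unfold selA
      field_simp
    have e2 : (∏ i ∈ K, phi ((T i).card - 1)) * phi d ^ (d - K.card) =
        phi d ^ d * ∏ i ∈ K, selB d (T i).card := by
      have h3 : phi d ^ d = phi d ^ K.card * phi d ^ (d - K.card) := by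
        rw [← pow_add]
        congr 1
        omega
      have h4 : phi d ^ K.card * ∏ i ∈ K, selB d (T i).card =
          ∏ i ∈ K, phi ((T i).card - 1) := by
        rw [← Finset.prod_const, ← Finset.prod_mul_distrib]
        refine Finset.prod_congr rfl fun i _ => ?_
        unfold selB
        field_simp
      rw [h3, ← h4]
      ring
    rw [e1, e2, ← phi_pow (show 1 ≤ d by omega)]
    have hP : 0 ≤ ∏ i, (((T i).card : ℝ) / d) :=
      Finset.prod_nonneg fun i _ => by positivity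
    calc (d : ℝ) * (phi d ^ d * (∏ i, selA d (T i).card) * ∏ i, (((T i).card : ℝ) / d)) *
          (phi d ^ d * (∏ i ∈ K, selB d (T i).card) / ((d - K.card : ℕ) : ℝ))
        = ((phi d ^ d) ^ 2 * ∏ i, (((T i).card : ℝ) / d)) *
          ((∏ i, selA d (T i).card) * (∏ i ∈ K, selB d (T i).card) *
            (d / ((d - K.card : ℕ) : ℝ))) := by ring
      _ ≤ ((phi d ^ d) ^ 2 * ∏ i, (((T i).card : ℝ) / d)) * 1 :=
          mul_le_mul_of_nonneg_left hf (mul_nonneg (sq_nonneg _) hP)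
      _ = (phi d ^ d) ^ 2 * ∏ i, (((T i).card : ℝ) / d) := mul_one _

end H46.SP
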