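import Pool.Agent.H46.CZ.Rpl
import Pool.Agent.H46.CZ.Sym

/-!
# SP.Siz : a piece with t hubs has at least t (q - 1) + 1 vertices (about 180 lines)

`twin_walk` (CZ.Rpl, `l = 2 q`): every non-empty list `t` of non-hubs such that `z :: (t ++ [z'])` is a chain for `G.Adj`, `z ≠ z'` hubs, has `t.length + 1 ≥ 2 q`. For `z` in `TT G c j` (the hubs attached to the piece `j`) let `B z` be the set of the `v` with `c v = j` such that there is a list `t` with all members of colour `j`, `(z :: (t ++ [v]))` a chain, `t.length + 1 ≤ q - 1`. (1) `B z`, `B z'` are disjoint for `z ≠ z'`: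
otherwise `t ++ v :: t'.reverse` contradicts `twin_walk` (`2 (q - 1) < 2 q`). (2) `B z` has at least `q - 1` elements: let `z' ∈ {x, y}`, `z' ≠ z`. `z'` is attached to the piece as well (ends of `s`); by `CConn` there is a chain of vertices of colour `j` from a neighbour of `z` to a neighbour of `z'` (`Con` between vertices of colour `j` stays in the colour `j` by `Compat`), shorten it to one without repetition
(`PI G z z' t`): `t.length + 1 ≥ 2 q`, the first `q - 1` members of `t` are different and in `B z`. (3) The member number `q` of `s` (`s.length = 2 q - 1`; `s = s₁ ++ v :: s₂`, `s₁.length = s₂.length = q - 1`) is in no `B z`: if `z ≠ x` then `t ++ v :: s₁.reverse` has length `≤ (q - 2) + 1 + (q - 1)`, so `t.length + 1` of it is `≤ 2 q - 1`; if `z = x` use `y` and `s₂`. So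
`(TT G c j).ncard * (q - 1) + 1 ≤ {v | c v = j}.ncard`.
-/

namespace H46.SP

open Pool.Agent.H3.LC H46.CY H46.CZ

/-- the hubs attached to the piece `j` -/
def TT {V : Type} (G : SimpleGraph V) (c : V → ℕ) (j : ℕ) : Set V :=
  {z | c z = 0 ∧ ∃ u, c u = j ∧ G.Adj u z}

private theorem glue {V : Type} {G : SimpleGraph V} {z z' v : V} {t t' : List V}
    (h : (z :: (t ++ [v])).IsChain G.Adj) (h' : (z' :: (t' ++ [v])).IsChain G.Adj) :
    (z :: ((t ++ v :: t'.reverse) ++ [z'])).IsChain G.Adj := by
  have e1 : z :: ((t ++ v :: t'.reverse) ++ [z']) = (z :: t) ++ v :: (t'.reverse ++ [z']) := by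
    simp
  rw [e1, List.isChain_split]
  refine ⟨h, ?_⟩
  have e2 : v :: (t'.reverse ++ [z']) = (z' :: (t' ++ [v])).reverse := by simp
  rw [e2, List.isChain_reverse]
  exact h'.imp fun x y hxy => hxy.symm

private theorem con_path {V : Type} {G : SimpleGraph V} {c : V → ℕ} (hC : Compat G c) {j : ℕ}
    {u z : V} (hu : c u = j) (huz : G.Adj u z) {a : V} (ha : Con G c a u) :
    c a = j → ∃ R : List V, (a :: (R ++ [z])).IsChain G.Adj ∧ (a :: R).Nodup ∧
      ∀ v ∈ a :: R, c v = j := by
  induction ha using Relation.ReflTransGen.head_induction_on with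
  | refl =>
    intro _
    refine ⟨[], ?_, by simp, by simpa using hu⟩
    rw [List.nil_append, List.isChain_cons_cons]
    exact ⟨huz, List.isChain_singleton _⟩
  | head hab hbu ih =>
    rename_i a b
    intro haj
    have hbj : c b = j := by
      rw [← haj]
      exact (hC a b hab.1 hab.2.1 hab.2.2).symm
    obtain ⟨R, h1, h2, h3⟩ := ih hbj
    by_cases hm : a ∈ b :: R
    · obtain ⟨R1, R2, hR⟩ := List.append_of_mem hm
      refine ⟨R2, ?_, ?_, ?_⟩
      · have e : b :: (R ++ [z]) = R1 ++ a :: (R2 ++ [z]) := by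
          rw [← List.cons_append, hR]
          simp
        rw [e, List.isChain_split] at h1
        exact h1.2
      · rw [hR] at h2
        exact (List.nodup_append.1 h2).2.1
      · intro v hv
        exact h3 v (by rw [hR]; exact List.mem_append_right _ hv)
    · refine ⟨b :: R, ?_, List.nodup_cons.2 ⟨hm, h2⟩, ?_⟩
      · rw [List.cons_append, List.isChain_cons_cons]
        exact ⟨hab.1, h1⟩
      · intro v hv
        rcases List.mem_cons.1 hv with rfl | hv
        · exact haj
        · exact h3 v hv

/-- the vertices of the piece `j` near the hub `z` -/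
private def BB {V : Type} (G : SimpleGraph V) (c : V → ℕ) (j q : ℕ) (z : V) : Set V :=
  {v | c v = j ∧ ∃ t : List V, (∀ u ∈ t, c u = j) ∧ (z :: (t ++ [v])).IsChain G.Adj ∧
    t.length + 1 + 1 ≤ q}

private theorem bb_disj {V : Type} {L : Finset ℕ} {G : SimpleGraph V} {c : V → ℕ}
    (hV : Valid L G c) {q : ℕ} (hev : ∀ x ∈ L, Even x → 2 * (2 * q) ≤ x) {j : ℕ} (hj : j ≠ 0)
    {z z' : V} (hz : c z = 0) (hz' : c z' = 0) (hne : z ≠ z') :
    Disjoint (BB G c j q z) (BB G c j q z') := by
  rw [Set.disjoint_left]
  rintro v ⟨hv, t, h1, h2, h3⟩ ⟨_, t', h1', h2', h3'⟩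
  have h4 := twin_walk hV hev hne hz hz' (glue h2 h2') (by simp) (fun u hu => by
    simp only [List.mem_append, List.mem_cons, List.mem_reverse] at hu
    rcases hu with hu | rfl | hu
    · rw [h1 u hu]
      exact hj
    · rw [hv]
      exact hj
    · rw [h1' u hu]
      exact hj)
  simp only [List.length_append, List.length_cons, List.length_reverse] at h4
  omega

private theorem bb_card {V : Type} [Fintype V] {L : Finset ℕ} {G : SimpleGraph V} {c : V → ℕ}
    (hV : Valid L G c) {q : ℕ} (hev : ∀ x ∈ L, Even x → 2 * (2 * q) ≤ x) (hcc : CConn G c)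
    {j : ℕ} (hj : j ≠ 0) {z z' : V} (hz : c z = 0) (hz' : c z' = 0) (hne : z ≠ z') {u u' : V}
    (hu : c u = j) (huz : G.Adj u z) (hu' : c u' = j) (huz' : G.Adj u' z') :
    q - 1 ≤ (BB G c j q z).ncard := by
  classical
  obtain ⟨R, h1, h2, h3⟩ := con_path hV.1 hu' huz' (hcc u u' (hu.trans hu'.symm)
    (by rw [hu]; exact hj)) hu
  have h4 : (z :: ((u :: R) ++ [z'])).IsChain G.Adj := by
    rw [List.cons_append, List.isChain_cons_cons]
    exact ⟨huz.symm, h1⟩
  have h5 := twin_walk hV hev hne hz hz' h4 (by simp) (fun v hv => by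
    rw [h3 v hv]
    exact hj)
  generalize hT : u :: R = T at h2 h3 h4 h5
  have h6 : ((T.take (q - 1)).toFinset).card = q - 1 := by
    rw [List.toFinset_card_of_nodup (h2.sublist (List.take_sublist _ _)), List.length_take]
    omega
  rw [← h6, ← Set.ncard_coe_finset]
  refine Set.ncard_le_ncard ?_ (Set.toFinite _)
  intro v hv
  rw [Finset.mem_coe, List.mem_toFinset] at hv
  obtain ⟨i, hi, rfl⟩ := List.mem_iff_getElem.1 hv
  rw [List.length_take] at hi
  have hiT : i < T.length := by omega
  rw [List.getElem_take]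
  refine ⟨h3 _ (List.getElem_mem hiT), T.take i, fun w hw => h3 w (List.mem_of_mem_take hw), ?_,
    ?_⟩
  · have e : z :: (T ++ [z']) = (z :: T.take i) ++ T[i] :: (T.drop (i + 1) ++ [z']) := by
      have e2 : T = T.take i ++ T[i] :: T.drop (i + 1) := by
        rw [List.getElem_cons_drop, List.take_append_drop]
      rw [List.cons_append]
      congr 1
      rw [← List.cons_append, ← List.append_assoc, ← e2]
    rw [e, List.isChain_split] at h4
    exact h4.1
  · rw [List.length_take]
    omega

theorem size_le {V : Type} [Fintype V] {L : Finset ℕ} {G : SimpleGraph V} {c : V → ℕ}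
    (hV : Valid L G c) {q : ℕ} (hq : 1 ≤ q) (hev : ∀ x ∈ L, Even x → 2 * (2 * q) ≤ x)
    (hcc : CConn G c) {x y : V} (hxy : x ≠ y) (hx : c x = 0) (hy : c y = 0) {j : ℕ} (hj : j ≠ 0)
    {s : List V} (hs : s ∈ LP (2 * q) G c x y j) :
    (TT G c j).ncard * (q - 1) + 1 ≤ {v | c v = j}.ncard := by
  classical
  obtain ⟨hs1, hs2, hs3⟩ := hs
  have hlen : s.length = 2 * q - 1 := by omega
  have hq1 : q - 1 < s.length := by omega
  -- the splitting of s
  have hsplit : s = s.take (q - 1) ++ s[q - 1] :: s.drop q := by
    have h := List.take_append_drop (q - 1) s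
    rw [List.drop_eq_getElem_cons hq1, show q - 1 + 1 = q by omega] at h
    exact h.symm
  obtain ⟨s₁, v, s₂, hsv, hl1, hl2⟩ : ∃ (s₁ : List V) (v : V) (s₂ : List V), s = s₁ ++ v :: s₂ ∧
      s₁.length = q - 1 ∧ s₂.length = q - 1 :=
    ⟨s.take (q - 1), s[q - 1], s.drop q, hsplit, by rw [List.length_take]; omega, by
      rw [List.length_drop]; omega⟩
  have hvj : c v = j := hs3 v (by rw [hsv]; simp)
  have hch1 : (x :: (s₁ ++ [v])).IsChain G.Adj := by
    have h := hs1.1
    have e : x :: (s ++ [y]) = (x :: s₁) ++ v :: (s₂ ++ [y]) := by rw [hsv]; simp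
    rw [e, List.isChain_split] at h
    exact h.1
  have hch2 : (y :: (s₂.reverse ++ [v])).IsChain G.Adj := by
    have h := hs1.1
    have e : x :: (s ++ [y]) = (x :: s₁) ++ v :: (s₂ ++ [y]) := by rw [hsv]; simp
    rw [e, List.isChain_split] at h
    have e2 : y :: (s₂.reverse ++ [v]) = (v :: (s₂ ++ [y])).reverse := by simp
    rw [e2, List.isChain_reverse]
    exact h.2.imp fun a b hab => hab.symm
  have hne : s ≠ [] := by
    intro h
    rw [h] at hs2
    simp at hs2
    omega
  -- ends of s
  obtain ⟨ux, hux, huxx⟩ : ∃ u, c u = j ∧ G.Adj u x := by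
    cases s with
    | nil => exact absurd rfl hne
    | cons a r =>
      have h := hs1.1
      rw [List.cons_append, List.isChain_cons_cons] at h
      exact ⟨a, hs3 a (by simp), h.1.symm⟩
  obtain ⟨uy, huy, huyy⟩ : ∃ u, c u = j ∧ G.Adj u y := by
    have h := (pi_rev hs1).1
    have hne' : s.reverse ≠ [] := by simpa using hne
    cases hr : s.reverse with
    | nil => exact absurd hr hne'
    | cons a r =>
      rw [hr, List.cons_append, List.isChain_cons_cons] at h
      exact ⟨a, hs3 a (by rw [← List.mem_reverse, hr]; simp), h.1.symm⟩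
  have hTf : (TT G c j).Finite := Set.toFinite _
  -- the sets B z
  have hB : ∀ z ∈ TT G c j, q - 1 ≤ (BB G c j q z).ncard := by
    rintro z ⟨hz, u, hu, huz⟩
    by_cases hzx : z = x
    · exact bb_card hV hev hcc hj hz hy (by rw [hzx]; exact hxy) hu huz huy huyy
    · exact bb_card hV hev hcc hj hz hx hzx hu huz hux huxx
  have hvB : ∀ z ∈ TT G c j, v ∉ BB G c j q z := by
    rintro z ⟨hz, -⟩ ⟨-, t, h1, h2, h3⟩
    by_cases hzx : z = x
    · have h4 := twin_walk hV hev (x := z) (y := y) (by rw [hzx]; exact hxy) hz hy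
        (glue h2 hch2) (by simp) (fun u hu => by
          simp only [List.mem_append, List.mem_cons, List.mem_reverse] at hu
          rcases hu with hu | rfl | hu
          · rw [h1 u hu]
            exact hj
          · rw [hvj]
            exact hj
          · rw [hs3 u (by rw [hsv]; simp [hu])]
            exact hj)
      simp only [List.length_append, List.length_cons, List.length_reverse, hl2] at h4
      omega
    · have h4 := twin_walk hV hev hzx hz hx
        (glue h2 hch1) (by simp) (fun u hu => by
          simp only [List.mem_append, List.mem_cons, List.mem_reverse] at hu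
          rcases hu with hu | rfl | hu
          · rw [h1 u hu]
            exact hj
          · rw [hvj]
            exact hj
          · rw [hs3 u (by rw [hsv]; simp [hu])]
            exact hj)
      simp only [List.length_append, List.length_cons, List.length_reverse, hl1] at h4
      omega
  -- counting
  set T : Finset V := hTf.toFinset with hT
  have hTc : (TT G c j).ncard = T.card := Set.ncard_eq_toFinset_card _ hTf
  set W : Finset V := T.biUnion fun z => (Set.toFinite (BB G c j q z)).toFinset with hW
  have hWc : T.card * (q - 1) ≤ W.card := by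
    rw [hW, Finset.card_biUnion]
    · have h := Finset.card_nsmul_le_sum T
        (fun z => ((Set.toFinite (BB G c j q z)).toFinset).card) (q - 1) (fun z hz => by
          rw [← Set.ncard_eq_toFinset_card]
          exact hB z (hTf.mem_toFinset.1 hz))
      simpa using h
    · intro a ha b hb hab
      rw [Function.onFun, ← Finset.disjoint_coe, Set.Finite.coe_toFinset, Set.Finite.coe_toFinset]
      exact bb_disj hV hev hj (hTf.mem_toFinset.1 ha).1 (hTf.mem_toFinset.1 hb).1 hab
  have hvW : v ∉ W := by
    rw [hW, Finset.mem_biUnion]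
    rintro ⟨z, hz, hz2⟩
    exact hvB z (hTf.mem_toFinset.1 hz) ((Set.toFinite _).mem_toFinset.1 hz2)
  have hsub : (↑(insert v W) : Set V) ⊆ {v | c v = j} := by
    intro w hw
    rw [Finset.mem_coe, Finset.mem_insert] at hw
    rcases hw with rfl | hw
    · exact hvj
    · rw [hW, Finset.mem_biUnion] at hw
      obtain ⟨z, _, hz2⟩ := hw
      exact ((Set.toFinite _).mem_toFinset.1 hz2).1
  have h7 := Set.ncard_le_ncard hsub (Set.toFinite _)
  rw [Set.ncard_coe_finset, Finset.card_insert_of_notMem hvW] at h7
  rw [hTc]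
  omega

end H46.SP
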