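import Pool.Agent.H46.CZ.Lst

/-!
# SP.Spd : the spider with d legs of length h (about 330 lines, adapted from CZ.Spi)

Exactly the proof of `spi_valid` in CZ.Spi with `Fin 3` replaced by `Fin d`: the cycles of the blow-ups have length `2 h q` with `2 ≤ q ≤ d` (there: `q ≤ 3`, `q ≠ 1`). (The default value `0 : Fin 3` in `spl` needs `d ≥ 1`; use `Option (Fin d)` or `[NeZero d]`.)
-/

namespace H46.SP

open Pool.Agent.H3.LC H46.CY H46.CZ

/-- the spider with `d` legs of length `h`, `none` is the centre -/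
def spg (d h : ℕ) : SimpleGraph (Option (Fin d × Fin h)) where
  Adj x y := match x, y with
    | none, none => False
    | none, some (_, t) => t.val = 0
    | some (_, t), none => t.val = 0
    | some (i, t), some (j, u) => i = j ∧ (t.val + 1 = u.val ∨ u.val + 1 = t.val)
  symm := by
    constructor
    intro x y hxy
    rcases x with _ | ⟨i, t⟩ <;> rcases y with _ | ⟨j, u⟩ <;> simp only at hxy ⊢
    · exact hxy
    · exact hxy
    · exact ⟨hxy.1.symm, hxy.2.symm⟩
  loopless := by
    constructor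
    intro x hx
    rcases x with _ | ⟨i, t⟩ <;> simp only at hx
    omega

/-- the colours of the spider -/
def spc (d h : ℕ) : Option (Fin d × Fin h) → ℕ
  | none => 1
  | some (_, t) => if t.val + 1 = h then 0 else 1

private def spd (d h : ℕ) : Option (Fin d × Fin h) → ℕ
  | none => 0
  | some (_, t) => t.val + 1

private def spl {d : ℕ} (i0 : Fin d) (h : ℕ) : Option (Fin d × Fin h) → Fin d
  | none => i0
  | some (i, _) => i

private theorem spd_le {d h : ℕ} (v : Option (Fin d × Fin h)) : spd d h v ≤ h := by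
  rcases v with _ | ⟨i, t⟩
  · exact Nat.zero_le _
  · exact t.isLt

private theorem spc_zero {d h : ℕ} (hh : 1 ≤ h) (v : Option (Fin d × Fin h)) :
    spc d h v = 0 ↔ spd d h v = h := by
  rcases v with _ | ⟨i, t⟩
  · simp only [spc, spd]
    omega
  · simp only [spc, spd]
    split_ifs with h1
    · simp [h1]
    · simp [h1]

private theorem adj_spd {d h : ℕ} {u v : Option (Fin d × Fin h)} (a : (spg d h).Adj u v) :
    spd d h u + 1 = spd d h v ∨ spd d h v + 1 = spd d h u := by
  rcases u with _ | ⟨i, t⟩ <;> rcases v with _ | ⟨j, s⟩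
  · exact (a : False).elim
  · have a' : s.val = 0 := a
    left
    simp only [spd, a']
  · have a' : t.val = 0 := a
    right
    simp only [spd, a']
  · have a' : i = j ∧ (t.val + 1 = s.val ∨ s.val + 1 = t.val) := a
    simp only [spd]
    omega

private theorem adj_spl {d h : ℕ} (i0 : Fin d) {u v : Option (Fin d × Fin h)} (a : (spg d h).Adj u v)
    (hu : 0 < spd d h u) (hv : 0 < spd d h v) : spl i0 h u = spl i0 h v := by
  rcases u with _ | ⟨i, t⟩ <;> rcases v with _ | ⟨j, s⟩
  · exact (a : False).elim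
  · exact absurd hu (lt_irrefl 0)
  · exact absurd hv (lt_irrefl 0)
  · have a' : i = j ∧ (t.val + 1 = s.val ∨ s.val + 1 = t.val) := a
    exact a'.1

private theorem spv_eq {d h : ℕ} (i0 : Fin d) {u v : Option (Fin d × Fin h)} (hd : spd d h u = spd d h v)
    (hl : spl i0 h u = spl i0 h v) : u = v := by
  rcases u with _ | ⟨i, t⟩ <;> rcases v with _ | ⟨j, s⟩
  · rfl
  · simp only [spd] at hd
    omega
  · simp only [spd] at hd
    omega
  · simp only [spd] at hd
    simp only [spl] at hl
    have : t = s := Fin.ext (by omega)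
    rw [hl, this]

private theorem sp_none {d h : ℕ} {u : Option (Fin d × Fin h)} (hu : spd d h u = 0) : u = none := by
  rcases u with _ | ⟨i, t⟩
  · rfl
  · simp only [spd] at hu
    omega

private theorem adj_uniq {d h : ℕ} (i0 : Fin d) {u w y : Option (Fin d × Fin h)} (hu : (spg d h).Adj u y)
    (hw : (spg d h).Adj w y) (hy : 0 < spd d h y) (hd : spd d h u = spd d h w) : u = w := by
  rcases Nat.eq_zero_or_pos (spd d h u) with h0 | h0
  · exact (sp_none h0).trans (sp_none (hd ▸ h0)).symm
  · exact spv_eq i0 hd ((adj_spl i0 hu h0 hy).trans (adj_spl i0 hw (hd ▸ h0) hy).symm)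

private theorem bv_uniq {d h M : ℕ} (i0 : Fin d) (hh : 1 ≤ h) {x y z : BV (spc d h) M}
    (hx : (blow (spg d h) (spc d h) M).Adj x y) (hz : (blow (spg d h) (spc d h) M).Adj y z)
    (hy : 0 < spd d h y.1.1) (hy2 : spd d h y.1.1 < h) (hd : spd d h x.1.1 = spd d h z.1.1) : x = z := by
  have h1 : x.1.1 = z.1.1 := adj_uniq i0 hx.1 hz.1.symm hy hd
  have hcy : spc d h y.1.1 ≠ 0 := fun e => by
    rw [spc_zero hh] at e
    omega
  have h2 : x.1.2 = z.1.2 := by
    by_cases hc : spc d h x.1.1 = 0
    · rw [x.2 hc, z.2 (h1 ▸ hc)]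
    · rw [hx.2 hc hcy, hz.2 hcy (h1 ▸ hc)]
  exact Subtype.ext (Prod.ext h1 h2)

theorem spd_valid {L : Finset ℕ} {d h : ℕ} (hd : 2 ≤ d) (hh : 1 ≤ h)
    (hL : ∀ r, 2 ≤ r → r ≤ d → r * (2 * h) ∈ L) : Valid L (spg d h) (spc d h) := by
  have i0 : Fin d := ⟨0, by omega⟩
  refine ⟨?_, fun M => ?_⟩
  · have hc1 : ∀ v, spc d h v ≠ 0 → spc d h v = 1 := by
      intro v hv
      rcases v with _ | ⟨i, t⟩
      · rfl
      · simp only [spc] at hv ⊢
        split_ifs at hv ⊢ with h1
        · exact absurd rfl hv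
        · rfl
    intro u v _ hu hv
    rw [hc1 u hu, hc1 v hv]
  rw [isLCycle_iff]
  intro m g hm hg
  have : NeZero m := ⟨by omega⟩
  obtain ⟨hinj, hadj⟩ := hg
  set δ : ZMod m → ℕ := fun i => spd d h (g i).1.1 with hδ
  have hδle : ∀ i, δ i ≤ h := fun i => spd_le _
  have hstep : ∀ i, δ i + 1 = δ (i + 1) ∨ δ (i + 1) + 1 = δ i := fun i => adj_spd (hadj i).1
  have hne2 : ∀ i : ZMod m, i ≠ i + 1 + 1 := by
    intro i hi
    have h1 : (2 : ZMod m) = 0 := by
      have h2 : i + 0 = i + (1 + 1) := by rw [add_zero, ← add_assoc]; exact hi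
      have h3 := add_left_cancel h2
      rw [one_add_one_eq_two] at h3
      exact h3.symm
    have h2 : ((2 : ℕ) : ZMod m) = 0 := by exact_mod_cast h1
    rw [ZMod.natCast_eq_zero_iff] at h2
    have := Nat.le_of_dvd (by norm_num) h2
    omega
  -- no turn at an inner depth
  have hturn : ∀ i, 0 < δ (i + 1) → δ (i + 1) < h → δ i ≠ δ (i + 1 + 1) := by
    intro i h1 h2 h3
    exact hne2 i (hinj (bv_uniq i0 hh (hadj i) (hadj (i + 1)) h1 h2 h3))
  -- there is a hub
  obtain ⟨s, hs⟩ : ∃ s, δ s = h := by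
    obtain ⟨i, hi⟩ := Finite.exists_max δ
    have e1 : i - 1 + 1 = i := sub_add_cancel i 1
    have h1 := hstep (i - 1)
    have h2 := hstep i
    have h3 := hi (i - 1)
    have h4' := hi (i + 1)
    rw [e1] at h1
    have h5 := hturn (i - 1)
    rw [e1] at h5
    have h6' := hδle i
    refine ⟨i, ?_⟩
    by_contra hn
    have h7 : 0 < δ i := by omega
    exact h5 h7 (by omega) (by omega)
  -- the sequence after a rotation
  set D : ℕ → ℕ := fun n => δ ((n : ZMod m) + s) with hD
  have hcast : ∀ n : ℕ, ((n : ZMod m) + s) + 1 = (((n + 1 : ℕ) : ZMod m) + s) := by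
    intro n
    push_cast
    ring
  have hDle : ∀ n, D n ≤ h := fun n => hδle _
  have hDstep : ∀ n, D n + 1 = D (n + 1) ∨ D (n + 1) + 1 = D n := by
    intro n
    have h1 := hstep ((n : ZMod m) + s)
    rw [hcast] at h1
    exact h1
  have hDturn : ∀ n, 0 < D (n + 1) → D (n + 1) < h → D n ≠ D (n + 2) := by
    intro n h1 h2 h3
    have h4' := hturn ((n : ZMod m) + s)
    rw [hcast, hcast] at h4'
    exact h4' h1 h2 h3
  have hD0 : D 0 = h := by
    rw [hD]
    simp only [Nat.cast_zero, zero_add]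
    exact hs
  have hP : ∀ n : ℕ, (n % (2 * h) < h → D n = h - n % (2 * h) ∧ D (n + 1) + 1 = D n) ∧
      (h ≤ n % (2 * h) → D n = n % (2 * h) - h ∧ D (n + 1) = D n + 1) := by
    intro n
    induction n with
    | zero =>
      rw [Nat.zero_mod]
      refine ⟨fun _ => ⟨by rw [hD0]; rfl, ?_⟩, fun h1 => by omega⟩
      have h1 := hDstep 0
      have h2 := hDle 1
      rw [zero_add] at h1 ⊢
      omega
    | succ n ih =>
      have h1 := hDstep (n + 1)
      have h2 := hDle (n + 2)
      have h3 := hDturn n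
      have h0 : n % (2 * h) < 2 * h := Nat.mod_lt _ (by omega)
      have hmod : (n + 1) % (2 * h) = if n % (2 * h) + 1 = 2 * h then 0 else n % (2 * h) + 1 := by
        rw [Nat.add_mod, Nat.mod_eq_of_lt (show 1 < 2 * h by omega)]
        split_ifs with h5
        · rw [h5, Nat.mod_self]
        · exact Nat.mod_eq_of_lt (by omega)
      rw [hmod]
      rw [show n + 1 + 1 = n + 2 by omega] at h1 ⊢
      rcases Nat.lt_or_ge (n % (2 * h)) h with hlt | hge
      · obtain ⟨h5, h6'⟩ := ih.1 hlt
        rw [if_neg (by omega)]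
        refine ⟨fun h7 => ⟨by omega, ?_⟩, fun h7 => ⟨by omega, ?_⟩⟩
        · have := h3 (by omega) (by omega)
          omega
        · omega
      · obtain ⟨h5, h6'⟩ := ih.2 hge
        by_cases h7 : n % (2 * h) + 1 = 2 * h
        · rw [if_pos h7]
          refine ⟨fun _ => ⟨by omega, by omega⟩, fun h8 => by omega⟩
        · rw [if_neg h7]
          refine ⟨fun h8 => by omega, fun _ => ⟨by omega, ?_⟩⟩
          have := h3 (by omega) (by omega)
          omega
  have hDm : D m = h := by
    have e : D m = D 0 := by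
      rw [hD]
      simp
    rw [e, hD0]
  have hdvd : 2 * h ∣ m := by
    have h1 := hP m
    have h0 : m % (2 * h) < 2 * h := Nat.mod_lt _ (by omega)
    apply Nat.dvd_of_mod_eq_zero
    rcases Nat.lt_or_ge (m % (2 * h)) h with hlt | hge
    · have := (h1.1 hlt).1
      omega
    · have := (h1.2 hge).1
      omega
  obtain ⟨q, hq⟩ := hdvd
  have hq0 : q ≠ 0 := by
    rintro rfl
    omega
  have hmulD : ∀ j, D (2 * h * j) = h := by
    intro j
    have h1 := (hP (2 * h * j)).1 (by rw [Nat.mul_mod_right]; omega)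
    rw [h1.1, Nat.mul_mod_right]
    rfl
  have hcinj : ∀ a b : ℕ, a < m → b < m → g ((a : ZMod m) + s) = g ((b : ZMod m) + s) → a = b := by
    intro a b ha hb hab
    have h1 := add_right_cancel (hinj hab)
    rw [ZMod.natCast_eq_natCast_iff] at h1
    have h2 : a % m = b % m := h1
    rwa [Nat.mod_eq_of_lt ha, Nat.mod_eq_of_lt hb] at h2
  have hq3 : q ≤ d := by
    have hf : Function.Injective (fun j : Fin q => spl i0 h (g (((2 * h * j.val : ℕ) : ZMod m) + s)).1.1) := by
      intro j k hjk
      simp only at hjk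
      have e1 : ∀ j : Fin q, 2 * h * j.val < m := by
        intro j
        rw [hq]
        exact Nat.mul_lt_mul_of_pos_left j.isLt (by omega)
      have e2 : spd d h (g (((2 * h * j.val : ℕ) : ZMod m) + s)).1.1 =
          spd d h (g (((2 * h * k.val : ℕ) : ZMod m) + s)).1.1 := (hmulD j.val).trans (hmulD k.val).symm
      have e3 := spv_eq i0 e2 hjk
      have e4 : spc d h (g (((2 * h * j.val : ℕ) : ZMod m) + s)).1.1 = 0 :=
        (spc_zero hh _).2 (hmulD j.val)
      have e5 : spc d h (g (((2 * h * k.val : ℕ) : ZMod m) + s)).1.1 = 0 :=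
        (spc_zero hh _).2 (hmulD k.val)
      have e6 : g (((2 * h * j.val : ℕ) : ZMod m) + s) = g (((2 * h * k.val : ℕ) : ZMod m) + s) := by
        refine Subtype.ext (Prod.ext e3 ?_)
        rw [(g (((2 * h * j.val : ℕ) : ZMod m) + s)).2 e4,
          (g (((2 * h * k.val : ℕ) : ZMod m) + s)).2 e5]
      have e7 := hcinj _ _ (e1 j) (e1 k) e6
      exact Fin.ext (Nat.eq_of_mul_eq_mul_left (by omega) e7)
    have := Fintype.card_le_of_injective _ hf
    rwa [Fintype.card_fin, Fintype.card_fin] at this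
  have hq1 : q ≠ 1 := by
    rintro rfl
    rw [mul_one] at hq
    have hh2 : 2 ≤ h := by omega
    have hDlt : ∀ n, 1 ≤ n → n < 2 * h → D n < h := by
      intro n h1 h2
      have h3 := hP n
      rw [Nat.mod_eq_of_lt h2] at h3
      rcases Nat.lt_or_ge n h with hlt | hge
      · have := (h3.1 hlt).1
        omega
      · have := (h3.2 hge).1
        omega
    have hnc : ∀ n, 1 ≤ n → n < 2 * h → spc d h (g ((n : ZMod m) + s)).1.1 ≠ 0 := by
      intro n h1 h2 h3
      have h4' : D n = h := (spc_zero hh _).1 h3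
      have := hDlt n h1 h2
      omega
    have hcopy : ∀ n, 1 ≤ n → n < 2 * h →
        (g ((n : ZMod m) + s)).1.2 = (g (((1 : ℕ) : ZMod m) + s)).1.2 := by
      intro n h1
      induction n, h1 using Nat.le_induction with
      | base => intro _; rfl
      | succ n h1 ih =>
        intro h2
        rw [← ih (by omega)]
        have h3 := (hadj ((n : ZMod m) + s)).2
        rw [hcast] at h3
        exact (h3 (hnc n h1 (by omega)) (hnc (n + 1) (by omega) h2)).symm
    have d1 : D 1 = h - 1 := by
      have := (hP 0).1 (by rw [Nat.zero_mod]; omega)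
      rw [zero_add] at this
      omega
    have hmod : (2 * h - 1) % (2 * h) = 2 * h - 1 := Nat.mod_eq_of_lt (by omega)
    have d2 : D (2 * h - 1) = h - 1 := by
      have := (hP (2 * h - 1)).2 (by rw [hmod]; omega)
      rw [hmod] at this
      omega
    have l1 : spl i0 h (g (((0 : ℕ) : ZMod m) + s)).1.1 = spl i0 h (g (((1 : ℕ) : ZMod m) + s)).1.1 := by
      have h3 := (hadj (((0 : ℕ) : ZMod m) + s)).1
      rw [hcast, zero_add] at h3
      have e1 : spd d h (g (((0 : ℕ) : ZMod m) + s)).1.1 = h := hD0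
      have e2 : spd d h (g (((1 : ℕ) : ZMod m) + s)).1.1 = h - 1 := d1
      exact adj_spl i0 h3 (by omega) (by omega)
    have l2 : spl i0 h (g (((2 * h - 1 : ℕ) : ZMod m) + s)).1.1 =
        spl i0 h (g (((0 : ℕ) : ZMod m) + s)).1.1 := by
      have h3 := (hadj (((2 * h - 1 : ℕ) : ZMod m) + s)).1
      rw [hcast, show 2 * h - 1 + 1 = m by omega] at h3
      have e0 : ((m : ℕ) : ZMod m) = ((0 : ℕ) : ZMod m) := by simp
      rw [e0] at h3
      have e1 : spd d h (g (((0 : ℕ) : ZMod m) + s)).1.1 = h := hD0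
      have e2 : spd d h (g (((2 * h - 1 : ℕ) : ZMod m) + s)).1.1 = h - 1 := d2
      exact adj_spl i0 h3 (by omega) (by omega)
    have e3 : g (((2 * h - 1 : ℕ) : ZMod m) + s) = g (((1 : ℕ) : ZMod m) + s) := by
      refine Subtype.ext (Prod.ext (spv_eq i0 (d2.trans d1.symm) (l2.trans l1)) ?_)
      exact hcopy (2 * h - 1) (by omega) (by omega)
    have := hcinj _ _ (by omega) (by omega) e3
    omega
  rw [hq, mul_comm]
  exact hL q (by omega) hq3

end H46.SP
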