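import Pool.Agent.H46.SP.Key

/-!
# SP.Sy1 : symmetrization (about 180 lines)

`∏ i, ∑ j, [A (F i) (F (i + 1)) j] w j = ∑ p : ZMod d → J, ∏ i, [A (F i) (F (i + 1)) (p i)] w (p i)` (`Finset.prod_univ_sum`, `Fintype.piFinset_univ`), so the sum over `F` is `∑ p, (∏ i, w (p i)) * n p`, `n p` = the number of the injective `F` with `A (F i) (F (i + 1)) (p i)` for all `i`. For every permutation `σ` of `ZMod d` replace `p` by `p ∘ σ` (`Equiv.sum_comp` with `Equiv.arrowCongr`; `∏ w` does not change) and take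
the average over the `d!` permutations: `∑ p, (∏ w (p i)) * (∑ σ, n (p ∘ σ)) / d!`. For fixed `p`, `∑ σ, n (p ∘ σ)` is the number of the pairs `(σ, F)` with `F` injective, `A (F i) (F (i + 1)) (p (σ i))` for all `i`. If there is one, then (`hA` for `F` and `p ∘ σ`; `T (p i) ⊆ range F`, `F i ∈ T (p (σ i))`) `range F` is the union `X` of the `T (p i)`, which has `d` elements; every such `F` is a
bijection `ZMod d ≃ X`, the pair is in `NT` for the sets `T (p i)` as subsets of the type `X` (`Finset.subtype`), of the same cardinalities; `key_ineq`: the number is at most `(d!) ^ 2 ∏ i, (T (p i)).card / d`. So the sum is at most `d! * ∑ p, ∏ i, (w (p i) * (T (p i)).card / d) = d! * (∑ j, w j * (T j).card / d) ^ d` (`Finset.sum_pow'`, `Finset.prod_univ_sum` backwards).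
-/

namespace H46.SP

open Classical in
private theorem count_le {V J : Type} [Fintype V] {d : ℕ} [NeZero d] (hd : 2 ≤ d)
    (T : J → Finset V) (A : V → V → J → Prop)
    (hA : ∀ (F : ZMod d → V) (p : ZMod d → J), Function.Injective F →
      (∀ i, A (F i) (F (i + 1)) (p i)) →
      ∀ i, F i ∈ T (p i) ∧ F (i + 1) ∈ T (p i) ∧ ∀ z ∈ T (p i), z ∈ Set.range F)
    (p : ZMod d → J) :
    ((((Finset.univ : Finset (Equiv.Perm (ZMod d) ×
      {F : ZMod d → V // Function.Injective F})).filter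
        fun q => ∀ i, A (q.2.1 i) (q.2.1 (i + 1)) (p (q.1 i))).card : ℕ) : ℝ) ≤
      (d.factorial : ℝ) ^ 2 * ∏ i, (((T (p i)).card : ℝ) / d) := by
  set P := (Finset.univ : Finset (Equiv.Perm (ZMod d) ×
      {F : ZMod d → V // Function.Injective F})).filter
        fun q => ∀ i, A (q.2.1 i) (q.2.1 (i + 1)) (p (q.1 i)) with hP
  rcases P.eq_empty_or_nonempty with h | ⟨⟨σ₀, F₀⟩, h₀⟩
  · rw [h, Finset.card_empty, Nat.cast_zero]
    exact mul_nonneg (sq_nonneg _)
      (Finset.prod_nonneg fun i _ => div_nonneg (Nat.cast_nonneg _) (Nat.cast_nonneg _))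
  have h₀' : ∀ i, A (F₀.1 i) (F₀.1 (i + 1)) (p (σ₀ i)) := by
    rw [hP, Finset.mem_filter] at h₀
    exact h₀.2
  set U : Finset V := Finset.univ.image F₀.1 with hU
  have hsub : ∀ i, T (p i) ⊆ U := by
    intro i z hz
    obtain ⟨j, hj⟩ := (hA F₀.1 (fun i => p (σ₀ i)) F₀.2 h₀' (σ₀.symm i)).2.2 z
      (by simpa using hz)
    rw [← hj]
    exact Finset.mem_image_of_mem _ (Finset.mem_univ _)
  have hUcard : U.card = d := by
    rw [hU, Finset.card_image_of_injective _ F₀.2, Finset.card_univ, ZMod.card]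
  let T' : ZMod d → Finset {z // z ∈ U} := fun i => (T (p i)).subtype (· ∈ U)
  have hT' : ∀ i, (T' i).card = (T (p i)).card := by
    intro i
    show ((T (p i)).subtype (· ∈ U)).card = _
    rw [Finset.card_subtype, Finset.filter_true_of_mem (fun z hz => hsub i hz)]
  have hcU : Fintype.card {z // z ∈ U} = d := by
    rw [Fintype.card_coe, hUcard]
  have key := key_ineq (X := {z // z ∈ U}) hd hcU T'
  have hprod : ∏ i, (((T' i).card : ℝ) / d) = ∏ i, (((T (p i)).card : ℝ) / d) :=
    Finset.prod_congr rfl fun i _ => by rw [hT' i]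
  rw [hprod] at key
  refine le_trans ?_ key
  rw [Nat.cast_le, ← Set.ncard_coe_finset P]
  let φ : Equiv.Perm (ZMod d) × (ZMod d ≃ {z // z ∈ U}) →
      Equiv.Perm (ZMod d) × {F : ZMod d → V // Function.Injective F} :=
    fun r => (r.1, ⟨fun i => (r.2 i : V), fun i j hij => r.2.injective (Subtype.ext hij)⟩)
  have h1 : (P : Set _) ⊆ φ '' NT T' := by
    rintro ⟨σ, F⟩ hq
    have hq' : ∀ i, A (F.1 i) (F.1 (i + 1)) (p (σ i)) := by
      have hq2 : (σ, F) ∈ P := hq
      rw [hP, Finset.mem_filter] at hq2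
      exact hq2.2
    have hq3 := hA F.1 (fun i => p (σ i)) F.2 hq'
    have hmem : ∀ i, F.1 i ∈ U := fun i => hsub _ (hq3 i).1
    have hbij : Function.Bijective (fun i => (⟨F.1 i, hmem i⟩ : {z // z ∈ U})) := by
      rw [Fintype.bijective_iff_injective_and_card]
      refine ⟨?_, ?_⟩
      · intro i j hij
        exact F.2 (congrArg Subtype.val hij)
      · rw [hcU, ZMod.card]
    refine ⟨(σ, Equiv.ofBijective _ hbij), ?_, ?_⟩
    · intro i
      refine ⟨?_, ?_⟩
      · show (⟨F.1 i, hmem i⟩ : {z // z ∈ U}) ∈ (T (p (σ i))).subtype (· ∈ U)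
        rw [Finset.mem_subtype]
        exact (hq3 i).1
      · show (⟨F.1 (i + 1), hmem (i + 1)⟩ : {z // z ∈ U}) ∈ (T (p (σ i))).subtype (· ∈ U)
        rw [Finset.mem_subtype]
        exact (hq3 i).2.1
    · rfl
  exact (Set.ncard_le_ncard h1 (Set.toFinite _)).trans (Set.ncard_image_le (Set.toFinite _))

open Classical in
theorem sym_bound {V J : Type} [Fintype V] [Fintype J] {d : ℕ} [NeZero d]
    (hd : 2 ≤ d) (w : J → ℝ) (hw : ∀ j, 0 ≤ w j) (T : J → Finset V) (A : V → V → J → Prop)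
    (hA : ∀ (F : ZMod d → V) (p : ZMod d → J), Function.Injective F →
      (∀ i, A (F i) (F (i + 1)) (p i)) →
      ∀ i, F i ∈ T (p i) ∧ F (i + 1) ∈ T (p i) ∧ ∀ z ∈ T (p i), z ∈ Set.range F) :
    ∑ F : {F : ZMod d → V // Function.Injective F},
        ∏ i, ∑ j, (if A (F.1 i) (F.1 (i + 1)) j then w j else 0) ≤
      (d.factorial : ℝ) * (∑ j, w j * (T j).card / d) ^ d := by
  set n : (ZMod d → J) → ℝ := fun p => ∑ F : {F : ZMod d → V // Function.Injective F},
    (if ∀ i, A (F.1 i) (F.1 (i + 1)) (p i) then (1 : ℝ) else 0) with hn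
  set W : (ZMod d → J) → ℝ := fun p => ∏ i, w (p i) with hW
  have hW0 : ∀ p, 0 ≤ W p := fun p => Finset.prod_nonneg fun i _ => hw _
  have hS : ∑ F : {F : ZMod d → V // Function.Injective F},
      ∏ i, ∑ j, (if A (F.1 i) (F.1 (i + 1)) j then w j else 0) = ∑ p, W p * n p := by
    have h1 : ∀ F : {F : ZMod d → V // Function.Injective F},
        ∏ i, ∑ j, (if A (F.1 i) (F.1 (i + 1)) j then w j else 0) =
          ∑ p : ZMod d → J, W p * (if ∀ i, A (F.1 i) (F.1 (i + 1)) (p i) then (1 : ℝ) else 0) := by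
      intro F
      rw [Finset.prod_univ_sum, Fintype.piFinset_univ]
      refine Finset.sum_congr rfl fun p _ => ?_
      by_cases h : ∀ i, A (F.1 i) (F.1 (i + 1)) (p i)
      · rw [if_pos h, mul_one]
        exact Finset.prod_congr rfl fun i _ => if_pos (h i)
      · rw [if_neg h, mul_zero]
        push Not at h
        obtain ⟨i, hi⟩ := h
        exact Finset.prod_eq_zero (Finset.mem_univ i) (if_neg hi)
    rw [Finset.sum_congr rfl fun F _ => h1 F, Finset.sum_comm]
    refine Finset.sum_congr rfl fun p _ => ?_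
    rw [hn, Finset.mul_sum]
  have hperm : ∀ σ : Equiv.Perm (ZMod d), ∑ p, W p * n p = ∑ p, W p * n (fun i => p (σ i)) := by
    intro σ
    have h1 : ∑ p, W p * n p = ∑ p : ZMod d → J, W (fun i => p (σ i)) * n (fun i => p (σ i)) := by
      exact (Equiv.sum_comp (Equiv.arrowCongr σ.symm (Equiv.refl J))
        (fun p => W p * n p)).symm
    rw [h1]
    refine Finset.sum_congr rfl fun p _ => ?_
    congr 1
    exact Equiv.prod_comp σ (fun i => w (p i))
  have hsum : (d.factorial : ℝ) * ∑ p, W p * n p =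
      ∑ p, W p * ∑ σ : Equiv.Perm (ZMod d), n (fun i => p (σ i)) := by
    have h1 : (d.factorial : ℝ) * ∑ p, W p * n p =
        ∑ σ : Equiv.Perm (ZMod d), ∑ p, W p * n (fun i => p (σ i)) := by
      rw [← Finset.sum_congr rfl fun σ _ => hperm σ, Finset.sum_const, Finset.card_univ,
        Fintype.card_perm, ZMod.card, nsmul_eq_mul]
    rw [h1, Finset.sum_comm]
    refine Finset.sum_congr rfl fun p _ => ?_
    rw [Finset.mul_sum]
  have hcount : ∀ p : ZMod d → J, ∑ σ : Equiv.Perm (ZMod d), n (fun i => p (σ i)) ≤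
      (d.factorial : ℝ) ^ 2 * ∏ i, (((T (p i)).card : ℝ) / d) := by
    intro p
    refine le_trans (le_of_eq ?_) (count_le hd T A hA p)
    rw [Finset.card_filter, Nat.cast_sum, Fintype.sum_prod_type]
    refine Finset.sum_congr rfl fun σ _ => ?_
    rw [hn]
    refine Finset.sum_congr rfl fun F _ => ?_
    push_cast
    rfl
  have hfin : ∑ p, W p * ((d.factorial : ℝ) ^ 2 * ∏ i, (((T (p i)).card : ℝ) / d)) =
      (d.factorial : ℝ) ^ 2 * (∑ j, w j * (T j).card / d) ^ d := by
    have h1 : (∑ j, w j * (T j).card / d) ^ d =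
        ∑ p : ZMod d → J, ∏ i, (w (p i) * (T (p i)).card / d) := by
      have h2 := Finset.prod_univ_sum (fun _ : ZMod d => (Finset.univ : Finset J))
        (fun _ j => w j * ((T j).card : ℝ) / d)
      rw [Fintype.piFinset_univ, Finset.prod_const, Finset.card_univ, ZMod.card] at h2
      exact h2
    rw [h1, Finset.mul_sum]
    refine Finset.sum_congr rfl fun p _ => ?_
    have h3 : ∏ i, (w (p i) * ((T (p i)).card : ℝ) / d) =
        W p * ∏ i, (((T (p i)).card : ℝ) / d) := by
      rw [hW, ← Finset.prod_mul_distrib]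
      exact Finset.prod_congr rfl fun i _ => mul_div_assoc _ _ _
    rw [h3]
    ring
  have hd0 : (0 : ℝ) < d.factorial := by
    exact_mod_cast Nat.factorial_pos d
  rw [hS]
  have h5 : (d.factorial : ℝ) * ∑ p, W p * n p ≤
      (d.factorial : ℝ) * ((d.factorial : ℝ) * (∑ j, w j * (T j).card / d) ^ d) := by
    calc (d.factorial : ℝ) * ∑ p, W p * n p
        = ∑ p, W p * ∑ σ : Equiv.Perm (ZMod d), n (fun i => p (σ i)) := hsum
      _ ≤ ∑ p, W p * ((d.factorial : ℝ) ^ 2 * ∏ i, (((T (p i)).card : ℝ) / d)) :=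
          Finset.sum_le_sum fun p _ => mul_le_mul_of_nonneg_left (hcount p) (hW0 p)
      _ = (d.factorial : ℝ) ^ 2 * (∑ j, w j * (T j).card / d) ^ d := hfin
      _ = _ := by ring
  exact le_of_mul_le_mul_left h5 hd0

end H46.SP
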