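import Pool.Agent.H46.SP.Sy1
import Pool.Agent.H46.SP.Siz
import Pool.Agent.H46.CZ.Unq
import Pool.Agent.H46.CZ.Thd

/-!
# SP.Sy2 : the upper bound for wval (about 200 lines)

`wval = wz / (2 d)` (`val_eq`). Call `j ≠ 0` useful if there are a closed chain `F` (`Chn`), `i` with `(LP (2 q) G c (F i) (F (i + 1)) j).Nonempty`. `J` = the subtype of the colours in `univ.image c`. `A x y j`: `j ≠ 0`, `c x = 0`, `c y = 0`, `(LP (2 q) G c x y j).Nonempty`. `T j = (TT G c j).toFinset` if `j` is useful, `∅` otherwise. `hA`: such an `F` is a closed chain, `j = p i` is useful, `F i`, `F (i + 1)` are attached to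
the piece (first and last member of the list, `l = 2 q ≥ 2`), and every `z ∈ TT G c j` is in `range F` by `hub_mem` (CZ.Thd; `CConn` gives `Con`). For `F ∈ HC` with positive product (`pc_chn`): `#LP = 1` (not empty) for all `i`, `p i` used (`run_unique` with `CConn`), so `∏ aw (F i) (F (i + 1)) ≤ ∏ ∑ j, [A ...] w j`. `sym_bound` gives `wz ≤ d! * (∑ j, w j * (T j).card / d) ^ d`. For a useful `j`: `(T j).card ≤ d` (contained in the range of a
closed chain) and `size_le`: with `n j = {v | c v = j}.ncard`, `t = (T j).card`: `t / d * (d (q - 1) + 1) = t (q - 1) + t / d ≤ t (q - 1) + 1 ≤ n j`. So `(d (q - 1) + 1) * ∑ j, w j * (T j).card / d ≤ ∑ j, w j * n j = ∑ v, w (c v) ≤ 1`. Finally `d! / (2 d) = (d - 1)! / 2`.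
-/

namespace H46.SP

open Pool.Agent.H3.LC H46.CY H46.CZ

private theorem lp_first {V : Type} {G : SimpleGraph V} {c : V → ℕ} {l : ℕ} (hl : 2 ≤ l) {x y : V}
    {j : ℕ} {s : List V} (hs : s ∈ LP l G c x y j) : ∃ u, u ∈ s ∧ c u = j ∧ G.Adj x u := by
  obtain ⟨hP, hlen, hc⟩ := hs
  cases s with
  | nil =>
    simp only [List.length_nil] at hlen
    omega
  | cons a s =>
    refine ⟨a, by simp, hc a (by simp), ?_⟩
    have h1 := hP.1
    rw [List.cons_append, List.isChain_cons_cons] at h1
    exact h1.1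

/-- the colours used by closed chains -/
private def Useful {V : Type} (G : SimpleGraph V) (c : V → ℕ) (q d : ℕ) (j : ℕ) : Prop :=
  j ≠ 0 ∧ ∃ F : ZMod d → V, Chn (2 * q) G c F ∧ ∃ i, (LP (2 * q) G c (F i) (F (i + 1)) j).Nonempty

private theorem tt_range {V : Type} {L : Finset ℕ} {G : SimpleGraph V} {c : V → ℕ}
    (hV : Valid L G c) {q d : ℕ} (hq : 1 ≤ q) (hd : 2 ≤ d) (hmax : ∀ x ∈ L, x ≤ d * (2 * q))
    (hcc : CConn G c) {F : ZMod d → V} (hF : Chn (2 * q) G c F) {i : ZMod d} {j : ℕ} (hj : j ≠ 0)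
    (hne : (LP (2 * q) G c (F i) (F (i + 1)) j).Nonempty) {z : V} (hz : z ∈ TT G c j) :
    ∃ k, F k = z := by
  obtain ⟨hz0, u, hu, huz⟩ := hz
  obtain ⟨s, hs⟩ := hne
  obtain ⟨a, ha1, ha2, -⟩ := lp_first (by omega) hs
  have hcon : Con G c a u := hcc a u (by rw [ha2, hu]) (by rw [ha2]; exact hj)
  exact hub_mem hV (by omega) hd hmax hF hj hs ha1 hcon huz hz0

private theorem aw_le {V : Type} [Fintype V] {L : Finset ℕ} {G : SimpleGraph V} {c : V → ℕ}
    (hV : Valid L G c) {q d : ℕ} (hq : 1 ≤ q) (hd : 2 ≤ d)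
    (hev : ∀ x ∈ L, Even x → 2 * (2 * q) ≤ x) (hmax : ∀ x ∈ L, x ≤ d * (2 * q))
    (hcc : CConn G c) {w : ℕ → ℝ} (w0 : w 0 = 0) (wnn : ∀ i, 0 ≤ w i) {F : ZMod d → V}
    (hF : Chn (2 * q) G c F) (i : ZMod d) (j : ℕ)
    {P : Prop} (hP : j ≠ 0 → (LP (2 * q) G c (F i) (F (i + 1)) j).Nonempty → P) :
    w j * ((LP (2 * q) G c (F i) (F (i + 1)) j).ncard : ℝ) ≤
      @ite ℝ P (Classical.propDecidable P) (w j) 0 := by
  by_cases hne : (LP (2 * q) G c (F i) (F (i + 1)) j).Nonempty
  · by_cases hj : j = 0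
    · subst hj
      rw [w0, zero_mul]
      split_ifs <;> exact le_rfl
    · rw [if_pos (hP hj hne)]
      have h1 : (LP (2 * q) G c (F i) (F (i + 1)) j).ncard ≤ 1 := by
        rw [Set.ncard_le_one (lp_finite _ _ _ _ _ _)]
        intro s hs s' hs'
        obtain ⟨a, ha1, ha2, -⟩ := lp_first (by omega) hs
        obtain ⟨b, hb1, hb2, -⟩ := lp_first (by omega) hs'
        exact run_unique hV (by omega) hd hev hmax hF hj hj hs hs' ha1 hb1
          (hcc a b (by rw [ha2, hb2]) (by rw [ha2]; exact hj))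
      have h2 : ((LP (2 * q) G c (F i) (F (i + 1)) j).ncard : ℝ) ≤ 1 := by exact_mod_cast h1
      calc w j * ((LP (2 * q) G c (F i) (F (i + 1)) j).ncard : ℝ) ≤ w j * 1 :=
            mul_le_mul_of_nonneg_left h2 (wnn j)
        _ = w j := mul_one _
  · rw [Set.not_nonempty_iff_eq_empty] at hne
    rw [hne, Set.ncard_empty, Nat.cast_zero, mul_zero]
    split_ifs
    · exact wnn j
    · exact le_rfl

theorem wval_le_spider {V : Type} [Fintype V] {L : Finset ℕ} {G : SimpleGraph V} {c : V → ℕ}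
    (hV : Valid L G c) {q d : ℕ} (hq : 1 ≤ q) (hd : 2 ≤ d)
    (hev : ∀ x ∈ L, Even x → 2 * (2 * q) ≤ x) (hmax : ∀ x ∈ L, x ≤ d * (2 * q))
    (hcc : CConn G c) {w : ℕ → ℝ} (hw : Feas c w) :
    wval (2 * q) d G c w ≤
      ((d - 1).factorial : ℝ) / 2 / ((d : ℝ) * ((q : ℝ) - 1) + 1) ^ d := by
  classical
  have hd0 : NeZero d := ⟨by omega⟩
  obtain ⟨w0, wnn, wsum⟩ := hw
  have hdR : (2 : ℝ) ≤ d := by exact_mod_cast hd
  have hqR : (1 : ℝ) ≤ q := by exact_mod_cast hq
  set D : ℝ := (d : ℝ) * ((q : ℝ) - 1) + 1 with hD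
  have hD0 : 0 < D := by
    have : 0 ≤ (d : ℝ) * ((q : ℝ) - 1) := mul_nonneg (by linarith) (by linarith)
    rw [hD]
    linarith
  let T : {j // j ∈ Finset.univ.image c} → Finset V := fun j =>
    if Useful G c q d j.1 then Finset.univ.filter (fun z => z ∈ TT G c j.1) else ∅
  let A : V → V → {j // j ∈ Finset.univ.image c} → Prop := fun x y j =>
    j.1 ≠ 0 ∧ c x = 0 ∧ c y = 0 ∧ (LP (2 * q) G c x y j.1).Nonempty
  have hA : ∀ (F : ZMod d → V) (p : ZMod d → {j // j ∈ Finset.univ.image c}),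
      Function.Injective F → (∀ i, A (F i) (F (i + 1)) (p i)) →
      ∀ i, F i ∈ T (p i) ∧ F (i + 1) ∈ T (p i) ∧ ∀ z ∈ T (p i), z ∈ Set.range F := by
    intro F p hinj h i
    have hchn : Chn (2 * q) G c F :=
      ⟨⟨hinj, fun i => (h i).2.1⟩, fun i => ⟨(p i).1, (h i).1, (h i).2.2.2⟩⟩
    have hus : Useful G c q d (p i).1 := ⟨(h i).1, F, hchn, i, (h i).2.2.2⟩
    have hT : T (p i) = Finset.univ.filter (fun z => z ∈ TT G c (p i).1) := if_pos hus
    obtain ⟨hj, h1, h2, hne⟩ := h i
    rw [hT]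
    refine ⟨?_, ?_, ?_⟩
    · rw [Finset.mem_filter]
      obtain ⟨s, hs⟩ := hne
      obtain ⟨u, -, hu1, hu2⟩ := lp_first (by omega) hs
      exact ⟨Finset.mem_univ _, h1, u, hu1, hu2.symm⟩
    · rw [Finset.mem_filter]
      obtain ⟨s, hs⟩ := hne
      obtain ⟨u, -, hu1, hu2⟩ := lp_first (by omega) (lp_rev hs)
      exact ⟨Finset.mem_univ _, h2, u, hu1, hu2.symm⟩
    · intro z hz
      rw [Finset.mem_filter] at hz
      exact tt_range hV hq hd hmax hcc hchn hj hne hz.2
  let g : {F : ZMod d → V // Function.Injective F} → ℝ := fun F =>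
    ∏ i, ∑ j : {j // j ∈ Finset.univ.image c},
      @ite ℝ (A (F.1 i) (F.1 (i + 1)) j) (Classical.propDecidable _) (w j.1) 0
  have key : ∑ F, g F ≤ (d.factorial : ℝ) *
      (∑ j : {j // j ∈ Finset.univ.image c}, w j.1 * (T j).card / d) ^ d :=
    sym_bound hd (fun j : {j // j ∈ Finset.univ.image c} => w j.1) (fun j => wnn j.1) T A hA
  -- the sum over `HC`
  have hwz : wz (2 * q) d G c w ≤ ∑ F, g F := by
    unfold wz
    have hnn : ∀ F, 0 ≤ g F := fun F =>
      Finset.prod_nonneg fun i _ => Finset.sum_nonneg fun j _ => by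
        split_ifs
        · exact wnn _
        · exact le_rfl
    have h1 : ∀ F : {F : ZMod d → V // F ∈ HC c d},
        ∏ i, aw (2 * q) G c w (F.1 i) (F.1 (i + 1)) ≤ g ⟨F.1, F.2.1⟩ := by
      intro F
      have h0 : 0 ≤ ∏ i, aw (2 * q) G c w (F.1 i) (F.1 (i + 1)) :=
        Finset.prod_nonneg fun i _ => aw_nonneg wnn _ _
      rcases h0.eq_or_lt with h0 | h0
      · rw [← h0]
        exact hnn ⟨F.1, F.2.1⟩
      · have hPC : PC (2 * q) G c w F.1 := ⟨F.2, h0⟩
        have hch := pc_chn w0 wnn hPC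
        refine Finset.prod_le_prod (fun i _ => aw_nonneg wnn _ _) fun i _ => ?_
        unfold aw
        rw [← Finset.sum_coe_sort (Finset.univ.image c)]
        refine Finset.sum_le_sum fun j _ => ?_
        exact aw_le hV hq hd hev hmax hcc w0 wnn hch i j.1
          (fun hj hne => ⟨hj, F.2.2 i, F.2.2 (i + 1), hne⟩)
    refine (Finset.sum_le_sum fun F _ => h1 F).trans ?_
    have hinj : Function.Injective
        (fun F : {F : ZMod d → V // F ∈ HC c d} =>
          (⟨F.1, F.2.1⟩ : {F : ZMod d → V // Function.Injective F})) := by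
      intro F F' h
      exact Subtype.ext
        (congrArg (fun x : {F : ZMod d → V // Function.Injective F} => x.1) h)
    calc ∑ F : {F : ZMod d → V // F ∈ HC c d}, g ⟨F.1, F.2.1⟩
        = ∑ F ∈ Finset.univ.map (⟨fun F : {F : ZMod d → V // F ∈ HC c d} =>
          (⟨F.1, F.2.1⟩ : {F : ZMod d → V // Function.Injective F}), hinj⟩ :
            {F : ZMod d → V // F ∈ HC c d} ↪ {F : ZMod d → V // Function.Injective F}), g F := by
          rw [Finset.sum_map]
          rfl
      _ ≤ ∑ F, g F :=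
          Finset.sum_le_sum_of_subset_of_nonneg (Finset.subset_univ _) fun F _ _ => hnn F
  set S : ℝ := ∑ j : {j // j ∈ Finset.univ.image c}, w j.1 * (T j).card / d with hS
  have hS0 : 0 ≤ S := Finset.sum_nonneg fun j _ =>
    div_nonneg (mul_nonneg (wnn _) (Nat.cast_nonneg _)) (Nat.cast_nonneg _)
  have hT : ∀ j : {j // j ∈ Finset.univ.image c},
      D * (w j.1 * (T j).card / d) ≤
        ((Finset.univ.filter (fun v => c v = j.1)).card : ℝ) * w j.1 := by
    intro j
    by_cases hus : Useful G c q d j.1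
    · have hTj : T j = Finset.univ.filter (fun z => z ∈ TT G c j.1) := if_pos hus
      obtain ⟨hj, F, hF, i, hne⟩ := hus
      have hsub : Finset.univ.filter (fun z => z ∈ TT G c j.1) ⊆ Finset.univ.image F := by
        intro z hz
        rw [Finset.mem_filter] at hz
        obtain ⟨k, hk⟩ := tt_range hV hq hd hmax hcc hF hj hne hz.2
        rw [Finset.mem_image]
        exact ⟨k, Finset.mem_univ _, hk⟩
      have hcard : (T j).card ≤ d := by
        rw [hTj]
        refine (Finset.card_le_card hsub).trans (Finset.card_image_le.trans ?_)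
        rw [Finset.card_univ, ZMod.card]
      have hnc : (TT G c j.1).ncard = (T j).card := by
        rw [hTj, ← Set.ncard_coe_finset]
        congr 1
        ext z
        simp
      have hnc2 : {v | c v = j.1}.ncard = (Finset.univ.filter (fun v => c v = j.1)).card := by
        rw [← Set.ncard_coe_finset]
        congr 1
        ext z
        simp
      obtain ⟨s, hs⟩ := hne
      have hxy : F i ≠ F (i + 1) := by
        intro h
        have h1 := hF.1.1 h
        have h2 : (1 : ZMod d) = 0 := by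
          have h3 : i + 1 = i + 0 := by rw [← h1, add_zero]
          exact add_left_cancel h3
        have : Fact (1 < d) := ⟨by omega⟩
        exact one_ne_zero h2
      have hsz := size_le hV hq hev hcc hxy (hF.1.2 i) (hF.1.2 (i + 1)) hj hs
      rw [hnc, hnc2] at hsz
      have hszR : ((T j).card : ℝ) * ((q : ℝ) - 1) + 1 ≤
          ((Finset.univ.filter (fun v => c v = j.1)).card : ℝ) := by
        have h1 : (((T j).card * (q - 1) + 1 : ℕ) : ℝ) ≤
            ((Finset.univ.filter (fun v => c v = j.1)).card : ℝ) := by exact_mod_cast hsz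
        rw [Nat.cast_add, Nat.cast_mul, Nat.cast_sub hq, Nat.cast_one] at h1
        exact h1
      have hcR : ((T j).card : ℝ) ≤ d := by exact_mod_cast hcard
      have h2 : D * ((T j).card / d) ≤
          ((Finset.univ.filter (fun v => c v = j.1)).card : ℝ) := by
        refine le_trans ?_ hszR
        have h3 : D * ((T j).card / d) = (T j).card * ((q : ℝ) - 1) + (T j).card / d := by
          rw [hD]
          field_simp
        rw [h3]
        have h4 : ((T j).card : ℝ) / d ≤ 1 := by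
          rw [div_le_one (by linarith)]
          exact hcR
        linarith
      calc D * (w j.1 * (T j).card / d) = (D * ((T j).card / d)) * w j.1 := by ring
        _ ≤ ((Finset.univ.filter (fun v => c v = j.1)).card : ℝ) * w j.1 :=
          mul_le_mul_of_nonneg_right h2 (wnn _)
    · have hTj : T j = ∅ := if_neg hus
      rw [hTj, Finset.card_empty, Nat.cast_zero, mul_zero, zero_div, mul_zero]
      exact mul_nonneg (Nat.cast_nonneg _) (wnn _)
  have hDS : D * S ≤ 1 := by
    rw [hS, Finset.mul_sum]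
    refine (Finset.sum_le_sum fun j _ => hT j).trans ?_
    rw [Finset.sum_coe_sort (Finset.univ.image c)
      (fun j => ((Finset.univ.filter (fun v => c v = j)).card : ℝ) * w j)]
    have h1 := Finset.sum_comp (s := (Finset.univ : Finset V)) w c
    simp only [nsmul_eq_mul] at h1
    rw [← h1]
    exact wsum
  have hS1 : S ≤ 1 / D := by
    rw [le_div_iff₀ hD0, mul_comm]
    exact hDS
  have hSd : S ^ d ≤ (1 / D) ^ d := pow_le_pow_left₀ hS0 hS1 d
  have hfac : (d.factorial : ℝ) = d * ((d - 1).factorial : ℝ) := by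
    have h1 : d.factorial = d * (d - 1).factorial := (Nat.mul_factorial_pred (by omega)).symm
    exact_mod_cast h1
  have hDd : 0 < D ^ d := pow_pos hD0 d
  rw [val_eq]
  calc wz (2 * q) d G c w / (2 * d) ≤ ((d.factorial : ℝ) * S ^ d) / (2 * d) := by
        gcongr
        exact hwz.trans key
    _ ≤ ((d.factorial : ℝ) * (1 / D) ^ d) / (2 * d) := by gcongr
    _ = ((d - 1).factorial : ℝ) / 2 / D ^ d := by
        rw [hfac, one_div, inv_pow]
        have hd1 : (d : ℝ) ≠ 0 := by linarith
        field_simp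

end H46.SP
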